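import Mathlib

/-!
# Induction over cyclic subgroups
-/

set_option autoImplicit false

open scoped Classical

noncomputable section

namespace Pool.Agent.R663.GA

section

variable {Q : Type} [Group Q] [Finite Q]

/-- the sum over a coset -/
def avg (N : Subgroup Q) (D : Q → ℤ) (t : Q) : ℤ := ∑ᶠ n : N, D (n * t)

theorem cyc_ind {N T2 : Subgroup Q} {D : Q → ℤ}
    (h1 : ∀ T : Subgroup Q, N ≤ T → T ≤ T2 → ∑ᶠ t : T, D t = 0)
    (hN : N ≤ T2)
    (h2 : ∀ s ∈ T2, ∀ t ∈ T2, N ⊔ Subgroup.zpowers s = N ⊔ Subgroup.zpowers t →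
      avg N D s = avg N D t) :
    ∀ (m : ℕ) (t : Q), t ∈ T2 → Nat.card ↥(N ⊔ Subgroup.zpowers t) ≤ m → avg N D t = 0 := by
  intro m
  induction m with
  | zero =>
    intro t _ h
    have : 0 < Nat.card ↥(N ⊔ Subgroup.zpowers t) := Nat.card_pos
    omega
  | succ m ih =>
    intro t ht hm
    obtain ⟨U, hU⟩ : ∃ U, U = N ⊔ Subgroup.zpowers t := ⟨_, rfl⟩
    have htU : t ∈ U := hU ▸ (le_sup_right : Subgroup.zpowers t ≤ N ⊔ Subgroup.zpowers t)
      (Subgroup.mem_zpowers t)
    have hNU : N ≤ U := hU ▸ le_sup_left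
    have hUT : U ≤ T2 := by
      rw [hU]
      exact sup_le hN ((Subgroup.zpowers_le).2 ht)
    have : Fintype U := Fintype.ofFinite _
    have : Fintype N := Fintype.ofFinite _
    have e1 : ∑ s : U, avg N D s = 0 := by
      unfold avg
      simp only [finsum_eq_sum_of_fintype]
      rw [Finset.sum_comm]
      refine Finset.sum_eq_zero fun n _ => ?_
      have h3 := h1 U hNU hUT
      rw [finsum_eq_sum_of_fintype] at h3
      rw [← h3]
      exact Equiv.sum_comp (Equiv.mulLeft (⟨n, hNU n.2⟩ : U)) (fun s : U => D s)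
    have e2 : ∀ s : U, avg N D s = if N ⊔ Subgroup.zpowers (s : Q) = U then avg N D t else 0 := by
      intro s
      have hle : N ⊔ Subgroup.zpowers (s : Q) ≤ U :=
        sup_le hNU ((Subgroup.zpowers_le).2 s.2)
      split_ifs with h
      · exact h2 s (hUT s.2) t ht (h.trans hU)
      · refine ih s (hUT s.2) ?_
        have h4 : Nat.card ↥(N ⊔ Subgroup.zpowers (s : Q)) < Nat.card U := by
          refine lt_of_le_of_ne (Subgroup.card_le_of_le hle) fun h5 => h ?_
          exact Subgroup.eq_of_le_of_card_ge hle h5.ge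
        rw [← hU] at hm
        omega
    have e3 : ∀ s : U, avg N D s =
        (if N ⊔ Subgroup.zpowers (s : Q) = U then (1 : ℤ) else 0) * avg N D t := by
      intro s
      rw [e2 s]
      split_ifs
      · rw [one_mul]
      · rw [zero_mul]
    rw [Finset.sum_congr rfl fun s _ => e3 s, ← Finset.sum_mul] at e1
    rcases mul_eq_zero.1 e1 with h | h
    · exfalso
      have h6 : (if N ⊔ Subgroup.zpowers ((⟨t, htU⟩ : U) : Q) = U then (1 : ℤ) else 0) ≤
          ∑ s : U, (if N ⊔ Subgroup.zpowers (s : Q) = U then (1 : ℤ) else 0) := by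
        refine Finset.single_le_sum (f := fun s : U =>
          (if N ⊔ Subgroup.zpowers (s : Q) = U then (1 : ℤ) else 0)) (fun s _ => ?_)
          (Finset.mem_univ _)
        show (0 : ℤ) ≤ if N ⊔ Subgroup.zpowers (s : Q) = U then (1 : ℤ) else 0
        split_ifs
        · exact zero_le_one
        · exact le_refl _
      rw [h, if_pos hU.symm] at h6
      omega
    · exact h

end

end Pool.Agent.R663.GA
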