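import Pool.Agent.R663.GA.Sum
import Pool.Agent.R663.GA.Cyc

/-!
# Fixed characters: one twisted conjugation
-/

set_option autoImplicit false
set_option linter.unusedSectionVars false

open scoped Classical Pointwise

noncomputable section

namespace Pool.Agent.R663.GA

open Pool.Agent.Y63.AWC (IsIrreducibleCharacter irr_comp)
open Pool.Agent.Y63.NV
open Pool.Agent.Y63.KR
open Pool.Agent.Y85.NV (cj SYL)
open Pool.Agent.Y930.NV (Cf irr_Cf)
open Pool.Agent.R663.KRB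

variable {F : Type} [Field F] {Γ : Type} [Group Γ] [Finite Γ]
variable {G : Subgroup Γ} {p : ℕ} [hG : G.Normal]

/-- the untwisted elements of `G` -/
def G1 (G : Subgroup Γ) : Subgroup (Γ × Ex G) := G.prod ⊥

theorem mem_G1 {s : Γ × Ex G} : s ∈ G1 G ↔ s.1 ∈ G ∧ s.2 = 1 := by
  unfold G1
  rw [Subgroup.mem_prod, Subgroup.mem_bot]

omit hG in
theorem finE (G : Subgroup Γ) : Finite (Γ × Ex G) := by
  have : NeZero (Nat.card G) := ⟨Nat.card_pos.ne'⟩
  have : Finite (Ex G) := inferInstance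
  infer_instance

/-- the number of fixed characters only depends on the coset -/
theorem FX_left (red : integralClosure ℤ ℂ →+* F) {J : Subgroup Γ} (z : Γ → F) (c : F)
    {t : Γ × Ex G} (ht : t.1 ∈ J) {a : Γ} (ha : a ∈ G ⊓ J) :
    FX red G J z c ((a, 1) * t) = FX red G J z c t := by
  unfold FX
  have hmem : ∀ x : ↥(G ⊓ J), tw t x ∈ G ⊓ J := fun x =>
    (G ⊓ J).pow_mem ((conjN ht x).2 x.2) _
  have hval : ∀ x : ↥(G ⊓ J), tw (((a, 1) : Γ × Ex G) * t) (x : Γ) =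
      a * tw t (x : Γ) * a⁻¹ := by
    intro x
    rw [tw_mul _ _ x.2.1, tw_pair_one (hmem x).1]
  refine Nat.card_congr (Equiv.subtypeEquivRight fun χ => and_congr_right fun hχ => ?_)
  have : Fintype ↥(G ⊓ J) := Fintype.ofFinite _
  have hcf : Cf χ := irr_Cf hχ.1
  constructor
  · intro h x y hxy
    have h1 := h x (⟨a, ha⟩ * y * ⟨a, ha⟩⁻¹) (by rw [hval x, ← hxy]; rfl)
    rwa [hcf] at h1
  · intro h x y hxy
    have h1 := h x ⟨tw t x, hmem x⟩ rfl
    rw [← h1, ← hcf ⟨a, ha⟩ ⟨tw t x, hmem x⟩]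
    congr 1
    apply Subtype.ext
    rw [hxy, hval]
    rfl

theorem FX_pow (red : integralClosure ℤ ℂ →+* F) {J : Subgroup Γ} (z : Γ → F) (c : F)
    {t : Γ × Ex G} (ht : t.1 ∈ J) (k : ℕ) : FX red G J z c t ≤ FX red G J z c (t ^ k) := by
  unfold FX
  have : Fintype ↥(G ⊓ J) := Fintype.ofFinite _
  have hfin : Finite {χ : ↥(G ⊓ J) → ℂ // IsIrreducibleCharacter χ} := by
    have h1 := Pool.Agent.Y171.NV.irr_fin ↥(G ⊓ J)
    exact h1
  have hmem : ∀ (j : ℕ) (x : ↥(G ⊓ J)), tw (t ^ j) x ∈ G ⊓ J := by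
    intro j x
    have h1 : (t ^ j).1 ∈ J := by
      rw [Prod.pow_fst]
      exact J.pow_mem ht j
    exact (G ⊓ J).pow_mem ((conjN h1 x).2 x.2) _
  have hk : ∀ χ : ↥(G ⊓ J) → ℂ, (∀ x y : ↥(G ⊓ J), (y : Γ) = tw t x → χ y = χ x) →
      ∀ (j : ℕ) (x y : ↥(G ⊓ J)), (y : Γ) = tw (t ^ j) x → χ y = χ x := by
    intro χ h j
    induction j with
    | zero =>
      intro x y hxy
      rw [pow_zero, tw_one x.2.1] at hxy
      rw [Subtype.ext hxy]
    | succ j ih =>
      intro x y hxy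
      rw [pow_succ, tw_mul _ _ x.2.1] at hxy
      have hm1 : tw t x ∈ G ⊓ J := (G ⊓ J).pow_mem ((conjN ht x).2 x.2) _
      rw [ih ⟨tw t x, hm1⟩ y hxy]
      exact h x ⟨tw t x, hm1⟩ rfl
  have hf2 : Finite {χ : ↥(G ⊓ J) → ℂ // (IsIrreducibleCharacter χ ∧
      centralValue red χ (fun x => z x) = c) ∧
      ∀ x y : ↥(G ⊓ J), (y : Γ) = tw (t ^ k) x → χ y = χ x} :=
    Finite.of_injective (fun χ => (⟨χ.1, χ.2.1.1⟩ : {χ : ↥(G ⊓ J) → ℂ //
      IsIrreducibleCharacter χ})) (fun a b h => Subtype.ext (congrArg (fun t => t.1) h))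
  exact Nat.card_le_card_of_injective
    (fun χ => ⟨χ.1, χ.2.1, hk χ.1 χ.2.2 k⟩) (fun a b h => Subtype.ext (congrArg (fun t => t.1) h))

/-- the sum over a coset -/
def AF (red : integralClosure ℤ ℂ →+* F) (J : Subgroup Γ) (z : Γ → F) (c : F)
    (t : Γ × Ex G) : ℕ :=
  ∑ᶠ g : G1 G, if (g.1 * t).1 ∈ J then FX red G J z c (g.1 * t) else 0

theorem AF_eq (red : integralClosure ℤ ℂ →+* F) {J : Subgroup Γ} (z : Γ → F) (c : F)
    {t : Γ × Ex G} (ht : t.1 ∈ J) : AF red J z c t = Nat.card ↥(G ⊓ J) * FX red G J z c t := by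
  have hfQ := finE G
  have : Fintype (G1 G) := Fintype.ofFinite _
  unfold AF
  rw [finsum_eq_sum_of_fintype, ← Finset.sum_filter]
  have h1 : ∀ g ∈ Finset.univ.filter (fun g : G1 G => (g.1 * t).1 ∈ J),
      FX red G J z c (g.1 * t) = FX red G J z c t := by
    intro g hg
    have h2 : (g.1 * t).1 ∈ J := (Finset.mem_filter.1 hg).2
    have h3 := mem_G1.1 g.2
    have h4 : g.1 = (g.1.1, 1) := Prod.ext rfl h3.2
    rw [h4]
    refine FX_left red z c ht ⟨h3.1, ?_⟩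
    have h5 : g.1.1 = (g.1 * t).1 * t.1⁻¹ := by
      rw [Prod.fst_mul, mul_inv_cancel_right]
    rw [h5]
    exact J.mul_mem h2 (J.inv_mem ht)
  rw [Finset.sum_congr rfl h1, Finset.sum_const, smul_eq_mul]
  congr 1
  rw [← Fintype.card_subtype, ← Nat.card_eq_fintype_card]
  refine Nat.card_congr
    { toFun := fun g => ⟨g.1.1.1, (mem_G1.1 g.1.2).1, ?_⟩
      invFun := fun a => ⟨⟨(a.1, 1), mem_G1.2 ⟨a.2.1, rfl⟩⟩, ?_⟩
      left_inv := ?_
      right_inv := fun a => rfl }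
  · have h5 : g.1.1.1 = (g.1.1 * t).1 * t.1⁻¹ := by
      rw [Prod.fst_mul, mul_inv_cancel_right]
    rw [h5]
    exact J.mul_mem g.2 (J.inv_mem ht)
  · show a.1 * t.1 ∈ J
    exact J.mul_mem a.2.2 ht
  · intro g
    apply Subtype.ext
    apply Subtype.ext
    exact Prod.ext rfl (mem_G1.1 g.1.2).2.symm

theorem AF_coset (red : integralClosure ℤ ℂ →+* F) (J : Subgroup Γ) (z : Γ → F) (c : F)
    (t : Γ × Ex G) {g : Γ × Ex G} (hg : g ∈ G1 G) : AF red J z c (g * t) = AF red J z c t := by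
  unfold AF
  rw [← finsum_comp_equiv (Equiv.mulRight (⟨g, hg⟩ : G1 G))]
  conv_rhs => rw [← finsum_comp_equiv (Equiv.mulRight (⟨g, hg⟩ : G1 G))]
  rw [finsum_comp_equiv (Equiv.mulRight (⟨g, hg⟩ : G1 G))
    (f := fun g' : G1 G => if (g'.1 * (g * t)).1 ∈ J then FX red G J z c (g'.1 * (g * t)) else 0)]
  refine finsum_congr fun h => ?_
  show _ = if ((h.1 * g) * t).1 ∈ J then FX red G J z c ((h.1 * g) * t) else 0
  rw [mul_assoc]

theorem AF_mono (red : integralClosure ℤ ℂ →+* F) (J : Subgroup Γ) (z : Γ → F) (c : F)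
    {s t : Γ × Ex G} (hst : s ∈ G1 G ⊔ Subgroup.zpowers t) :
    AF red J z c t ≤ AF red J z c s := by
  have hfQ := finE G
  by_cases hex : ∃ g : G1 G, (g.1 * t).1 ∈ J
  · obtain ⟨g0, hg0⟩ := hex
    have hn : (G1 G).Normal := by
      unfold G1
      infer_instance
    rw [← AF_coset red J z c t g0.2]
    obtain ⟨t0, ht0⟩ : ∃ t0, t0 = g0.1 * t := ⟨_, rfl⟩
    rw [← ht0] at hg0 ⊢
    -- `s` is a power of `t0` up to `G1`
    have h1 : s ∈ G1 G ⊔ Subgroup.zpowers t0 := by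
      have h2 : G1 G ⊔ Subgroup.zpowers t ≤ G1 G ⊔ Subgroup.zpowers t0 := by
        refine sup_le le_sup_left ((Subgroup.zpowers_le).2 ?_)
        have h3 : t = g0.1⁻¹ * t0 := by rw [ht0, inv_mul_cancel_left]
        rw [h3]
        exact Subgroup.mul_mem _ ((le_sup_left : G1 G ≤ G1 G ⊔ Subgroup.zpowers t0)
          ((G1 G).inv_mem g0.2)) ((le_sup_right : Subgroup.zpowers t0 ≤ G1 G ⊔ Subgroup.zpowers t0)
          (Subgroup.mem_zpowers t0))
      exact h2 hst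
    rw [← SetLike.mem_coe, Subgroup.normal_mul, Set.mem_mul] at h1
    obtain ⟨g, hg, u, hu, rfl⟩ := h1
    rw [AF_coset red J z c u hg]
    obtain ⟨k, hk⟩ := (mem_powers_iff_mem_zpowers).2 hu
    have hk' : t0 ^ k = u := hk
    rw [← hk']
    have h4 : (t0 ^ k).1 ∈ J := by
      rw [Prod.pow_fst]
      exact J.pow_mem hg0 k
    rw [AF_eq red z c hg0, AF_eq red z c h4]
    exact Nat.mul_le_mul_left _ (FX_pow red z c hg0 k)
  · have h0 : AF red J z c t = 0 := by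
      unfold AF
      rw [finsum_congr (fun g => if_neg (fun h => hex ⟨g, h⟩)), finsum_zero]
    rw [h0]
    exact Nat.zero_le _

theorem AF_congr (red : integralClosure ℤ ℂ →+* F) (J : Subgroup Γ) (z : Γ → F) (c : F)
    {s t : Γ × Ex G} (hst : G1 G ⊔ Subgroup.zpowers s = G1 G ⊔ Subgroup.zpowers t) :
    AF red J z c s = AF red J z c t := by
  refine le_antisymm ?_ ?_
  · refine AF_mono red J z c ?_
    rw [hst]
    exact (le_sup_right : Subgroup.zpowers t ≤ G1 G ⊔ Subgroup.zpowers t)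
      (Subgroup.mem_zpowers t)
  · refine AF_mono red J z c ?_
    rw [← hst]
    exact (le_sup_right : Subgroup.zpowers s ≤ G1 G ⊔ Subgroup.zpowers s)
      (Subgroup.mem_zpowers s)

variable {ν : Ex G →* Ex G}

theorem ph_G1 {g : Γ × Ex G} (hg : g ∈ G1 G) : ph ν g = g := by
  refine Prod.ext rfl ?_
  rw [ph_snd, (mem_G1.1 hg).2, map_one]

theorem ph_mem {s t : Γ × Ex G} (h : s ∈ G1 G ⊔ Subgroup.zpowers t) :
    ph ν s ∈ G1 G ⊔ Subgroup.zpowers (ph ν t) := by
  have h1 : ph ν s ∈ (G1 G ⊔ Subgroup.zpowers t).map (ph ν) := Subgroup.mem_map_of_mem _ h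
  rw [Subgroup.map_sup, MonoidHom.map_zpowers] at h1
  have h2 : (G1 G).map (ph ν) ≤ G1 G := by
    rintro _ ⟨x, hx, rfl⟩
    have hx' : x ∈ G1 G := hx
    rw [ph_G1 hx']
    exact hx'
  exact (sup_le_sup_right h2 _) h1

theorem ph_congr {s t : Γ × Ex G} (h : G1 G ⊔ Subgroup.zpowers s = G1 G ⊔ Subgroup.zpowers t) :
    G1 G ⊔ Subgroup.zpowers (ph ν s) = G1 G ⊔ Subgroup.zpowers (ph ν t) := by
  refine le_antisymm (sup_le le_sup_left ((Subgroup.zpowers_le).2 (ph_mem ?_)))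
    (sup_le le_sup_left ((Subgroup.zpowers_le).2 (ph_mem ?_)))
  · rw [← h]
    exact (le_sup_right : Subgroup.zpowers s ≤ G1 G ⊔ Subgroup.zpowers s)
      (Subgroup.mem_zpowers s)
  · rw [h]
    exact (le_sup_right : Subgroup.zpowers t ≤ G1 G ⊔ Subgroup.zpowers t)
      (Subgroup.mem_zpowers t)

/-- the difference -/
def DD (p : ℕ) (ν : Ex G →* Ex G) (red : integralClosure ℤ ℂ →+* F) (z : Γ → F) (c : F)
    [Fintype (CH p G)] (t : Γ × Ex G) : ℤ :=
  ∑ σ : CH p G, (-1 : ℤ) ^ σ.1.ncard *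
    (((if t.1 ∈ chainStabilizer σ.1 then FX red G (chainStabilizer σ.1) z c t else 0 : ℕ) : ℤ) -
      ((if t.1 ∈ chainStabilizer σ.1 then
        FX red G (chainStabilizer σ.1) z c (ph ν t) else 0 : ℕ) : ℤ))

theorem avg_DD (p : ℕ) (red : integralClosure ℤ ℂ →+* F) (z : Γ → F) (c : F) [Fintype (CH p G)]
    (t : Γ × Ex G) : avg (G1 G) (DD p ν red z c) t =
      ∑ σ : CH p G, (-1 : ℤ) ^ σ.1.ncard * ((AF red (chainStabilizer σ.1) z c t : ℤ) -
        (AF red (chainStabilizer σ.1) z c (ph ν t) : ℤ)) := by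
  have hfQ := finE G
  have : Fintype (G1 G) := Fintype.ofFinite _
  unfold avg DD AF
  rw [finsum_eq_sum_of_fintype, Finset.sum_comm]
  refine Finset.sum_congr rfl fun σ _ => ?_
  rw [← Finset.mul_sum, Finset.sum_sub_distrib, finsum_eq_sum_of_fintype,
    finsum_eq_sum_of_fintype, Nat.cast_sum, Nat.cast_sum]
  congr 2
  refine Finset.sum_congr rfl fun g _ => ?_
  have e1 : ph ν (g.1 * t) = g.1 * ph ν t := by
    rw [map_mul, ph_G1 g.2]
  rw [e1]
  rfl

theorem VT_anti {T U : Subgroup (Γ × Ex G)} (h : T ≤ U) {z : Γ → F} {S : Set Γ} {J : Subgroup Γ}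
    (hz : z ∈ (VT U S J : Submodule F (Γ → F))) : z ∈ (VT T S J : Submodule F (Γ → F)) :=
  ⟨hz.1, fun t ht => hz.2 t (h ht)⟩

theorem T1_mono {T U : Subgroup (Γ × Ex G)} (h : T ≤ U) : T1 ν T ≤ T1 ν U :=
  Subgroup.map_mono h

/-- **The sums for two twisted conjugations with exponents congruent modulo the `p'`-part.** -/
theorem twist [Fact p.Prime] [IsAlgClosed F] [CharP F p] {T : Subgroup (Γ × Ex G)}
    (hT : G1 G ≤ T) (hν : KQ p ν)
    (red : integralClosure ℤ ℂ →+* F) {z : Γ → F}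
    (hz : z ∈ (VT T G ⊤ : Submodule F (Γ → F)))
    (hz1 : z ∈ (VT (T1 ν T) G ⊤ : Submodule F (Γ → F)))
    (c : F) [Fintype (CH p G)] {t : Γ × Ex G} (ht : t ∈ T) :
    ∑ σ : CH p G, (-1 : ℤ) ^ σ.1.ncard * (AF red (chainStabilizer σ.1) z c t : ℤ) =
      ∑ σ : CH p G, (-1 : ℤ) ^ σ.1.ncard * (AF red (chainStabilizer σ.1) z c (ph ν t) : ℤ) := by
  have hfQ := finE G
  have h0 : avg (G1 G) (DD p ν red z c) t = 0 := by
    refine cyc_ind (T2 := T) ?_ hT ?_ _ t ht le_rfl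
    · intro U hU1 hU2
      have hUG : ∀ g ∈ G, ((g, 1) : Γ × Ex G) ∈ U := fun g hg => hU1 (mem_G1.2 ⟨hg, rfl⟩)
      have h1 := compare hUG hν red (VT_anti hU2 hz)
        (VT_anti (T1_mono hU2) hz1) c (p := p)
      have : Fintype U := Fintype.ofFinite _
      rw [finsum_eq_sum_of_fintype]
      unfold DD
      rw [Finset.sum_comm]
      have h2 : ∀ (σ : CH p G) (f : Γ × Ex G → ℕ),
          ∑ s : U, (if s.1.1 ∈ chainStabilizer σ.1 then f s.1 else 0) =
            ∑ᶠ s : TJ U (chainStabilizer σ.1), f s.1 := by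
        intro σ f
        have : Fintype (TJ U (chainStabilizer σ.1)) := Fintype.ofFinite _
        rw [finsum_eq_sum_of_fintype, ← Finset.sum_filter]
        symm
        refine Finset.sum_bij (fun (s : TJ U (chainStabilizer σ.1)) _ => (⟨s.1, s.2.1⟩ : U))
          ?_ ?_ ?_ ?_
        · intro s _
          rw [Finset.mem_filter]
          exact ⟨Finset.mem_univ _, s.2.2⟩
        · intro a _ b _ hab
          exact Subtype.ext (congrArg (fun u : U => u.1) hab)
        · intro s hs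
          exact ⟨⟨s.1, s.2, (Finset.mem_filter.1 hs).2⟩, Finset.mem_univ _, rfl⟩
        · intro s _
          rfl
      have h3 : ∀ σ : CH p G, ∑ s : U, ((-1 : ℤ) ^ σ.1.ncard *
          (((if s.1.1 ∈ chainStabilizer σ.1 then
            FX red G (chainStabilizer σ.1) z c s.1 else 0 : ℕ) : ℤ) -
          ((if s.1.1 ∈ chainStabilizer σ.1 then
            FX red G (chainStabilizer σ.1) z c (ph ν s.1) else 0 : ℕ) : ℤ))) =
          (-1 : ℤ) ^ σ.1.ncard *
            ((∑ᶠ t : TJ U (chainStabilizer σ.1), FX red G (chainStabilizer σ.1) z c t.1 : ℕ) : ℤ) -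
          (-1 : ℤ) ^ σ.1.ncard *
            ((∑ᶠ t : TJ U (chainStabilizer σ.1),
              FX red G (chainStabilizer σ.1) z c (ph ν t.1) : ℕ) : ℤ) := by
        intro σ
        rw [← Finset.mul_sum, Finset.sum_sub_distrib, ← Nat.cast_sum, ← Nat.cast_sum,
          h2 σ (fun s => FX red G (chainStabilizer σ.1) z c s),
          h2 σ (fun s => FX red G (chainStabilizer σ.1) z c (ph ν s)), mul_sub]
      rw [Finset.sum_congr rfl fun σ _ => h3 σ, Finset.sum_sub_distrib, h1, sub_self]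
    · intro s _ t _ hst
      rw [avg_DD, avg_DD]
      refine Finset.sum_congr rfl fun σ _ => ?_
      rw [AF_congr red _ z c hst, AF_congr red _ z c (ph_congr hst)]
  rw [avg_DD] at h0
  rw [← sub_eq_zero, ← Finset.sum_sub_distrib, ← h0]
  refine Finset.sum_congr rfl fun σ _ => ?_
  ring

end Pool.Agent.R663.GA
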