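import Pool.Agent.Y63.NV.FinL286
import Pool.Agent.Y171.NV.Kfin

/-!
# Separation of the blocks by invariant central elements
-/

set_option autoImplicit false
set_option linter.unusedSectionVars false

open scoped Classical

noncomputable section

namespace Pool.Agent.R663.GA

open Pool.Agent.Y63.NV
open Pool.Agent.Y63.NV.B286 (conv_class single_class)
open Pool.Agent.Y171.NV (CFm blk)
open Pool.Agent.Y286.NV (exists_sep)

variable {F : Type} [Field F] {N : Type} [Group N] [Finite N]

theorem conv_assoc' (f g h : N → F) : conv (conv f g) h = conv f (conv g h) := by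
  have : Fintype N := Fintype.ofFinite N
  funext x
  unfold conv
  simp only [finsum_eq_sum_of_fintype]
  simp only [Finset.sum_mul, Finset.mul_sum]
  rw [Finset.sum_comm]
  refine Finset.sum_congr rfl fun w _ => ?_
  rw [← Equiv.sum_comp (Equiv.mulLeft w)]
  refine Finset.sum_congr rfl fun u _ => ?_
  simp only [Equiv.coe_mulLeft]
  rw [inv_mul_cancel_left, mul_inv_rev, mul_assoc, mul_assoc]

theorem conv_comm' {f g : N → F} (hf : IsClassFun f) (_ : IsClassFun g) : conv f g = conv g f := by
  have : Fintype N := Fintype.ofFinite N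
  funext x
  unfold conv
  simp only [finsum_eq_sum_of_fintype]
  rw [← Equiv.sum_comp ((Equiv.inv N).trans (Equiv.mulLeft x))]
  refine Finset.sum_congr rfl fun w _ => ?_
  show f (x * w⁻¹) * g ((x * w⁻¹)⁻¹ * x) = g w * f (w⁻¹ * x)
  have e1 : (x * w⁻¹)⁻¹ * x = w := by group
  have e2 : f (x * w⁻¹) = f (w⁻¹ * x) := by
    have h := hf x (w⁻¹ * x)
    rw [← h]
    congr 1
    group
  rw [e1, e2, mul_comm]

theorem one_conv' (f : N → F) : conv (Pi.single 1 1) f = f := by
  have : Fintype N := Fintype.ofFinite N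
  funext x
  unfold conv
  rw [finsum_eq_sum_of_fintype, Finset.sum_eq_single (1 : N)]
  · rw [Pi.single_eq_same, one_mul, inv_one, one_mul]
  · intro y _ hy
    rw [Pi.single_eq_of_ne hy, zero_mul]
  · intro h
    exact absurd (Finset.mem_univ _) h

/-- the class functions with the convolution product -/
@[reducible] def cmon (N F : Type) [Group N] [Finite N] [Field F] : CommMonoid ↥(CFm N F) where
  mul a b := ⟨conv a.1 b.1, conv_class a.2 b.2⟩
  one := ⟨Pi.single 1 1, single_class⟩
  mul_assoc a b c := Subtype.ext (conv_assoc' a.1 b.1 c.1)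
  one_mul a := Subtype.ext (one_conv' a.1)
  mul_one a := Subtype.ext ((conv_comm' a.2 single_class).trans (one_conv' a.1))
  mul_comm a b := Subtype.ext (conv_comm' a.2 b.2)

/-- a block as a homomorphism -/
def blkM {B : (N → F) → F} (hB : IsBlock B) :
    letI := cmon N F
    (↥(CFm N F) →* F) :=
  letI := cmon N F
  { toFun := fun a => B a.1
    map_one' := hB.one
    map_mul' := fun a b => hB.mul a.1 b.1 a.2 b.2 }

theorem sep_inv [Infinite F] {P : Type} [Group P] [Finite P] (op : P → N → N)
    (h1 : ∀ x, op 1 x = x) (h2 : ∀ s t x, op (s * t) x = op s (op t x))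
    (hcf : ∀ t, ∀ f : N → F, IsClassFun f → IsClassFun (fun x => f (op t x)))
    (hone : ∀ t, op t 1 = 1)
    (hconv : ∀ t, ∀ f g : N → F, IsClassFun f → IsClassFun g →
      conv (fun x => f (op t x)) (fun x => g (op t x)) = fun x => conv f g (op t x))
    {I : Type} [Finite I] (μ : I → (N → F) → F) (hμ : ∀ i, IsBlock (μ i))
    {B : (N → F) → F} (hB : IsBlock B)
    (hinv : ∀ t, ∀ f : N → F, IsClassFun f → B (fun x => f (op t x)) = B f) :
    ∃ z : N → F, IsClassFun z ∧ (∀ t x, z (op t x) = z x) ∧ B z = 0 ∧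
      ∀ i, μ i z = 0 → ∀ f, IsClassFun f → μ i f = B f := by
  have : Fintype P := Fintype.ofFinite P
  let opL : P → (CFm N F →ₗ[F] CFm N F) := fun t =>
    { toFun := fun f => ⟨fun x => f.1 (op t x), hcf t f.1 f.2⟩
      map_add' := fun _ _ => rfl
      map_smul' := fun _ _ => rfl }
  let μ' : I × P → (CFm N F →ₗ[F] F) := fun q => (blk (hμ q.1)).comp (opL q.2)
  obtain ⟨z1, hz1⟩ := exists_sep μ' (blk hB)
  let _ := cmon N F
  let z0 : CFm N F := z1 - (blk hB z1) • (1 : CFm N F)
  have hone1 : ∀ {B' : (N → F) → F} (hB' : IsBlock B'), blk hB' (1 : CFm N F) = 1 :=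
    fun hB' => hB'.one
  have hopone : ∀ t, opL t 1 = 1 := by
    intro t
    apply Subtype.ext
    funext x
    show (Pi.single 1 1 : N → F) (op t x) = (Pi.single 1 1 : N → F) x
    by_cases hx : x = 1
    · rw [hx, hone]
    · have h3 : op t x ≠ 1 := by
        intro h4
        apply hx
        have h5 : op (t⁻¹ * t) x = op t⁻¹ 1 := by rw [h2, h4]
        rw [inv_mul_cancel, h1, hone] at h5
        exact h5
      rw [Pi.single_eq_of_ne hx, Pi.single_eq_of_ne h3]
  let opM : P → (CFm N F →* CFm N F) := fun t =>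
    { toFun := fun f => opL t f
      map_one' := hopone t
      map_mul' := fun a b => Subtype.ext (hconv t a.1 b.1 a.2 b.2).symm }
  let z : CFm N F := ∏ t : P, opL t z0
  refine ⟨z.1, z.2, ?_, ?_, ?_⟩
  · intro s x
    have e1 : opM s z = z := by
      show opM s (∏ t : P, opL t z0) = ∏ t : P, opL t z0
      rw [map_prod]
      refine Fintype.prod_equiv (Equiv.mulRight s) _ _ fun t => ?_
      apply Subtype.ext
      funext x
      show z0.1 (op t (op s x)) = z0.1 (op (t * s) x)
      rw [h2]
    exact congrFun (congrArg Subtype.val e1) x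
  · have e1 : B z.1 = ∏ t : P, B (opL t z0).1 := map_prod (blkM hB) _ _
    rw [e1]
    have e2 : ∀ t : P, B (opL t z0).1 = 0 := by
      intro t
      have e3 : B (opL t z0).1 = B z0.1 := hinv t z0.1 z0.2
      rw [e3]
      show blk hB z0 = 0
      show blk hB (z1 - (blk hB z1) • (1 : CFm N F)) = 0
      rw [map_sub, map_smul, hone1 hB, smul_eq_mul, mul_one, sub_self]
    exact Finset.prod_eq_zero (Finset.mem_univ 1) (e2 1)
  · intro i hi f hf
    have e1 : μ i z.1 = ∏ t : P, μ i (opL t z0).1 := map_prod (blkM (hμ i)) _ _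
    rw [e1, Finset.prod_eq_zero_iff] at hi
    obtain ⟨t, -, ht⟩ := hi
    have e2 : μ' (i, t) z1 = blk hB z1 := by
      have e3 : μ' (i, t) z0 = 0 := ht
      have e4 : μ' (i, t) (z1 - (blk hB z1) • (1 : CFm N F)) = 0 := e3
      rw [map_sub, map_smul] at e4
      have e5 : μ' (i, t) (1 : CFm N F) = 1 := by
        show blk (hμ i) (opL t 1) = 1
        rw [hopone, hone1]
      rw [e5, smul_eq_mul, mul_one, sub_eq_zero] at e4
      exact e4
    have e3 := hz1 (i, t) e2
    have hf' : IsClassFun (fun x => f (op t⁻¹ x)) := hcf t⁻¹ f hf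
    have e4 := congrArg (fun l : CFm N F →ₗ[F] F =>
      l (⟨fun x => f (op t⁻¹ x), hf'⟩ : CFm N F)) e3
    have e5 : μ i (fun x => f (op t⁻¹ (op t x))) = B (fun x => f (op t⁻¹ x)) := e4
    rw [hinv t⁻¹ f hf] at e5
    rw [← e5]
    congr 1
    funext x
    rw [← h2, inv_mul_cancel, h1]

end Pool.Agent.R663.GA
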