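import Pool.Agent.R663.GA.Gal
import Pool.Agent.R663.GA.Fix
import Pool.Agent.R663.GA.Sep
import Pool.Agent.R615.KB.Kblk

/-!
# Blocks of the stabilisers of chains of subgroups of a normal subgroup
-/

set_option autoImplicit false
set_option linter.unusedSectionVars false

open scoped Classical Pointwise

noncomputable section

namespace Pool.Agent.R663.GA

open Pool.Agent.Y63.AWC (IsIrreducibleCharacter irr_comp)
open Pool.Agent.Y63.NV
open Pool.Agent.Y63.NV.B286 (conv_class single_class)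
open Pool.Agent.Y63.KR (IsPChain chainStabilizer)
open Pool.Agent.Y930.NV (Cf irr_Cf)
open Pool.Agent.Y286.NV (centralValue_comp irr_class)
open Pool.Agent.R663.KRB

variable {F : Type} [Field F]

theorem block_congr {N : Type} [Group N] [Finite N] {B B' : (N → F) → F} (hB : IsBlock B)
    (h : ∀ f, IsClassFun f → B' f = B f) : IsBlock B' where
  add f g hf hg := by
    rw [h f hf, h g hg, h (f + g) (fun a x => by rw [Pi.add_apply, Pi.add_apply, hf a x, hg a x]),
      hB.add f g hf hg]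
  smul a f hf := by
    rw [h f hf, h (a • f) (fun b x => by rw [Pi.smul_apply, Pi.smul_apply, hf b x]),
      hB.smul a f hf]
  one := by rw [h _ single_class, hB.one]
  mul f g hf hg := by
    rw [h f hf, h g hg, h _ (conv_class hf hg), hB.mul f g hf hg]

variable {Γ : Type} [Group Γ] [Finite Γ] {G : Subgroup Γ} {p : ℕ}

theorem chain_sub {σ : Set (Subgroup Γ)} (hσ : IsPChain p σ) (hG : ∀ P ∈ σ, P ≤ G) :
    IsPChain p ((fun P : Subgroup Γ => P.subgroupOf G) '' σ) where
  chain := by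
    rintro _ ⟨P, hP, rfl⟩ _ ⟨Q, hQ, rfl⟩ _
    rcases hσ.chain.total hP hQ with h | h
    · exact Or.inl (fun x hx => h hx)
    · exact Or.inr (fun x hx => h hx)
  isPGroup := by
    rintro _ ⟨P, hP, rfl⟩
    exact (hσ.isPGroup P hP).comap_subtype
  ne_bot := by
    rintro _ ⟨P, hP, rfl⟩ h
    apply hσ.ne_bot P hP
    rw [Subgroup.subgroupOf_eq_bot] at h
    rw [← h.eq_bot_of_le (hG P hP)]

theorem stab_sub {σ : Set (Subgroup Γ)} (hG : ∀ P ∈ σ, P ≤ G) (x : G) :
    x ∈ chainStabilizer ((fun P : Subgroup Γ => P.subgroupOf G) '' σ) ↔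
      (x : Γ) ∈ chainStabilizer σ := by
  unfold chainStabilizer
  simp only [Subgroup.mem_iInf]
  constructor
  · intro h P hP
    have h1 := h _ ⟨P, hP, rfl⟩
    rw [Subgroup.mem_normalizer_iff] at h1 ⊢
    intro y
    constructor
    · intro hy
      exact (h1 ⟨y, hG P hP hy⟩).1 hy
    · intro hy
      have h2 : y ∈ G := by
        have h3 := G.mul_mem (G.mul_mem (G.inv_mem x.2) (hG P hP hy)) x.2
        have h4 : (x : Γ)⁻¹ * (x * y * (x : Γ)⁻¹) * x = y := by group
        rwa [h4] at h3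
      exact (h1 ⟨y, h2⟩).2 hy
  · rintro h _ ⟨P, hP, rfl⟩
    have h1 := h P hP
    rw [Subgroup.mem_normalizer_iff] at h1 ⊢
    intro y
    exact h1 y

/-- the isomorphism -/
def isoE {σ : Set (Subgroup Γ)} (hG : ∀ P ∈ σ, P ≤ G) :
    ↥(chainStabilizer ((fun P : Subgroup Γ => P.subgroupOf G) '' σ)) ≃*
      ↥(G ⊓ chainStabilizer σ) where
  toFun x := ⟨x.1.1, x.1.2, (stab_sub hG x.1).1 x.2⟩
  invFun x := ⟨⟨x.1, x.2.1⟩, (stab_sub hG ⟨x.1, x.2.1⟩).2 x.2.2⟩
  left_inv _ := rfl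
  right_inv _ := rfl
  map_mul' _ _ := rfl

/-- the functional of a character -/
def mE (red : integralClosure ℤ ℂ →+* F) (G J : Subgroup Γ) (χ : ↥(G ⊓ J) → ℂ) (f : G → F) : F :=
  centralValue red χ (fun x => f ⟨x, x.2.1⟩)

/-- `bl(χ)^G` is defined -/
theorem blkE [Fact p.Prime] [IsAlgClosed F] [CharP F p] (red : integralClosure ℤ ℂ →+* F)
    {σ : Set (Subgroup Γ)} (hσ : IsPChain p σ) (hG : ∀ P ∈ σ, P ≤ G)
    {χ : ↥(G ⊓ chainStabilizer σ) → ℂ} (hχ : IsIrreducibleCharacter χ) :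
    IsBlock (mE red G (chainStabilizer σ) χ) := by
  have h1 := Pool.Agent.R615.KB.kblk p F red G _ (fun x => χ (isoE hG x))
    (chain_sub hσ hG) (irr_comp (isoE hG) hχ)
  refine block_congr h1 fun f hf => ?_
  have h2 := centralValue_comp red (isoE hG) χ (irr_class hχ)
    (fun x : ↥(G ⊓ chainStabilizer σ) => f ⟨x, x.2.1⟩) (fun a x => hf ⟨a, a.2.1⟩ ⟨x, x.2.1⟩)
  exact h2.symm

end Pool.Agent.R663.GA
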