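import Pool.Agent.R663.GA.Pow

/-!
# The number of orbits of characters with a given value of the reduced central character
-/

set_option autoImplicit false

open scoped Classical Pointwise Polynomial

noncomputable section

namespace Pool.Agent.R663.GA

open Pool.Agent.Y63.AWC (IsIrreducibleCharacter)
open Pool.Agent.Y63.NV
open Pool.Agent.Y930.NV (Cf ind mk_out Cf_out Cf_expand ind_out om om_sum om_int Tp Tp_eq irr_Cf
  R R_expand centralValue_eq redC_of ind_cast Cf_ind)
open Pool.Agent.Helper884.IC (Irr mem_Irr expand B_irr B IsIrrChar IsClass)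
open Pool.Agent.R663.KRB

/-- a group of permutations of `N` which contains the inner automorphisms and permutes the
irreducible characters -/
structure Adm (P : Type) [Group P] (N : Type) [Group N] [MulAction P N] : Prop where
  one : ∀ a : P, a • (1 : N) = 1
  inv : ∀ (a : P) (x : N), a • x⁻¹ = (a • x)⁻¹
  irr : ∀ (a : P) (χ : N → ℂ), IsIrreducibleCharacter χ → IsIrreducibleCharacter (fun x => χ (a • x))
  inner : ∀ g : N, ∃ a : P, ∀ x : N, a • x = g * x * g⁻¹

section

variable {P : Type} [Group P] {N : Type} [Group N] [Fintype N] [MulAction P N]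

/-- invariant functions -/
def If (P : Type) [Group P] {N : Type} [MulAction P N] {A : Type} (f : N → A) : Prop :=
  ∀ (a : P) (x : N), f (a • x) = f x

theorem If.cf {A : Type} (hP : Adm P N) {f : N → A} (hf : If P f) : Cf f := by
  intro g x
  obtain ⟨a, ha⟩ := hP.inner g
  rw [← ha, hf]

/-- the orbits -/
abbrev Or (P : Type) [Group P] (N : Type) [MulAction P N] : Type := MulAction.orbitRel.Quotient P N

/-- the orbit of an element -/
def mo (x : N) : Or P N := Quotient.mk'' x

instance : Fintype (Or P N) := Fintype.ofFinite _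

theorem mo_out (O : Or P N) : mo (P := P) O.out = O := Quotient.out_eq' O

theorem mo_smul (a : P) (x : N) : mo (P := P) (a • x) = mo x :=
  Quotient.sound' (MulAction.orbitRel_apply.2 ⟨a, rfl⟩)

theorem If_out {A : Type} {f : N → A} (hf : If P f) {x : N} {O : Or P N} (h : mo x = O) :
    f O.out = f x := by
  have h2 : mo (P := P) O.out = mo x := by rw [h, mo_out]
  have h3 := Quotient.exact' h2
  rw [MulAction.orbitRel_apply] at h3
  obtain ⟨a, ha⟩ := h3
  rw [← ha]
  exact hf a x

/-- the indicator function of an orbit -/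
def io (A : Type) [CommRing A] (O : Or P N) : N → A := fun x => if mo x = O then 1 else 0

theorem If_io (A : Type) [CommRing A] (O : Or P N) : If P (io A O) := by
  intro a x
  unfold io
  rw [mo_smul]

theorem If_expand {A : Type} [CommRing A] {f : N → A} (hf : If P f) (x : N) :
    f x = ∑ O : Or P N, f O.out * io A O x := by
  rw [Finset.sum_eq_single (mo x)]
  · rw [io, if_pos rfl, mul_one, If_out hf rfl]
  · intro O _ hO
    rw [io, if_neg (fun h => hO h.symm), mul_zero]
  · intro h
    exact absurd (Finset.mem_univ _) h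

theorem io_out (A : Type) [CommRing A] (O O' : Or P N) :
    io A O O'.out = if O' = O then 1 else 0 := by
  rw [io, mo_out]

theorem io_map {A A' : Type} [CommRing A] [CommRing A'] (φ : A →+* A') (O : Or P N) (x : N) :
    φ (io A O x) = io A' O x := by
  unfold io
  split_ifs <;> simp

theorem io_cast (O : Or P N) : (fun g => ((io ℤ O g : ℤ) : ℂ)) = io ℂ O := by
  funext g
  unfold io
  split_ifs <;> simp

/-- the matrix of the multiplication by an orbit sum -/
def sco (A : Type) [CommRing A] (E : Or P N) : Matrix (Or P N) (Or P N) A :=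
  fun C D => ∑ g : N, io A E g * io A D (g * C.out)

theorem sco_map {A A' : Type} [CommRing A] [CommRing A'] (φ : A →+* A') (E : Or P N) :
    (sco A E).map φ = sco A' E := by
  ext C D
  rw [Matrix.map_apply, sco, sco, map_sum]
  refine Finset.sum_congr rfl fun g _ => ?_
  rw [map_mul, io_map, io_map]

theorem sco_apply {A : Type} [CommRing A] (E : Or P N) {θ : N → A} (hθ : If P θ) (C : Or P N) :
    ∑ g : N, io A E g * θ (g * C.out) = ∑ D : Or P N, sco A E C D * θ D.out := by
  have h1 : ∀ g : N, io A E g * θ (g * C.out) =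
      ∑ D : Or P N, io A E g * io A D (g * C.out) * θ D.out := by
    intro g
    conv_lhs => rw [If_expand hθ (g * C.out), Finset.mul_sum]
    refine Finset.sum_congr rfl fun D _ => ?_
    ring
  simp_rw [h1]
  rw [Finset.sum_comm]
  refine Finset.sum_congr rfl fun D _ => ?_
  rw [sco, Finset.sum_mul]

/-! ### orbits of characters -/

/-- the irreducible characters -/
abbrev IrT (N : Type) [Group N] : Type := {χ : N → ℂ // IsIrreducibleCharacter χ}

instance : Fintype (IrT N) := by
  have : Finite (IrT N) := (Pool.Agent.Helper884.IC.irr_finite (G := N)).to_subtype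
  exact Fintype.ofFinite _

theorem sum_irT (f : (N → ℂ) → ℂ) : ∑ χ : IrT N, f χ.1 = ∑ χ ∈ Irr N, f χ := by
  symm
  exact Finset.sum_subtype (Irr N) (fun χ => mem_Irr) f

/-- the relation of being in the same orbit -/
def ro (hP : Adm P N) : Setoid (IrT N) where
  r χ ψ := ∃ a : P, ψ.1 = fun x => χ.1 (a • x)
  iseqv :=
    { refl := fun χ => ⟨1, by funext x; rw [one_smul]⟩
      symm := by
        rintro χ ψ ⟨a, ha⟩
        refine ⟨a⁻¹, ?_⟩
        funext x
        rw [ha]
        simp
      trans := by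
        rintro χ ψ φ ⟨a, ha⟩ ⟨b, hb⟩
        refine ⟨a * b, ?_⟩
        funext x
        rw [hb, ha, mul_smul] }

/-- the orbits of characters -/
abbrev Oc (hP : Adm P N) : Type := Quotient (ro hP)

instance (hP : Adm P N) : Fintype (Oc hP) := Fintype.ofFinite _

/-- the orbit of a character -/
def mc (hP : Adm P N) (χ : IrT N) : Oc hP := Quotient.mk (ro hP) χ

theorem mc_out (hP : Adm P N) (Q : Oc hP) : mc hP Q.out = Q := Quotient.out_eq Q

theorem sum_smul_eq {A : Type} [AddCommMonoid A] (a : P) (f : N → A) :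
    ∑ g : N, f (a • g) = ∑ g : N, f g := Equiv.sum_comp (MulAction.toPerm a) f

theorem B_inv (hP : Adm P N) {f : N → ℂ} (hf : If P f) (χ : N → ℂ) (a : P) :
    B f (fun x => χ (a • x)) = B f χ := by
  unfold B
  congr 1
  rw [← sum_smul_eq a (fun g => f g * χ g⁻¹)]
  refine Finset.sum_congr rfl fun g _ => ?_
  have e : (fun x => χ (a • x)) g⁻¹ = χ (a • g)⁻¹ := by
    show χ (a • g⁻¹) = _
    rw [hP.inv]
  rw [hf, e]

theorem om_inv (hP : Adm P N) {f : N → ℂ} (hf : If P f) (χ : N → ℂ) (a : P) :
    om (fun x => χ (a • x)) f = om χ f := by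
  unfold om
  have e : (fun x => χ (a • x)) 1 = χ 1 := by
    show χ (a • 1) = _
    rw [hP.one]
  rw [e]
  congr 1
  rw [← sum_smul_eq a (fun g => f g * χ g)]
  refine Finset.sum_congr rfl fun g _ => ?_
  rw [hf]

theorem B_mc (hP : Adm P N) {f : N → ℂ} (hf : If P f) (χ : IrT N) :
    B f (mc hP χ).out.1 = B f χ.1 := by
  have h1 : mc hP (mc hP χ).out = mc hP χ := mc_out hP _
  obtain ⟨a, ha⟩ : (ro hP).r (mc hP χ).out χ := Quotient.exact h1
  rw [ha, B_inv hP hf]

theorem om_mc (hP : Adm P N) {f : N → ℂ} (hf : If P f) (χ : IrT N) :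
    om χ.1 f = om (mc hP χ).out.1 f := by
  have h1 : mc hP (mc hP χ).out = mc hP χ := mc_out hP _
  obtain ⟨a, ha⟩ : (ro hP).r (mc hP χ).out χ := Quotient.exact h1
  rw [ha, om_inv hP hf]

/-- the orbit sums of characters -/
def sP (hP : Adm P N) (Q : Oc hP) : N → ℂ :=
  fun x => ∑ χ ∈ Finset.univ.filter (fun χ : IrT N => mc hP χ = Q), χ.1 x

/-- the permutation of the characters -/
def pe (hP : Adm P N) (a : P) : IrT N ≃ IrT N where
  toFun χ := ⟨fun x => χ.1 (a • x), hP.irr a χ.1 χ.2⟩
  invFun χ := ⟨fun x => χ.1 (a⁻¹ • x), hP.irr a⁻¹ χ.1 χ.2⟩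
  left_inv χ := by
    apply Subtype.ext
    funext x
    show χ.1 (a • a⁻¹ • x) = χ.1 x
    rw [smul_inv_smul]
  right_inv χ := by
    apply Subtype.ext
    funext x
    show χ.1 (a⁻¹ • a • x) = χ.1 x
    rw [inv_smul_smul]

theorem mc_pe (hP : Adm P N) (a : P) (χ : IrT N) : mc hP (pe hP a χ) = mc hP χ := by
  apply Quotient.sound
  exact (ro hP).symm ⟨a, rfl⟩

theorem If_sP (hP : Adm P N) (Q : Oc hP) : If P (sP hP Q) := by
  intro a x
  unfold sP
  rw [Finset.sum_filter, Finset.sum_filter]
  conv_rhs => rw [← Equiv.sum_comp (pe hP a)]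
  refine Finset.sum_congr rfl fun χ _ => ?_
  rw [mc_pe]
  rfl

/-- the table -/
def Xo (hP : Adm P N) : Matrix (Or P N) (Oc hP) ℂ := fun O Q => sP hP Q O.out

/-- the inverse of the table -/
def Yo (hP : Adm P N) : Matrix (Oc hP) (Or P N) ℂ := fun Q O => B (io ℂ O) Q.out.1

theorem XYo (hP : Adm P N) : Xo hP * Yo hP = 1 := by
  ext O O'
  rw [Matrix.mul_apply, Matrix.one_apply]
  have hcf : Cf (io ℂ O') := (If_io ℂ O').cf hP
  have h1 := congrFun (expand (io ℂ O') (fun g y => hcf y g)) O.out
  rw [io_out, Finset.sum_apply, ← sum_irT (fun χ => (B (io ℂ O') χ • χ) O.out)] at h1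
  rw [h1]
  have h2 : ∀ Q : Oc hP, Xo hP O Q * Yo hP Q O' =
      ∑ χ ∈ Finset.univ.filter (fun χ : IrT N => mc hP χ = Q), (B (io ℂ O') χ.1 • χ.1) O.out := by
    intro Q
    unfold Xo Yo sP
    rw [Finset.sum_mul]
    refine Finset.sum_congr rfl fun χ hχ => ?_
    rw [← (Finset.mem_filter.1 hχ).2, B_mc hP (If_io ℂ O'), Pi.smul_apply, smul_eq_mul, mul_comm]
  rw [Finset.sum_congr rfl fun Q _ => h2 Q]
  exact Finset.sum_fiberwise _ _ _

theorem YXo (hP : Adm P N) : Yo hP * Xo hP = 1 := by
  ext Q Q'
  rw [Matrix.mul_apply, Matrix.one_apply]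
  have h1 : sP hP Q' = ∑ O : Or P N, sP hP Q' O.out • io ℂ O := by
    funext x
    rw [Finset.sum_apply, If_expand (If_sP hP Q') x]
    rfl
  have h2 : B (sP hP Q') Q.out.1 = if Q = Q' then 1 else 0 := by
    have h3 : sP hP Q' = ∑ χ ∈ Finset.univ.filter (fun χ : IrT N => mc hP χ = Q'), χ.1 := by
      funext x
      rw [Finset.sum_apply]
      rfl
    rw [h3, Pool.Agent.Helper884.IC.B_sum_left]
    by_cases h : Q = Q'
    · subst h
      rw [if_pos rfl, Finset.sum_eq_single Q.out]
      · rw [B_irr Q.out.2 Q.out.2, if_pos rfl]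
      · intro χ _ hχ
        rw [B_irr χ.2 Q.out.2, if_neg (fun h => hχ (Subtype.ext h))]
      · intro h
        exact (h (Finset.mem_filter.2 ⟨Finset.mem_univ _, mc_out hP Q⟩)).elim
    · rw [if_neg h]
      refine Finset.sum_eq_zero fun χ hχ => ?_
      rw [B_irr χ.2 Q.out.2, if_neg]
      intro h4
      apply h
      have h5 : χ = Q.out := Subtype.ext h4
      rw [← (Finset.mem_filter.1 hχ).2, h5, mc_out]
  rw [← h2]
  conv_rhs => rw [h1, Pool.Agent.Helper884.IC.B_sum_left]
  refine Finset.sum_congr rfl fun O _ => ?_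
  rw [Pool.Agent.Helper884.IC.B_smul_left, mul_comm]
  rfl

theorem card_or_eq (hP : Adm P N) : Fintype.card (Or P N) = Fintype.card (Oc hP) :=
  Matrix.square_of_invertible _ _ (XYo hP) (YXo hP)

theorem sco_X (hP : Adm P N) (E : Or P N) :
    sco ℂ E * Xo hP = Xo hP * Matrix.diagonal (fun Q : Oc hP => om Q.out.1 (io ℂ E)) := by
  ext C Q
  rw [Matrix.mul_apply, Matrix.mul_diagonal]
  have h1 := sco_apply (A := ℂ) E (If_sP hP Q) C
  have h2 : ∑ g : N, io ℂ E g * sP hP Q (g * C.out) = om Q.out.1 (io ℂ E) * sP hP Q C.out := by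
    unfold sP
    simp only [Finset.mul_sum]
    rw [Finset.sum_comm]
    refine Finset.sum_congr rfl fun χ hχ => ?_
    rw [irr_eig χ.2 ((If_io ℂ E).cf hP), om_mc hP (If_io ℂ E) χ, (Finset.mem_filter.1 hχ).2]
  rw [h1] at h2
  rw [mul_comm]
  exact h2

/-- the matrix of the multiplication by a central element -/
def Mo {A : Type} [CommRing A] (t : Or P N → A) :
    Matrix (Or P N) (Or P N) A := ∑ E : Or P N, t E • sco A E

theorem Mo_map {A A' : Type} [CommRing A] [CommRing A'] (φ : A →+* A') (t : Or P N → A) :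
    (Mo t).map φ = Mo (fun E => φ (t E)) := by
  ext C D
  rw [Matrix.map_apply, Mo, Mo, Matrix.sum_apply, Matrix.sum_apply, map_sum]
  refine Finset.sum_congr rfl fun E _ => ?_
  rw [Matrix.smul_apply, Matrix.smul_apply, smul_eq_mul, smul_eq_mul, map_mul, ← sco_map φ E]
  rfl

theorem charpoly_oneo (hP : Adm P N) {A : Type} [CommRing A] [IsDomain A] (κ : ℂ →+* A)
    (t : Or P N → A) :
    (Mo t).charpoly = ∏ Q : Oc hP, (Polynomial.X -
      Polynomial.C (∑ E : Or P N, t E * κ (om Q.out.1 (io ℂ E)))) := by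
  set d : Oc hP → A := fun Q => ∑ E : Or P N, t E * κ (om Q.out.1 (io ℂ E)) with hd
  have h1 : (Xo hP).map κ * (Yo hP).map κ = 1 := by
    rw [← Matrix.map_mul, XYo, Matrix.map_one κ (map_zero κ) (map_one κ)]
  have h2 : (Yo hP).map κ * (Xo hP).map κ = 1 := by
    rw [← Matrix.map_mul, YXo, Matrix.map_one κ (map_zero κ) (map_one κ)]
  have h3 : Mo t * (Xo hP).map κ = (Xo hP).map κ * Matrix.diagonal d := by
    rw [Mo, Matrix.sum_mul]
    have h4 : ∀ E : Or P N, (t E • sco A E) * (Xo hP).map κ =
        (Xo hP).map κ * Matrix.diagonal (fun Q : Oc hP => t E * κ (om Q.out.1 (io ℂ E))) := by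
      intro E
      have h5 := congrArg (fun M : Matrix (Or P N) (Oc hP) ℂ => M.map κ) (sco_X hP E)
      simp only [Matrix.map_mul] at h5
      rw [sco_map κ E] at h5
      rw [Matrix.smul_mul, h5]
      ext C Q
      rw [Matrix.smul_apply, Matrix.diagonal_map (map_zero κ), Matrix.mul_diagonal,
        Matrix.mul_diagonal, smul_eq_mul]
      ring
    rw [Finset.sum_congr rfl fun E _ => h4 E, ← Matrix.mul_sum]
    congr 1
    ext Q Q'
    rw [Matrix.sum_apply]
    by_cases h : Q = Q'
    · subst h
      simp [hd]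
    · simp [Matrix.diagonal_apply_ne _ h]
  have h4 : Mo t = (Xo hP).map κ * (Matrix.diagonal d * (Yo hP).map κ) := by
    rw [← Matrix.mul_assoc, ← h3, Matrix.mul_assoc, h1, Matrix.mul_one]
  have h5 := Matrix.charpoly_mul_comm' ((Xo hP).map κ) (Matrix.diagonal d * (Yo hP).map κ)
  rw [← h4, Matrix.mul_assoc, h2, Matrix.mul_one, card_or_eq hP] at h5
  have h6 := mul_left_cancel₀ (pow_ne_zero _ Polynomial.X_ne_zero) h5
  rw [h6, Matrix.charpoly_diagonal]

theorem Cf_io (hP : Adm P N) (E : Or P N) : Cf (io ℤ E) := (If_io ℤ E).cf hP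

/-- the value of the central character as an algebraic integer -/
def omO (hP : Adm P N) (Q : Oc hP) (E : Or P N) : integralClosure ℤ ℂ :=
  ⟨om Q.out.1 (fun g => ((io ℤ E g : ℤ) : ℂ)), om_int Q.out.2 (Cf_io hP E)⟩

theorem iota_omO (hP : Adm P N) (Q : Oc hP) (E : Or P N) :
    algebraMap (integralClosure ℤ ℂ) ℂ (omO hP Q E) = om Q.out.1 (io ℂ E) := by
  rw [← io_cast]
  rfl

theorem term_twoo (hP : Adm P N) (Q : Oc hP) :
    MvPolynomial.map (algebraMap (integralClosure ℤ ℂ) ℂ)
      (∑ E : Or P N, MvPolynomial.X E * MvPolynomial.C (omO hP Q E)) =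
    ∑ E : Or P N, MvPolynomial.X E * MvPolynomial.C (om Q.out.1 (io ℂ E)) := by
  rw [map_sum]
  refine Finset.sum_congr rfl fun E _ => ?_
  rw [map_mul, MvPolynomial.map_X, MvPolynomial.map_C, iota_omO]

theorem charpoly_twoo (hP : Adm P N) :
    (Mo (P := P) (N := N) (A := MvPolynomial (Or P N) (integralClosure ℤ ℂ))
      (fun E => MvPolynomial.X E)).charpoly =
    ∏ Q : Oc hP, (Polynomial.X -
      Polynomial.C (∑ E : Or P N, MvPolynomial.X E * MvPolynomial.C (omO hP Q E))) := by
  apply Polynomial.map_injective _ (MvPolynomial.map_injective _ iota_inj)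
  rw [← Matrix.charpoly_map, Mo_map, Polynomial.map_prod]
  have h0 : ∀ E : Or P N, MvPolynomial.map (algebraMap (integralClosure ℤ ℂ) ℂ)
      (MvPolynomial.X E) = MvPolynomial.X E := fun E => MvPolynomial.map_X _ _
  have h1 : (fun E : Or P N => MvPolynomial.map (algebraMap (integralClosure ℤ ℂ) ℂ)
      (MvPolynomial.X E)) = fun E => MvPolynomial.X E := funext h0
  rw [h1, charpoly_oneo hP MvPolynomial.C]
  refine Finset.prod_congr rfl fun Q _ => ?_
  rw [Polynomial.map_sub, Polynomial.map_X, Polynomial.map_C, term_twoo]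

variable {F : Type} [Field F]

theorem centralValue_io (hP : Adm P N) (red : integralClosure ℤ ℂ →+* F) {χ : N → ℂ}
    (h : IsIrreducibleCharacter χ) {f : N → F} (hf : If P f) :
    centralValue red χ f = ∑ E : Or P N, f E.out * R red χ (io ℤ E) := by
  rw [centralValue_eq red h]
  have h1 : ∀ E : Or P N, f E.out * R red χ (io ℤ E) =
      ∑ C : ConjClasses N, f E.out * (((io ℤ E C.out : ℤ) : F) * R red χ (ind ℤ C)) := by
    intro E
    rw [R_expand red h (Cf_io hP E), Finset.mul_sum]
    exact Finset.sum_congr (Finset.ext fun _ => by simp) fun _ _ => rfl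
  rw [Finset.sum_congr rfl fun E _ => h1 E, Finset.sum_comm]
  refine Finset.sum_congr (Finset.ext fun _ => by simp) fun C _ => ?_
  have h2 : f C.out = ∑ E : Or P N, f E.out * io F E C.out := If_expand hf C.out
  rw [h2, Finset.sum_mul]
  refine Finset.sum_congr rfl fun E _ => ?_
  have h3 : ((io ℤ E C.out : ℤ) : F) = io F E C.out := io_map (Int.castRingHom F) E C.out
  rw [h3, mul_assoc]

theorem charpoly_threeo (hP : Adm P N) (red : integralClosure ℤ ℂ →+* F) {f : N → F}
    (hf : If P f) :
    (Mo (P := P) (N := N) (fun E => f E.out)).charpoly =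
    ∏ Q : Oc hP, (Polynomial.X - Polynomial.C (centralValue red Q.out.1 f)) := by
  have h1 := congrArg (Polynomial.map
    (MvPolynomial.eval₂Hom red (fun E : Or P N => f E.out))) (charpoly_twoo hP)
  rw [← Matrix.charpoly_map, Mo_map, Polynomial.map_prod] at h1
  simp only [MvPolynomial.coe_eval₂Hom, MvPolynomial.eval₂_X] at h1
  rw [h1]
  refine Finset.prod_congr rfl fun Q _ => ?_
  rw [Polynomial.map_sub, Polynomial.map_X, Polynomial.map_C, map_sum,
    centralValue_io hP red Q.out.2 hf]
  refine congrArg (fun y : F => (Polynomial.X : F[X]) - Polynomial.C y)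
    (Finset.sum_congr rfl fun E _ => ?_)
  rw [map_mul, MvPolynomial.coe_eval₂Hom, MvPolynomial.eval₂_X, MvPolynomial.eval₂_C]
  congr 1
  rw [R, redC_of red (om_int Q.out.2 (Cf_io hP E))]
  rfl

/-- the number of orbits of characters with a given value of the reduced central character is the
multiplicity of an eigenvalue -/
theorem kdim_orb (hP : Adm P N) (red : integralClosure ℤ ℂ →+* F)
    {E : Type} [AddCommGroup E] [Module F E] (T : Module.End F E) (V : Submodule F E)
    (π : E →ₗ[F] (N → F)) (f : N → F) (hf : If P f) (hT : ∀ v ∈ V, T v ∈ V)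
    (hcl : ∀ v ∈ V, If P (π v)) (hs : ∀ w : N → F, If P w → ∃ v ∈ V, π v = w)
    (hk : ∀ v ∈ V, π v = 0 → v = 0)
    (hc : ∀ v ∈ V, ∀ x : N, π (T v) x = ∑ g : N, f g * π v (g * x)) (c : F) :
    Module.finrank F ↥(V ⊓ T.maxGenEigenspace c) =
      Nat.card {Q : Oc hP // centralValue red Q.out.1 f = c} := by
  have hfin : Module.finrank F ↥(V ⊓ T.maxGenEigenspace c) =
      Module.finrank F ↥(Module.End.maxGenEigenspace (Matrix.toLin' (Mo (P := P) (N := N)
        (fun E => f E.out))) c) := by
    let ev : (N → F) →ₗ[F] (Or P N → F) :=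
      { toFun := fun θ C => θ C.out
        map_add' := fun _ _ => rfl
        map_smul' := fun _ _ => rfl }
    refine finrank_eq' T (Matrix.toLin' _) (ev ∘ₗ π) V hT ?_ ?_ ?_ c
    · intro w
      obtain ⟨v, hv, hv'⟩ := hs (fun x => w (mo x)) (by
        intro a x
        show w (mo (a • x)) = w (mo x)
        rw [mo_smul])
      refine ⟨v, hv, ?_⟩
      funext C
      show π v C.out = w C
      rw [hv']
      exact congrArg w (mo_out C)
    · intro v hv h0
      apply hk v hv
      funext x
      rw [← If_out (hcl v hv) (x := x) (O := mo x) rfl]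
      exact congrFun h0 (mo x)
    · intro v hv
      funext C
      show π (T v) C.out = _
      rw [hc v hv, Matrix.toLin'_apply]
      have h1 : ∀ h : N, f h * π v (h * C.out) =
          ∑ E : Or P N, f E.out * (io F E h * π v (h * C.out)) := by
        intro h
        conv_lhs => rw [If_expand hf h, Finset.sum_mul]
        refine Finset.sum_congr rfl fun E _ => ?_
        ring
      rw [Finset.sum_congr rfl fun h _ => h1 h, Finset.sum_comm]
      have h3 : ∀ E : Or P N, ∑ h : N, f E.out * (io F E h * π v (h * C.out)) =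
          ∑ D : Or P N, f E.out * (sco F E C D * π v D.out) := by
        intro E
        rw [← Finset.mul_sum, sco_apply E (hcl v hv) C, Finset.mul_sum]
      rw [Finset.sum_congr rfl fun E _ => h3 E, Finset.sum_comm]
      show _ = ∑ D : Or P N, Mo (fun E => f E.out) C D * π v D.out
      refine Finset.sum_congr rfl fun D _ => ?_
      rw [Mo, Matrix.sum_apply, Finset.sum_mul]
      refine Finset.sum_congr rfl fun E _ => ?_
      rw [Matrix.smul_apply, smul_eq_mul, mul_assoc]
  rw [hfin, LinearMap.finrank_maxGenEigenspace_eq, Matrix.charpoly_toLin',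
    charpoly_threeo hP red hf, ← Polynomial.count_roots]
  have h1 : (∏ Q : Oc hP, (Polynomial.X - Polynomial.C (centralValue red Q.out.1 f))).roots =
      (Finset.univ : Finset (Oc hP)).val.map (fun Q => centralValue red Q.out.1 f) := by
    rw [← Polynomial.roots_multiset_prod_X_sub_C ((Finset.univ :
      Finset (Oc hP)).val.map (fun Q => centralValue red Q.out.1 f)), Multiset.map_map]
    rfl
  rw [h1, Multiset.count_map]
  have h2 : Multiset.card (Multiset.filter (fun Q : Oc hP =>
      c = centralValue red Q.out.1 f) Finset.univ.val) =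
      (Finset.univ.filter (fun Q : Oc hP => c = centralValue red Q.out.1 f)).card := rfl
  rw [h2, ← Fintype.card_subtype, ← Nat.card_eq_fintype_card]
  exact Nat.card_congr (Equiv.subtypeEquivRight fun Q => eq_comm)

end

end Pool.Agent.R663.GA
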