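import Pool.Agent.R663.GA.FiltaT
import Pool.Agent.R663.GA.Orb
import Pool.Agent.Y171.NV.Kfin

/-!
# Orbits of characters of the stabilisers, and fixed characters
-/

set_option autoImplicit false
set_option linter.unusedSectionVars false

open scoped Classical Pointwise

noncomputable section

namespace Pool.Agent.R663.GA

open Pool.Agent.Y63.AWC (IsIrreducibleCharacter irr_comp)
open Pool.Agent.Y63.NV
open Pool.Agent.Y930.NV (Cf R om)
open Pool.Agent.R663.KRB

variable {F : Type} [Field F] {Γ : Type} [Group Γ] [Finite Γ]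
variable {G : Subgroup Γ} [hG : G.Normal] {T : Subgroup (Γ × Ex G)}

section gen

variable {P : Type} [Group P] {N : Type} [Group N] [Fintype N] [MulAction P N]

theorem cv_inv (hP : Adm P N) (red : integralClosure ℤ ℂ →+* F) {χ : N → ℂ}
    (h : IsIrreducibleCharacter χ) {f : N → F} (hf : If P f) (a : P) :
    centralValue red (fun x => χ (a • x)) f = centralValue red χ f := by
  rw [centralValue_io hP red (hP.irr a χ h) hf, centralValue_io hP red h hf]
  refine Finset.sum_congr rfl fun E _ => ?_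
  congr 1
  unfold R
  congr 1
  rw [io_cast]
  exact om_inv hP (If_io ℂ E) χ a

/-- the characters with a given value -/
abbrev XC (red : integralClosure ℤ ℂ →+* F) (f : N → F) (c : F) : Type :=
  {χ : N → ℂ // IsIrreducibleCharacter χ ∧ centralValue red χ f = c}

/-- the action on these characters -/
@[reducible] def actX (hP : Adm P N) (red : integralClosure ℤ ℂ →+* F) {f : N → F} (hf : If P f)
    (c : F) : MulAction P (XC red f c) where
  smul a χ := ⟨fun x => χ.1 (a⁻¹ • x), hP.irr _ _ χ.2.1, by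
    rw [cv_inv hP red χ.2.1 hf]
    exact χ.2.2⟩
  one_smul χ := Subtype.ext (by
    funext x
    show χ.1 ((1 : P)⁻¹ • x) = χ.1 x
    rw [inv_one, one_smul])
  mul_smul a b χ := Subtype.ext (by
    funext x
    show χ.1 ((a * b)⁻¹ • x) = χ.1 (b⁻¹ • a⁻¹ • x)
    rw [mul_inv_rev, mul_smul])

theorem burn_gen [Finite P] (hP : Adm P N) (red : integralClosure ℤ ℂ →+* F) {f : N → F}
    (hf : If P f) (c : F) :
    Nat.card P * Nat.card {Q : Oc hP // centralValue red Q.out.1 f = c} =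
      ∑ᶠ a : P, Nat.card {χ : N → ℂ // (IsIrreducibleCharacter χ ∧ centralValue red χ f = c) ∧
        ∀ x, χ (a • x) = χ x} := by
  let _ := actX hP red hf c
  have : Fintype P := Fintype.ofFinite P
  have hfinI : Finite (IrT N) := inferInstance
  have hfX : Finite (XC red f c) := Finite.of_injective
    (fun χ : XC red f c => (⟨χ.1, χ.2.1⟩ : IrT N))
    (fun a b h => Subtype.ext (congrArg (fun t => t.1) h))
  have : Fintype (XC red f c) := Fintype.ofFinite _
  have hfq : Fintype (Quotient (MulAction.orbitRel P (XC red f c))) := Fintype.ofFinite _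
  have h1 := MulAction.sum_card_fixedBy_eq_card_orbits_mul_card_group P (XC red f c)
  have e1 : Fintype.card (Quotient (MulAction.orbitRel P (XC red f c))) =
      Nat.card {Q : Oc hP // centralValue red Q.out.1 f = c} := by
    rw [← Nat.card_eq_fintype_card]
    let φ : Quotient (MulAction.orbitRel P (XC red f c)) → {Q : Oc hP // centralValue red Q.out.1 f = c} :=
      Quotient.lift (fun χ => ⟨mc hP ⟨χ.1, χ.2.1⟩, by
        have h1 : mc hP (mc hP ⟨χ.1, χ.2.1⟩).out = mc hP ⟨χ.1, χ.2.1⟩ := mc_out hP _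
        obtain ⟨a, ha⟩ : (ro hP).r (mc hP ⟨χ.1, χ.2.1⟩).out ⟨χ.1, χ.2.1⟩ := Quotient.exact h1
        have h2 : χ.1 = fun x => (mc hP ⟨χ.1, χ.2.1⟩).out.1 (a • x) := ha
        have h3 := cv_inv hP red (mc hP ⟨χ.1, χ.2.1⟩).out.2 hf a
        rw [← h2] at h3
        rw [← h3]
        exact χ.2.2⟩) (by
        intro χ ψ h
        obtain ⟨a, ha⟩ : ∃ a : P, a • ψ = χ := (MulAction.orbitRel_apply.1 h)
        apply Subtype.ext
        show mc hP ⟨χ.1, χ.2.1⟩ = mc hP ⟨ψ.1, ψ.2.1⟩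
        symm
        apply Quotient.sound
        refine ⟨a⁻¹, ?_⟩
        show χ.1 = fun x => ψ.1 (a⁻¹ • x)
        rw [← ha]
        rfl)
    refine Nat.card_congr (Equiv.ofBijective φ ⟨?_, ?_⟩)
    · intro q r
      refine Quotient.inductionOn₂ q r ?_
      intro χ ψ h
      have h1 : mc hP ⟨χ.1, χ.2.1⟩ = mc hP ⟨ψ.1, ψ.2.1⟩ := congrArg Subtype.val h
      obtain ⟨a, ha⟩ : (ro hP).r ⟨χ.1, χ.2.1⟩ ⟨ψ.1, ψ.2.1⟩ := Quotient.exact h1
      apply Quotient.sound
      refine MulAction.orbitRel_apply.2 ⟨a, ?_⟩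
      apply Subtype.ext
      funext x
      show ψ.1 (a⁻¹ • x) = χ.1 x
      have h2 : ψ.1 = fun x => χ.1 (a • x) := ha
      rw [h2]
      show χ.1 (a • a⁻¹ • x) = χ.1 x
      rw [smul_inv_smul]
    · rintro ⟨Q, hQ⟩
      refine ⟨Quotient.mk _ ⟨Q.out.1, Q.out.2, hQ⟩, ?_⟩
      apply Subtype.ext
      exact mc_out hP Q
  rw [e1] at h1
  rw [mul_comm, Nat.card_eq_fintype_card (α := P), ← h1, finsum_eq_sum_of_fintype]
  refine Finset.sum_congr rfl fun a _ => ?_
  rw [← Nat.card_eq_fintype_card]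
  refine Nat.card_congr
    { toFun := fun χ => ⟨χ.1.1, χ.1.2, ?_⟩
      invFun := fun χ => ⟨⟨χ.1, χ.2.1⟩, ?_⟩
      left_inv := fun _ => rfl
      right_inv := fun _ => rfl }
  · intro x
    have h2 : a • χ.1 = χ.1 := χ.2
    have h3 := congrFun (congrArg Subtype.val h2) (a • x)
    have h4 : χ.1.1 (a⁻¹ • a • x) = χ.1.1 (a • x) := h3
    rw [inv_smul_smul] at h4
    exact h4.symm
  · show a • (⟨χ.1, χ.2.1⟩ : XC red f c) = ⟨χ.1, χ.2.1⟩
    apply Subtype.ext
    funext x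
    show χ.1 (a⁻¹ • x) = χ.1 x
    have h2 := χ.2.2 (a⁻¹ • x)
    rw [smul_inv_smul] at h2
    exact h2.symm

end gen

/-- the twisted action on `G ⊓ J` -/
@[reducible] def actN (T : Subgroup (Γ × Ex G)) (J : Subgroup Γ) :
    MulAction (TJ T J) ↥(G ⊓ J) where
  smul t x := ⟨tw t.1 x, (G ⊓ J).pow_mem
    ((conjN (J := J) (show t.1.1 ∈ J from t.2.2) (x : Γ)).2 x.2) _⟩
  one_smul x := Subtype.ext (tw_one x.2.1)
  mul_smul s t x := Subtype.ext (tw_mul s.1 t.1 x.2.1)

theorem adm (hT : ∀ g ∈ G, ((g, 1) : Γ × Ex G) ∈ T) (J : Subgroup Γ) :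
    @Adm (TJ T J) _ ↥(G ⊓ J) _ (actN T J) := by
  let _ := actN T J
  have : Fintype ↥(G ⊓ J) := Fintype.ofFinite _
  have hval : ∀ (t : TJ T J) (x : ↥(G ⊓ J)), ((t • x : ↥(G ⊓ J)) : Γ) = tw t.1 x :=
    fun _ _ => rfl
  refine ⟨?_, ?_, ?_, ?_⟩
  · intro t
    apply Subtype.ext
    rw [hval]
    unfold tw
    rw [Subgroup.coe_one, mul_one, mul_inv_cancel, one_pow]
  · intro t x
    apply Subtype.ext
    rw [hval, Subgroup.coe_inv, Subgroup.coe_inv, hval]
    unfold tw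
    rw [← inv_pow]
    congr 1
    group
  · intro t χ hχ
    set k := (t.1.2 : ZMod (Nat.card G)).val with hk
    have hkN : k.Coprime (Nat.card ↥(G ⊓ J)) :=
      Nat.Coprime.coprime_dvd_right (Subgroup.card_dvd_of_le inf_le_left) (ex_cop t.1.2)
    let e : ↥(G ⊓ J) ≃* ↥(G ⊓ J) :=
      { toFun := fun x => ⟨t.1.1 * x * t.1.1⁻¹,
          (conjN (J := J) (show t.1.1 ∈ J from t.2.2) (x : Γ)).2 x.2⟩
        invFun := fun x => ⟨t.1.1⁻¹ * x * t.1.1, by
          have h1 := (conjN (G := G) (J.inv_mem t.2.2) (x : Γ)).2 x.2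
          rwa [inv_inv] at h1⟩
        left_inv := fun x => Subtype.ext (by
          show t.1.1⁻¹ * (t.1.1 * x * t.1.1⁻¹) * t.1.1 = x
          group)
        right_inv := fun x => Subtype.ext (by
          show t.1.1 * (t.1.1⁻¹ * x * t.1.1) * t.1.1⁻¹ = x
          group)
        map_mul' := fun x y => Subtype.ext (by
          show t.1.1 * (x * y) * t.1.1⁻¹ = t.1.1 * x * t.1.1⁻¹ * (t.1.1 * y * t.1.1⁻¹)
          group) }
    have h1 := irr_comp e (irr_pow hχ hkN)
    exact h1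
  · intro g
    refine ⟨⟨(g, 1), hT g g.2.1, g.2.2⟩, fun x => ?_⟩
    apply Subtype.ext
    rw [hval]
    exact tw_pair_one x.2.1

/-- the number of characters with a given value fixed by a twisted conjugation -/
def FX (red : integralClosure ℤ ℂ →+* F) (G : Subgroup Γ) (J : Subgroup Γ) (z : Γ → F) (c : F)
    (t : Γ × Ex G) : ℕ :=
  Nat.card {χ : ↥(G ⊓ J) → ℂ // (IsIrreducibleCharacter χ ∧
    centralValue red χ (fun x => z x) = c) ∧ ∀ x y : ↥(G ⊓ J), (y : Γ) = tw t x → χ y = χ x}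

theorem burn (hT : ∀ g ∈ G, ((g, 1) : Γ × Ex G) ∈ T) (red : integralClosure ℤ ℂ →+* F)
    {J : Subgroup Γ} {z : Γ → F}
    (hz : z ∈ (VT T (G ⊓ J : Subgroup Γ) J : Submodule F (Γ → F))) (c : F) :
    mT T J * gT T z (G ⊓ J : Subgroup Γ) J c = ∑ᶠ t : TJ T J, FX red G J z c t.1 := by
  let _ := actN T J
  have hP := adm hT J
  have : Fintype ↥(G ⊓ J) := Fintype.ofFinite _
  have : Finite (Ex G) := by
    have : NeZero (Nat.card G) := ⟨Nat.card_pos.ne'⟩
    infer_instance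
  have hval : ∀ (t : TJ T J) (x : ↥(G ⊓ J)), ((t • x : ↥(G ⊓ J)) : Γ) = tw t.1 x :=
    fun _ _ => rfl
  have hf : If (TJ T J) (fun x : ↥(G ⊓ J) => z x) := by
    intro t x
    show z ((t • x : ↥(G ⊓ J)) : Γ) = z x
    rw [hval]
    exact hz.2 t.1 t.2.1 t.2.2 x x.2.1
  have hSt : ∀ t ∈ T, t.1 ∈ J → ∀ x ∈ ((G ⊓ J : Subgroup Γ) : Set Γ),
      tw t x ∈ ((G ⊓ J : Subgroup Γ) : Set Γ) := fun t _ hj x hx =>
    (G ⊓ J).pow_mem ((conjN hj x).2 hx) _
  have h1 : gT T z (G ⊓ J : Subgroup Γ) J c =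
      Nat.card {Q : Oc hP // centralValue red Q.out.1 (fun x : ↥(G ⊓ J) => z x) = c} := by
    refine kdim_orb hP red (Kop z (G ⊓ J : Subgroup Γ)) (VT T (G ⊓ J : Subgroup Γ) J)
      (resH (G ⊓ J)) (fun x => z x) hf ?_ ?_ ?_ ?_ ?_ c
    · intro θ hθ
      exact kop_tw hT hz (fun _ h => h.1) (fun _ h => h) hSt hθ
    · intro θ hθ t x
      exact hθ.2 t.1 t.2.1 t.2.2 x x.2.1
    · intro w hw
      refine ⟨fun x => if hx : x ∈ G ⊓ J then w ⟨x, hx⟩ else 0, ⟨?_, ?_⟩, ?_⟩
      · intro x hx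
        exact dif_neg hx
      · intro t ht hj x hxG
        by_cases hx : x ∈ G ⊓ J
        · have hx' : tw t x ∈ G ⊓ J := hSt t ht hj x hx
          simp only [hx, hx', dif_pos]
          exact hw ⟨t, ht, hj⟩ ⟨x, hx⟩
        · have hx' : tw t x ∉ G ⊓ J := fun h => hx ((tw_iff hSt ht hj hxG).1 h)
          simp only [hx, hx', dif_neg, not_false_iff]
      · funext x
        show (if hx : (x : Γ) ∈ G ⊓ J then w ⟨x, hx⟩ else 0) = w x
        rw [dif_pos x.2]
    · intro θ hθ h0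
      funext x
      by_cases hx : x ∈ G ⊓ J
      · exact congrFun h0 ⟨x, hx⟩
      · exact hθ.1 x hx
    · intro θ hθ x
      show Kfun z (G ⊓ J : Subgroup Γ) θ (x : Γ) =
        ∑ g : ↥(G ⊓ J), z g * θ ((g * x : ↥(G ⊓ J)) : Γ)
      unfold Kfun
      rw [if_pos (show (x : Γ) ∈ ((G ⊓ J : Subgroup Γ) : Set Γ) from x.2)]
      exact Kfun_sum (fun y hy => hz.1 y hy) x
  rw [h1, mT_eq, burn_gen hP red hf c]
  refine finsum_congr fun t => ?_
  unfold FX
  refine Nat.card_congr (Equiv.subtypeEquivRight fun χ => and_congr_right fun _ => ?_)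
  constructor
  · intro h x y hxy
    have h2 : y = t • x := Subtype.ext hxy
    rw [h2]
    exact h x
  · intro h x
    exact h x (t • x) rfl

end Pool.Agent.R663.GA
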