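import Pool.Agent.R663.GA.EqV

/-!
# The equivariant form: the theorems
-/

set_option autoImplicit false
set_option linter.unusedSectionVars false

open scoped Classical Pointwise

noncomputable section

namespace Pool.Agent.R663.GA

open Pool.Agent.Y63.AWC (IsIrreducibleCharacter irr_comp)
open Pool.Agent.Y63.NV
open Pool.Agent.Y63.KR
open Pool.Agent.Y930.NV (Cf irr_Cf)
open Pool.Agent.Y286.NV (centralValue_comp irr_class)
open Pool.Agent.R615.LV (IsLevelLE exists_power sigma_val prim_congr pow_congr' level_mono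
  irr_finite')

variable {F : Type} [Field F] {Γ : Type} [Group Γ] [Finite Γ] {G : Subgroup Γ} {p : ℕ}
variable [hG : G.Normal]

/-- stable under a coset -/
def StC (J : Subgroup Γ) (t : Γ × Ex G) (χ : ↥(G ⊓ J) → ℂ) : Prop :=
  ∃ g ∈ G1 G, (g * t).1 ∈ J ∧ FixT J (g * t) χ

theorem stable_iff {τ : ℂ ≃+* ℂ} {v : Ex G}
    (hv : ∀ z : ℂ, z ^ Nat.card G = 1 → τ.symm z = z ^ (v : ZMod (Nat.card G)).val)
    (J : Subgroup Γ) (e : Γ) {χ : ↥(G ⊓ J) → ℂ} (hχ : IsIrreducibleCharacter χ) :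
    StC J (e, v) χ ↔ StableUnder G J e τ χ := by
  constructor
  · rintro ⟨g, hg, h1, h2⟩
    have h3 : g * (e, v) = ((g * (e, v)).1, v) := by
      refine Prod.ext rfl ?_
      show g.2 * v = v
      rw [(mem_G1.1 hg).2, one_mul]
    refine ⟨(g * (e, v)).1, h1, ?_, ?_⟩
    · have h4 : (g * (e, v)).1 * e⁻¹ = g.1 := by
        show g.1 * e * e⁻¹ = g.1
        rw [mul_inv_cancel_right]
      rw [h4]
      exact (mem_G1.1 hg).1
    · rw [h3] at h2
      exact (FixT_iff hv h1 hχ).1 h2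
  · rintro ⟨a, ha, hae, h⟩
    have h3 : (((a * e⁻¹, 1) : Γ × Ex G) * (e, v)) = (a, v) := by
      refine Prod.ext ?_ (one_mul v)
      show a * e⁻¹ * e = a
      rw [inv_mul_cancel_right]
    refine ⟨(a * e⁻¹, 1), mem_G1.2 ⟨hae, rfl⟩, ?_, ?_⟩
    · rw [h3]
      exact ha
    · rw [h3]
      exact (FixT_iff hv ha hχ).2 h

/-- the number of stable characters as a count -/
theorem stE_eq (red : integralClosure ℤ ℂ →+* F) (J : Subgroup Γ) (B : (G → F) → F)
    (t : Γ × Ex G) : stE red G J B t = Nat.card {χ : ↥(G ⊓ J) → ℂ // IsIrreducibleCharacter χ ∧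
      Induces red G J B χ ∧ StC J t χ} := by
  unfold stE
  exact Nat.card_congr (Equiv.subtypeEquivRight fun χ => and_assoc)

theorem numInv_eq (red : integralClosure ℤ ℂ →+* F) (J : Subgroup Γ) (B : (G → F) → F)
    {τ : ℂ ≃+* ℂ} {v : Ex G}
    (hv : ∀ z : ℂ, z ^ Nat.card G = 1 → τ.symm z = z ^ (v : ZMod (Nat.card G)).val) (e : Γ) :
    numInv red G J B e τ = stE red G J B (e, v) := by
  rw [stE_eq]
  unfold numInv
  refine Nat.card_congr (Equiv.subtypeEquivRight fun χ => and_congr_right fun hχ =>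
    and_congr_right fun _ => ?_)
  exact (stable_iff hv J e hχ).symm

theorem sumE_pow [Fact p.Prime] [IsAlgClosed F] [CharP F p] (red : integralClosure ℤ ℂ →+* F)
    (B : (G → F) → F) (e : Γ) {v v' : Ex G}
    (h : (v : ZMod (Nat.card G)).val ≡ (v' : ZMod (Nat.card G)).val
      [MOD Nat.card G / p ^ (Nat.card G).factorization p]) [Fintype (CH p G)] :
    ∑ σ : CH p G, (-1 : ℤ) ^ σ.1.ncard * ((Nat.card ↥(G ⊓ chainStabilizer σ.1) : ℤ) *
      (stE red G (chainStabilizer σ.1) B (e, v) : ℤ)) =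
    ∑ σ : CH p G, (-1 : ℤ) ^ σ.1.ncard * ((Nat.card ↥(G ⊓ chainStabilizer σ.1) : ℤ) *
      (stE red G (chainStabilizer σ.1) B (e, v') : ℤ)) := by
  obtain ⟨ν, hν, hν2⟩ := exists_KQ p G
  have h1 : ∀ w : Ex G, ∑ σ : CH p G, (-1 : ℤ) ^ σ.1.ncard *
      ((Nat.card ↥(G ⊓ chainStabilizer σ.1) : ℤ) *
      (stE red G (chainStabilizer σ.1) B (e, w) : ℤ)) =
      ∑ σ : CH p G, (-1 : ℤ) ^ σ.1.ncard *
        (AC red (chainStabilizer σ.1) B (ph ν (e, w)) : ℤ) := by
    intro w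
    rw [← main2 hν red B]
    refine Finset.sum_congr rfl fun σ _ => ?_
    rw [AC_eq, Nat.cast_mul]
  rw [h1 v, h1 v']
  have e1 : ph ν ((e, v) : Γ × Ex G) = ph ν ((e, v') : Γ × Ex G) :=
    Prod.ext rfl (hν2 _ _ h)
  rw [e1]

theorem numInv_conj (red : integralClosure ℤ ℂ →+* F) (B : (G → F) → F) (e : Γ)
    (τ : ℂ ≃+* ℂ) {g : Γ} (hg : g ∈ G) (J : Subgroup Γ) :
    numInv red G (conjSub g J) B e τ = numInv red G J B e τ :=
  inv_conj red hG B hg J (fun K ψ => StableUnder G K e τ ψ) (stable_conj hG hg J e τ)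

/-- **The equivariant Galois form.** -/
theorem rel_congr [Fact p.Prime] [IsAlgClosed F] [CharP F p] (red : integralClosure ℤ ℂ →+* F)
    (B : (G → F) → F) (e : Γ) (σ σ' : ℂ ≃+* ℂ)
    (h : ∀ z : ℂ, z ^ (Nat.card G / p ^ (Nat.card G).factorization p) = 1 → σ z = σ' z) :
    relSum p G (fun J => (numInv red G J B e σ : ℤ)) =
      relSum p G (fun J => (numInv red G J B e σ' : ℤ)) := by
  have : Fintype (CH p G) := Fintype.ofFinite _
  have hpos : (Nat.card G : ℤ) ≠ 0 := by exact_mod_cast Nat.card_pos.ne'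
  refine mul_left_cancel₀ hpos ?_
  rw [rel_mul _ (fun g hg J => by rw [numInv_conj red B e σ hg]) hG,
    rel_mul _ (fun g hg J => by rw [numInv_conj red B e σ' hg]) hG]
  obtain ⟨v, hv⟩ := exists_exp σ.symm G
  obtain ⟨v', hv'⟩ := exists_exp σ'.symm G
  simp only [numInv_eq red _ B hv, numInv_eq red _ B hv']
  refine sumE_pow red B e ?_
  set m := Nat.card G / p ^ (Nat.card G).factorization p with hm
  have hmd : m ∣ Nat.card G := Nat.ordCompl_dvd _ _
  have hm0 : m ≠ 0 := fun h0 => (Nat.card_pos (α := G)).ne' (Nat.eq_zero_of_zero_dvd (h0 ▸ hmd))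
  have hζ := Complex.isPrimitiveRoot_exp m hm0
  have h2 : (Complex.exp (2 * Real.pi * Complex.I / m)) ^ Nat.card G = 1 := by
    obtain ⟨k, hk⟩ := hmd
    rw [hk, pow_mul, hζ.pow_eq_one, one_pow]
  have h3 : ∀ z : ℂ, z ^ m = 1 → σ.symm z = σ'.symm z := by
    intro z hz
    apply σ.injective
    rw [RingEquiv.apply_symm_apply, h _ (by rw [← map_pow, hz, map_one]),
      RingEquiv.apply_symm_apply]
  have h1 := h3 _ hζ.pow_eq_one
  rw [hv _ h2, hv' _ h2] at h1
  exact prim_congr hζ hm0 h1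

/-! ### Levels -/

theorem FixT_mul {J : Subgroup Γ} {s t : Γ × Ex G} (ht : t.1 ∈ J) {χ : ↥(G ⊓ J) → ℂ}
    (h1 : FixT J s χ) (h2 : FixT J t χ) : FixT J (s * t) χ := by
  intro x y hxy
  have hm1 : tw t x ∈ G ⊓ J := (G ⊓ J).pow_mem ((conjN ht x).2 x.2) _
  rw [tw_mul _ _ x.2.1] at hxy
  rw [h1 ⟨tw t x, hm1⟩ y hxy]
  exact h2 x ⟨tw t x, hm1⟩ rfl

theorem FixT_pow {J : Subgroup Γ} {t : Γ × Ex G} (ht : t.1 ∈ J) {χ : ↥(G ⊓ J) → ℂ}
    (h : FixT J t χ) (k : ℕ) : FixT J (t ^ k) χ := by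
  induction k with
  | zero =>
    intro x y hxy
    rw [pow_zero, tw_one x.2.1] at hxy
    rw [Subtype.ext hxy]
  | succ k ih =>
    rw [pow_succ]
    exact FixT_mul ht ih h

theorem FixT_one {J : Subgroup Γ} (w : Ex G) (χ : ↥(G ⊓ J) → ℂ) :
    FixT J (1, w) χ ↔ ∀ x, χ (x ^ (w : ZMod (Nat.card G)).val) = χ x := by
  have htw : ∀ x : Γ, tw ((1, w) : Γ × Ex G) x = x ^ (w : ZMod (Nat.card G)).val := by
    intro x
    show (1 * x * 1⁻¹) ^ (w : ZMod (Nat.card G)).val = _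
    rw [one_mul, inv_one, mul_one]
  constructor
  · intro h x
    exact h x (x ^ (w : ZMod (Nat.card G)).val) (htw x).symm
  · intro h x y hxy
    rw [htw] at hxy
    have h2 : y = x ^ (w : ZMod (Nat.card G)).val := Subtype.ext hxy
    rw [h2, h]

theorem StC_split {J : Subgroup Γ} {e : Γ} {w : Ex G} {n q : ℕ} (hn : e ^ n ∈ G)
    (hq : w ^ q = 1) (hnq : n.Coprime q) {χ : ↥(G ⊓ J) → ℂ} (hχ : IsIrreducibleCharacter χ) :
    StC J (e, w) χ ↔ StC J (e, 1) χ ∧ FixT J (1, w) χ := by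
  have hcongr : ∀ (b : Γ) (k : ℕ), b * e⁻¹ ∈ G → b ^ k * (e ^ k)⁻¹ ∈ G := by
    intro b k hb
    have h1 : (QuotientGroup.mk b : Γ ⧸ G) = QuotientGroup.mk e := by
      have h2 : (QuotientGroup.mk (b * e⁻¹) : Γ ⧸ G) = 1 := (QuotientGroup.eq_one_iff _).2 hb
      rw [QuotientGroup.mk_mul, QuotientGroup.mk_inv, mul_inv_eq_one] at h2
      exact h2
    rw [← QuotientGroup.eq_one_iff, QuotientGroup.mk_mul, QuotientGroup.mk_inv,
      QuotientGroup.mk_pow, QuotientGroup.mk_pow, h1, mul_inv_cancel]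
  constructor
  · rintro ⟨g, hg, h1, h2⟩
    have hg2 := mem_G1.1 hg
    set s : Γ × Ex G := g * (e, w) with hs
    have hs2 : s.2 = w := by
      show g.2 * w = w
      rw [hg2.2, one_mul]
    have hse : s.1 * e⁻¹ ∈ G := by
      have h4 : s.1 * e⁻¹ = g.1 := by
        show g.1 * e * e⁻¹ = g.1
        rw [mul_inv_cancel_right]
      rw [h4]
      exact hg2.1
    constructor
    · obtain ⟨k, hk1, hk2⟩ := Nat.chineseRemainder hnq 1 0
      have h3 := FixT_pow h1 h2 k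
      have h5 : (s ^ k).1 * e⁻¹ ∈ G := by
        rw [Prod.pow_fst]
        have h6 := hcongr s.1 k hse
        have h7 : e ^ k * e⁻¹ ∈ G := by
          have h8 : (QuotientGroup.mk (e ^ k) : Γ ⧸ G) = QuotientGroup.mk e := by
            rw [QuotientGroup.mk_pow]
            have h9 : (QuotientGroup.mk e : Γ ⧸ G) ^ n = 1 := by
              rw [← QuotientGroup.mk_pow]
              exact (QuotientGroup.eq_one_iff _).2 hn
            rw [pow_eq_pow_mod k h9, hk1, ← pow_eq_pow_mod 1 h9, pow_one]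
          rw [← QuotientGroup.eq_one_iff, QuotientGroup.mk_mul, QuotientGroup.mk_inv, h8,
            mul_inv_cancel]
        have h8 := G.mul_mem h6 h7
        have h9 : s.1 ^ k * (e ^ k)⁻¹ * (e ^ k * e⁻¹) = s.1 ^ k * e⁻¹ := by group
        rwa [h9] at h8
      have h6 : s ^ k = (((s ^ k).1 * e⁻¹, 1) : Γ × Ex G) * (e, 1) := by
        refine Prod.ext ?_ ?_
        · show (s ^ k).1 = (s ^ k).1 * e⁻¹ * e
          rw [inv_mul_cancel_right]
        · show (s ^ k).2 = 1 * 1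
          have h7 : k ≡ 0 [MOD q] := hk2
          rw [Prod.pow_snd, hs2, mul_one, pow_eq_pow_mod k hq, h7, ← pow_eq_pow_mod 0 hq,
            pow_zero]
      refine ⟨((s ^ k).1 * e⁻¹, 1), mem_G1.2 ⟨h5, rfl⟩, ?_, ?_⟩
      · rw [← h6, Prod.pow_fst]
        exact J.pow_mem h1 k
      · rw [← h6]
        exact h3
    · obtain ⟨k, hk1, hk2⟩ := Nat.chineseRemainder hnq 0 1
      have h3 := FixT_pow h1 h2 k
      have h5 : (s ^ k).1 ∈ G ⊓ J := by
        constructor
        · rw [Prod.pow_fst]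
          have h6 := hcongr s.1 k hse
          have h7 : e ^ k ∈ G := by
            obtain ⟨j, hj⟩ := (Nat.modEq_zero_iff_dvd).1 hk1
            rw [hj, pow_mul]
            exact G.pow_mem hn j
          have h8 := G.mul_mem h6 h7
          rwa [inv_mul_cancel_right] at h8
        · rw [Prod.pow_fst]
          exact J.pow_mem h1 k
      have h6 : s ^ k = (((s ^ k).1, 1) : Γ × Ex G) * (1, w) := by
        refine Prod.ext ?_ ?_
        · show (s ^ k).1 = (s ^ k).1 * 1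
          rw [mul_one]
        · show (s ^ k).2 = 1 * w
          have h7 : k ≡ 1 [MOD q] := hk2
          rw [Prod.pow_snd, hs2, one_mul, pow_eq_pow_mod k hq, h7, ← pow_eq_pow_mod 1 hq,
            pow_one]
      rw [h6] at h3
      exact (FixT_left (t := ((1, w) : Γ × Ex G)) J.one_mem h5 hχ).1 h3
  · rintro ⟨⟨g, hg, h1, h2⟩, h3⟩
    have h4 : ((1, w) : Γ × Ex G) * (g * (e, 1)) = g * (e, w) := by
      refine Prod.ext ?_ ?_
      · show 1 * (g.1 * e) = g.1 * e
        rw [one_mul]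
      · show w * (g.2 * 1) = g.2 * w
        rw [(mem_G1.1 hg).2, mul_one, mul_one, one_mul]
    refine ⟨g, hg, h1, ?_⟩
    rw [← h4]
    exact FixT_mul h1 h3 h2

end Pool.Agent.R663.GA
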