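import Pool.Agent.R663.GA.EqF

/-!
# The equivariant form: levels
-/

set_option autoImplicit false
set_option linter.unusedSectionVars false

open scoped Classical Pointwise

noncomputable section

namespace Pool.Agent.R663.GA

open Pool.Agent.Y63.AWC (IsIrreducibleCharacter irr_comp)
open Pool.Agent.Y63.NV
open Pool.Agent.Y63.KR
open Pool.Agent.R615.LV (IsLevelLE exists_power sigma_val prim_congr pow_congr' level_mono
  irr_finite')

theorem pow_tot {p : ℕ} [Fact p.Prime] {N t : ℕ} (hN0 : N ≠ 0) (ht : t.Coprime N)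
    (h1 : t ≡ 1 [MOD N / p ^ N.factorization p]) :
    t ^ ((p - 1) * p ^ N.factorization p) ≡ 1 [MOD N] := by
  have hp : p.Prime := Fact.out
  have hmv : p ^ N.factorization p * (N / p ^ N.factorization p) = N :=
    Nat.ordProj_mul_ordCompl_eq_self _ _
  have hpm : ¬ p ∣ N / p ^ N.factorization p := Nat.not_dvd_ordCompl hp hN0
  conv =>
    arg 1
    rw [← hmv]
  rw [← Nat.modEq_and_modEq_iff_modEq_mul (Nat.Coprime.pow_left _
    ((Nat.Prime.coprime_iff_not_dvd hp).2 hpm))]
  constructor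
  · have h2 : t.Coprime (p ^ N.factorization p) :=
      ht.coprime_dvd_right (Nat.ordProj_dvd N p)
    have h3 := Nat.ModEq.pow_totient h2
    obtain ⟨c, hc⟩ : Nat.totient (p ^ N.factorization p) ∣ (p - 1) * p ^ N.factorization p := by
      rcases Nat.eq_zero_or_pos (N.factorization p) with h0 | h0
      · rw [h0, pow_zero, Nat.totient_one]
        exact one_dvd _
      · rw [Nat.totient_prime_pow hp h0, mul_comm]
        exact mul_dvd_mul_left _ (pow_dvd_pow p (Nat.sub_le _ 1))
    rw [hc, pow_mul]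
    have h4 := h3.pow c
    rwa [one_pow] at h4
  · have h4 := h1.pow ((p - 1) * p ^ N.factorization p)
    rwa [one_pow] at h4

variable {F : Type} [Field F] {Γ : Type} [Group Γ] [Finite Γ] {G : Subgroup Γ} {p : ℕ}
variable [hG : G.Normal]

theorem numInvLE_conj (red : integralClosure ℤ ℂ →+* F) (B : (G → F) → F) (e : Γ) (a : ℕ)
    {g : Γ} (hg : g ∈ G) (J : Subgroup Γ) :
    numInvLE p a red G (conjSub g J) B e = numInvLE p a red G J B e :=
  inv_conj red hG B hg J
    (fun K ψ => StableUnder G K e (RingEquiv.refl ℂ) ψ ∧ IsLevelLE p a ψ)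
    (fun ψ => and_congr (stable_conj hG hg J e _ ψ) (level_iso (cI hG g J) a ψ))

theorem relLE [Fact p.Prime] [IsAlgClosed F] [CharP F p] (red : integralClosure ℤ ℂ →+* F)
    (B : (G → F) → F) (e : Γ) (a n : ℕ) (ha : p = 2 → 2 ≤ a) (hn : e ^ n ∈ G)
    (hnp : n.Coprime p) (hna : a = 0 → n.Coprime (p - 1)) :
    relSum p G (fun J => (numInvLE p a red G J B e : ℤ)) =
      relSum p G (fun J => (numInv red G J B e (RingEquiv.refl ℂ) : ℤ)) := by
  have : Fintype (CH p G) := Fintype.ofFinite _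
  have hpos : (Nat.card G : ℤ) ≠ 0 := by exact_mod_cast Nat.card_pos.ne'
  have hN0 : Nat.card G ≠ 0 := Nat.card_pos.ne'
  have : NeZero (Nat.card G) := ⟨hN0⟩
  refine mul_left_cancel₀ hpos ?_
  rw [rel_mul _ (fun g hg J => by rw [numInvLE_conj red B e a hg]) hG,
    rel_mul _ (fun g hg J => by rw [numInv_conj red B e _ hg]) hG]
  obtain ⟨t, ht, ht1, hb, hlev⟩ := level_iff (p := p) hN0 a ha
  -- the exponent
  obtain ⟨q, hq, hnq⟩ : ∃ q : ℕ, t ^ q ≡ 1 [MOD Nat.card G] ∧ n.Coprime q := by
    obtain ⟨b, hb⟩ := hb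
    rcases hb with hb | hb
    · exact ⟨p ^ b, hb, hnp.pow_right b⟩
    · exact ⟨_, pow_tot hN0 ht ht1, Nat.Coprime.mul_right (hna hb) (hnp.pow_right _)⟩
  obtain ⟨w, hw⟩ : ∃ w : Ex G, w = ZMod.unitOfCoprime t ht := ⟨_, rfl⟩
  have hwt : (w : ZMod (Nat.card G)).val ≡ t [MOD Nat.card G] := by
    rw [hw, ZMod.coe_unitOfCoprime, ZMod.val_natCast]
    exact Nat.mod_modEq _ _
  have hwq : w ^ q = 1 := by
    apply Units.ext
    rw [Units.val_pow_eq_pow_val, hw, ZMod.coe_unitOfCoprime, Units.val_one]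
    have h2 := (ZMod.natCast_eq_natCast_iff _ _ _).2 hq
    push_cast at h2
    exact h2
  have e1 : ∀ J : Subgroup Γ, numInvLE p a red G J B e = stE red G J B (e, w) := by
    intro J
    rw [stE_eq]
    unfold numInvLE
    refine Nat.card_congr (Equiv.subtypeEquivRight fun χ => and_congr_right fun hχ =>
      and_congr_right fun _ => ?_)
    rw [StC_split hn hwq hnq hχ, stable_iff (τ := RingEquiv.refl ℂ) (v := 1) ?_ J e hχ,
      FixT_one, hlev ↥(G ⊓ J) (Subgroup.card_dvd_of_le inf_le_left) χ hχ]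
    · refine and_congr_right fun _ => forall_congr' fun x => ?_
      have h3 : x ^ t = x ^ (w : ZMod (Nat.card G)).val := by
        rw [pow_eq_pow_iff_modEq]
        exact hwt.symm.of_dvd ((orderOf_dvd_natCard x).trans
          (Subgroup.card_dvd_of_le inf_le_left))
      rw [h3]
    · intro z hz
      have h4 : ((1 : Ex G) : ZMod (Nat.card G)).val ≡ 1 [MOD Nat.card G] := by
        rw [Units.val_one, ZMod.val_one_eq_one_mod]
        exact Nat.mod_modEq _ _
      rw [pow_congr' hz h4, pow_one]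
      rfl
  have e2 : ∀ J : Subgroup Γ, numInv red G J B e (RingEquiv.refl ℂ) =
      stE red G J B (e, 1) := by
    intro J
    refine numInv_eq red J B (fun z hz => ?_) e
    have h4 : ((1 : Ex G) : ZMod (Nat.card G)).val ≡ 1 [MOD Nat.card G] := by
      rw [Units.val_one, ZMod.val_one_eq_one_mod]
      exact Nat.mod_modEq _ _
    rw [pow_congr' hz h4, pow_one]
    rfl
  simp only [e1, e2]
  refine sumE_pow red B e ?_
  have h5 : Nat.card G / p ^ (Nat.card G).factorization p ∣ Nat.card G := Nat.ordCompl_dvd _ _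
  have h4 : ((1 : Ex G) : ZMod (Nat.card G)).val ≡ 1 [MOD Nat.card G] := by
    rw [Units.val_one, ZMod.val_one_eq_one_mod]
    exact Nat.mod_modEq _ _
  exact (hwt.of_dvd h5).trans (ht1.trans (h4.of_dvd h5).symm)

theorem numInvLevel_add [Fact p.Prime] (red : integralClosure ℤ ℂ →+* F) (B : (G → F) → F)
    (J : Subgroup Γ) (e : Γ) (a : ℕ) : (numInvLevel p a red G J B e : ℤ) =
      (numInvLE p a red G J B e : ℤ) - (numInvLE p (a - 1) red G J B e : ℤ) := by
  have hfin := irr_finite' (H := ↥(G ⊓ J))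
  have hfX : Finite {χ : ↥(G ⊓ J) → ℂ // IsIrreducibleCharacter χ ∧ Induces red G J B χ ∧
      StableUnder G J e (RingEquiv.refl ℂ) χ} :=
    Finite.of_injective (fun χ => (⟨χ.1, χ.2.1⟩ : {χ : ↥(G ⊓ J) → ℂ //
      IsIrreducibleCharacter χ}))
      (fun a b h => Subtype.ext (congrArg (fun t => t.1) h))
  have key : numInvLE p a red G J B e =
      numInvLevel p a red G J B e + numInvLE p (a - 1) red G J B e := by
    let X := {χ : ↥(G ⊓ J) → ℂ // IsIrreducibleCharacter χ ∧ Induces red G J B χ ∧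
      StableUnder G J e (RingEquiv.refl ℂ) χ}
    let P : X → Prop := fun χ => IsLevelLE p a χ.1
    let Q : X → Prop := fun χ => IsLevelLE p a χ.1 ∧ ¬ IsLevelLE p (a - 1) χ.1
    let R : X → Prop := fun χ => IsLevelLE p (a - 1) χ.1
    have e : ∀ S : (↥(G ⊓ J) → ℂ) → Prop, Nat.card {χ : ↥(G ⊓ J) → ℂ //
        IsIrreducibleCharacter χ ∧ Induces red G J B χ ∧
        StableUnder G J e (RingEquiv.refl ℂ) χ ∧ S χ} = Nat.card {χ : X // S χ.1} := by
      intro S
      exact Nat.card_congr
        { toFun := fun χ => ⟨⟨χ.1, χ.2.1, χ.2.2.1, χ.2.2.2.1⟩, χ.2.2.2.2⟩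
          invFun := fun χ => ⟨χ.1.1, χ.1.2.1, χ.1.2.2.1, χ.1.2.2.2, χ.2⟩
          left_inv := fun _ => rfl
          right_inv := fun _ => rfl }
    have eP : numInvLE p a red G J B _ = Nat.card {χ // P χ} := e _
    have eQ : numInvLevel p a red G J B _ = Nat.card {χ // Q χ} := e _
    have eR : numInvLE p (a - 1) red G J B _ = Nat.card {χ // R χ} := e _
    rw [eP, eQ, eR, ← Nat.card_sum]
    have h1 : ∀ c, P c ↔ (Q c ∨ R c) := by
      intro c
      constructor
      · intro h
        by_cases h2 : R c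
        · exact Or.inr h2
        · exact Or.inl ⟨h, h2⟩
      · rintro (h | h)
        · exact h.1
        · exact level_mono (Nat.sub_le a 1) h
    have h2 : Disjoint Q R := by
      rw [Pi.disjoint_iff]
      intro c
      rw [Prop.disjoint_iff]
      rintro ⟨h3, h4⟩
      exact h3.2 h4
    exact Nat.card_congr ((Equiv.subtypeEquivRight h1).trans (subtypeOrEquiv Q R h2))
  rw [key]
  push_cast
  ring

omit hG in
theorem relSum_sub (f g : Subgroup Γ → ℤ) :
    relSum p G (fun J => f J - g J) = relSum p G f - relSum p G g := by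
  unfold relSum
  have hfin : Finite (CH p G) := inferInstance
  have : Finite (Quotient (relSetoid p G)) := inferInstance
  have : Fintype (Quotient (relSetoid p G)) := Fintype.ofFinite _
  rw [finsum_eq_sum_of_fintype, finsum_eq_sum_of_fintype, finsum_eq_sum_of_fintype,
    ← Finset.sum_sub_distrib]
  refine Finset.sum_congr rfl fun c _ => ?_
  ring

theorem relLevel [Fact p.Prime] [IsAlgClosed F] [CharP F p] (red : integralClosure ℤ ℂ →+* F)
    (B : (G → F) → F) (e : Γ) (a n : ℕ) (_ : 1 ≤ a) (ha : p = 2 → 3 ≤ a) (hn : e ^ n ∈ G)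
    (hnp : n.Coprime p) (hna : a = 1 → n.Coprime (p - 1)) :
    relSum p G (fun J => (numInvLevel p a red G J B e : ℤ)) = 0 := by
  simp only [numInvLevel_add]
  rw [relSum_sub (fun J => (numInvLE p a red G J B e : ℤ))
    (fun J => (numInvLE p (a - 1) red G J B e : ℤ)),
    relLE red B e a n (fun h => by have := ha h; omega) hn hnp (fun h => by omega),
    relLE red B e (a - 1) n (fun h => by have := ha h; omega) hn hnp
      (fun h => hna (by omega)), sub_self]

end Pool.Agent.R663.GA
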