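import Pool.Agent.R663.GA.LevG

/-!
# The equivariant form: sums over classes of chains
-/

set_option autoImplicit false
set_option linter.unusedSectionVars false

open scoped Classical Pointwise

noncomputable section

namespace Pool.Agent.R663.GA

open Pool.Agent.Y63.AWC (IsIrreducibleCharacter irr_comp)
open Pool.Agent.Y63.NV
open Pool.Agent.Y63.KR
open Pool.Agent.Y286.NV (centralValue_comp irr_class)
open Pool.Agent.R615.LV (IsLevelLE exists_power sigma_val prim_congr pow_congr' level_mono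
  irr_finite')

section defs

/-- The chains of nontrivial `p`-subgroups of the subgroup `G` of `E`, up to conjugation by the
elements of `G`. -/
def relSetoid (p : ℕ) {E : Type} [Group E] (G : Subgroup E) :
    Setoid {σ : Set (Subgroup E) // IsPChain p σ ∧ ∀ P ∈ σ, P ≤ G} where
  r σ τ := ∃ g ∈ G, τ.1 = conjSub g '' σ.1
  iseqv :=
    { refl := fun σ => ⟨1, G.one_mem, by
        have : (conjSub (1 : E)) = id := funext conjSub_one
        rw [this, Set.image_id]⟩
      symm := by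
        rintro σ τ ⟨g, hg, h⟩
        refine ⟨g⁻¹, G.inv_mem hg, ?_⟩
        rw [h, ← Set.image_comp]
        have : conjSub g⁻¹ ∘ conjSub g = id := funext fun P => by
          rw [Function.comp_apply, ← conjSub_mul, inv_mul_cancel, conjSub_one, id]
        rw [this, Set.image_id]
      trans := by
        rintro σ τ υ ⟨g, hg, h⟩ ⟨g', hg', h'⟩
        refine ⟨g' * g, G.mul_mem hg' hg, ?_⟩
        rw [h', h, ← Set.image_comp]
        congr 1
        exact (funext fun P => conjSub_mul g' g P).symm }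

/-- The alternating sum `∑_σ (-1)^|σ| f(E_σ)` over representatives `σ` of the `G`-conjugacy classes
of chains of nontrivial `p`-subgroups of the subgroup `G` of `E`, the empty chain included; `E_σ` is
the stabiliser of `σ` in `E`. -/
def relSum (p : ℕ) {E : Type} [Group E] (G : Subgroup E) (f : Subgroup E → ℤ) : ℤ :=
  ∑ᶠ c : Quotient (relSetoid p G), (-1) ^ c.out.1.ncard * f (chainStabilizer c.out.1)

/-- For a subgroup `J` of `E` and a character `ψ` of `G ∩ J`: some element of `J` in the coset `Ge`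
maps `ψ` to its conjugate under the automorphism `τ` of the field of complex numbers. If `J = E_σ`
this means that the element `eG` of `E/G`, together with `τ`, fixes the `G`-class of
`(σ, ψ)`. -/
def StableUnder {E : Type} [Group E] (G J : Subgroup E) (e : E) (τ : ℂ ≃+* ℂ)
    (ψ : ↥(G ⊓ J) → ℂ) : Prop :=
  ∃ a ∈ J, a * e⁻¹ ∈ G ∧ ∀ x y : ↥(G ⊓ J), (y : E) = a * x * a⁻¹ → ψ y = τ (ψ x)

/-- `bl(ψ)^G = B` for an irreducible character `ψ` of `G ∩ J`. -/
def Induces {F : Type} [Field F] (red : integralClosure ℤ ℂ →+* F) {E : Type} [Group E]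
    (G J : Subgroup E) (B : (G → F) → F) (ψ : ↥(G ⊓ J) → ℂ) : Prop :=
  ∀ f : G → F, IsClassFun f → centralValue red ψ (fun x => f ⟨x, x.2.1⟩) = B f

/-- The number of `ψ ∈ Irr(G ∩ J)` with `bl(ψ)^G = B` stable under `(eG, τ)`. -/
def numInv {F : Type} [Field F] (red : integralClosure ℤ ℂ →+* F) {E : Type} [Group E]
    (G J : Subgroup E) (B : (G → F) → F) (e : E) (τ : ℂ ≃+* ℂ) : ℕ :=
  Nat.card {ψ : ↥(G ⊓ J) → ℂ // IsIrreducibleCharacter ψ ∧ Induces red G J B ψ ∧
    StableUnder G J e τ ψ}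

/-- The number of `ψ ∈ Irr(G ∩ J)` with `bl(ψ)^G = B` stable under `eG` of `p`-rationality level at
most `a`. -/
def numInvLE (p a : ℕ) {F : Type} [Field F] (red : integralClosure ℤ ℂ →+* F) {E : Type} [Group E]
    (G J : Subgroup E) (B : (G → F) → F) (e : E) : ℕ :=
  Nat.card {ψ : ↥(G ⊓ J) → ℂ // IsIrreducibleCharacter ψ ∧ Induces red G J B ψ ∧
    StableUnder G J e (RingEquiv.refl ℂ) ψ ∧ IsLevelLE p a ψ}

/-- The number of `ψ ∈ Irr(G ∩ J)` with `bl(ψ)^G = B` stable under `eG` of `p`-rationality level `a`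
(for `a ≥ 1`). -/
def numInvLevel (p a : ℕ) {F : Type} [Field F] (red : integralClosure ℤ ℂ →+* F) {E : Type}
    [Group E] (G J : Subgroup E) (B : (G → F) → F) (e : E) : ℕ :=
  Nat.card {ψ : ↥(G ⊓ J) → ℂ // IsIrreducibleCharacter ψ ∧ Induces red G J B ψ ∧
    StableUnder G J e (RingEquiv.refl ℂ) ψ ∧ IsLevelLE p a ψ ∧ ¬ IsLevelLE p (a - 1) ψ}

end defs

variable {F : Type} [Field F] {Γ : Type} [Group Γ] [Finite Γ] {G : Subgroup Γ} {p : ℕ}

/-- sums over classes as weighted sums -/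
theorem rel_mul (f : Subgroup Γ → ℤ) (hf : ∀ g ∈ G, ∀ J, f (conjSub g J) = f J)
    (hGn : G.Normal) [Fintype (CH p G)] :
    (Nat.card G : ℤ) * relSum p G f = ∑ σ : CH p G, (-1) ^ σ.1.ncard *
      ((Nat.card ↥(G ⊓ chainStabilizer σ.1) : ℤ) * f (chainStabilizer σ.1)) := by
  letI : MulAction G (CH p G) :=
    { smul := fun g σ => ⟨conjSub (g : Γ) '' σ.1, σ.2.1.conj g, by
        rintro _ ⟨P, hP, rfl⟩ x hx
        obtain ⟨y, hy, rfl⟩ := hx
        exact hGn.conj_mem y (σ.2.2 P hP hy) g⟩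
      one_smul := fun σ => by
        apply Subtype.ext
        change conjSub ((1 : G) : Γ) '' σ.1 = σ.1
        have : (conjSub ((1 : G) : Γ)) = id := funext conjSub_one
        rw [this, Set.image_id]
      mul_smul := fun g h σ => by
        apply Subtype.ext
        change conjSub (((g * h : G)) : Γ) '' σ.1 = conjSub (g : Γ) '' (conjSub (h : Γ) '' σ.1)
        rw [← Set.image_comp]
        congr 1
        exact funext fun P => conjSub_mul (g : Γ) (h : Γ) P }
  have hsm : ∀ (g : G) (σ : CH p G), (g • σ).1 = conjSub (g : Γ) '' σ.1 := fun _ _ => rfl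
  have h := orbit_sum (G := G) (relSetoid p G) (by
    intro σ τ
    change (∃ g ∈ G, τ.1 = conjSub g '' σ.1) ↔ _
    constructor
    · rintro ⟨g, hg, h⟩
      exact ⟨⟨g, hg⟩, Subtype.ext h.symm⟩
    · rintro ⟨g, h⟩
      exact ⟨g, g.2, (congrArg Subtype.val h).symm⟩)
    (fun σ => (-1) ^ σ.1.ncard * f (chainStabilizer σ.1)) (by
      rintro σ τ ⟨g, hg, h⟩
      show (-1) ^ σ.1.ncard * f (chainStabilizer σ.1) = (-1) ^ τ.1.ncard * f (chainStabilizer τ.1)
      rw [h, ncard_conj, chainStabilizer_conj, hf g hg])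
  unfold relSum
  rw [h]
  refine Finset.sum_congr rfl fun σ _ => ?_
  have hst : Nat.card (MulAction.stabilizer G σ) = Nat.card ↥(G ⊓ chainStabilizer σ.1) := by
    have key : ∀ g : G, g ∈ MulAction.stabilizer G σ ↔ (g : Γ) ∈ chainStabilizer σ.1 := by
      intro g
      rw [MulAction.mem_stabilizer_iff, Subtype.ext_iff, hsm, mem_chainStabilizer]
      constructor
      · intro h3 P hP
        have hgP : conjSub (g : Γ) P ∈ σ.1 := by
          rw [← h3]
          exact ⟨P, hP, rfl⟩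
        have hcard : Nat.card (conjSub (g : Γ) P) = Nat.card P :=
          Nat.card_congr (Subgroup.equivMapOfInjective _ _
            (MulAut.conj (g : Γ)).injective).toEquiv.symm
        rcases σ.2.1.chain.total hgP hP with h4 | h4
        · exact Subgroup.eq_of_le_of_card_ge h4 hcard.ge
        · exact (Subgroup.eq_of_le_of_card_ge h4 hcard.le).symm
      · intro h3
        ext P
        constructor
        · rintro ⟨Q, hQ, rfl⟩
          rw [h3 Q hQ]
          exact hQ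
        · intro hP
          exact ⟨P, hP, h3 P hP⟩
    exact Nat.card_congr
      { toFun := fun g => ⟨g.1, g.1.2, (key g.1).1 g.2⟩
        invFun := fun g => ⟨⟨g.1, g.2.1⟩, (key ⟨g.1, g.2.1⟩).2 g.2.2⟩
        left_inv := fun _ => rfl
        right_inv := fun _ => rfl }
  rw [hst]
  ring

/-- conjugation -/
def cI (hGn : G.Normal) (g : Γ) (J : Subgroup Γ) : ↥(G ⊓ J) ≃* ↥(G ⊓ conjSub g J) where
  toFun x := ⟨g * x * g⁻¹, hGn.conj_mem x x.2.1 g, ⟨x, x.2.2, rfl⟩⟩
  invFun x := ⟨g⁻¹ * x * g, by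
    have h := hGn.conj_mem x x.2.1 g⁻¹
    rwa [inv_inv] at h, by
    obtain ⟨y, hy, h⟩ := x.2.2
    have h1 : g * y * g⁻¹ = x := h
    rw [← h1]
    have h2 : g⁻¹ * (g * y * g⁻¹) * g = y := by group
    rw [h2]
    exact hy⟩
  left_inv x := Subtype.ext (by
    show g⁻¹ * (g * x * g⁻¹) * g = x
    group)
  right_inv x := Subtype.ext (by
    show g * (g⁻¹ * x * g) * g⁻¹ = x
    group)
  map_mul' x y := Subtype.ext (by
    show g * (x * y) * g⁻¹ = g * x * g⁻¹ * (g * y * g⁻¹)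
    group)

theorem inv_conj (red : integralClosure ℤ ℂ →+* F) (hGn : G.Normal) (B : (G → F) → F) {g : Γ}
    (hg : g ∈ G) (J : Subgroup Γ) (P : ∀ K : Subgroup Γ, (↥(G ⊓ K) → ℂ) → Prop)
    (hP : ∀ ψ : ↥(G ⊓ conjSub g J) → ℂ, P (conjSub g J) ψ ↔ P J (fun x => ψ (cI hGn g J x))) :
    Nat.card {ψ : ↥(G ⊓ conjSub g J) → ℂ // IsIrreducibleCharacter ψ ∧
      Induces red G (conjSub g J) B ψ ∧ P _ ψ} =
    Nat.card {ψ : ↥(G ⊓ J) → ℂ // IsIrreducibleCharacter ψ ∧ Induces red G J B ψ ∧ P _ ψ} := by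
  have hval : ∀ ψ : ↥(G ⊓ conjSub g J) → ℂ, IsIrreducibleCharacter ψ → ∀ f : G → F,
      IsClassFun f → centralValue red (fun x => ψ (cI hGn g J x))
        (fun x : ↥(G ⊓ J) => f ⟨x, x.2.1⟩) = centralValue red ψ (fun x => f ⟨x, x.2.1⟩) := by
    intro ψ hψ f hf
    have h1 := centralValue_comp red (cI hGn g J) ψ (irr_class hψ)
      (fun x => f ⟨x, x.2.1⟩) (fun a x => hf ⟨a, a.2.1⟩ ⟨x, x.2.1⟩)
    rw [← h1]
    congr 1
    funext x
    have h2 := hf ⟨g, hg⟩ ⟨x, x.2.1⟩
    rw [← h2]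
    rfl
  have hInd : ∀ ψ : ↥(G ⊓ conjSub g J) → ℂ, IsIrreducibleCharacter ψ →
      (Induces red G (conjSub g J) B ψ ↔ Induces red G J B (fun x => ψ (cI hGn g J x))) := by
    intro ψ hψ
    unfold Induces
    refine forall_congr' fun f => forall_congr' fun hf => ?_
    rw [hval ψ hψ f hf]
  refine Nat.card_congr
    { toFun := fun ψ => ⟨fun x => ψ.1 (cI hGn g J x), irr_comp (cI hGn g J) ψ.2.1,
        (hInd ψ.1 ψ.2.1).1 ψ.2.2.1, (hP ψ.1).1 ψ.2.2.2⟩
      invFun := fun χ => ⟨fun x => χ.1 ((cI hGn g J).symm x), irr_comp (cI hGn g J).symm χ.2.1,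
        ?_, ?_⟩
      left_inv := ?_
      right_inv := ?_ }
  · rw [hInd _ (irr_comp (cI hGn g J).symm χ.2.1)]
    have h2 : (fun x => (fun x => χ.1 ((cI hGn g J).symm x)) (cI hGn g J x)) = χ.1 := by
      funext x
      show χ.1 ((cI hGn g J).symm (cI hGn g J x)) = χ.1 x
      rw [MulEquiv.symm_apply_apply]
    rw [h2]
    exact χ.2.2.1
  · rw [hP]
    have h2 : (fun x => (fun x => χ.1 ((cI hGn g J).symm x)) (cI hGn g J x)) = χ.1 := by
      funext x
      show χ.1 ((cI hGn g J).symm (cI hGn g J x)) = χ.1 x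
      rw [MulEquiv.symm_apply_apply]
    rw [h2]
    exact χ.2.2.2
  · intro ψ
    apply Subtype.ext
    funext x
    show ψ.1 (cI hGn g J ((cI hGn g J).symm x)) = ψ.1 x
    rw [MulEquiv.apply_symm_apply]
  · intro χ
    apply Subtype.ext
    funext x
    show χ.1 ((cI hGn g J).symm (cI hGn g J x)) = χ.1 x
    rw [MulEquiv.symm_apply_apply]

theorem stable_conj (hGn : G.Normal) {g : Γ} (hg : g ∈ G) (J : Subgroup Γ) (e : Γ)
    (τ : ℂ ≃+* ℂ) (ψ : ↥(G ⊓ conjSub g J) → ℂ) :
    StableUnder G (conjSub g J) e τ ψ ↔ StableUnder G J e τ (fun x => ψ (cI hGn g J x)) := by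
  have hcI : ∀ x : ↥(G ⊓ J), ((cI hGn g J x : ↥(G ⊓ conjSub g J)) : Γ) = g * x * g⁻¹ :=
    fun _ => rfl
  constructor
  · rintro ⟨a, ⟨b, hb, hab⟩, hae, h⟩
    have hab' : g * b * g⁻¹ = a := hab
    refine ⟨b, hb, ?_, fun x y hxy => ?_⟩
    · have h1 : b * e⁻¹ = g⁻¹ * (a * e⁻¹) * (e * g * e⁻¹) := by
        rw [← hab']
        group
      rw [h1]
      exact G.mul_mem (G.mul_mem (G.inv_mem hg) hae) (hGn.conj_mem g hg e)
    · refine h (cI hGn g J x) (cI hGn g J y) ?_
      rw [hcI, hcI, hxy, ← hab']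
      group
  · rintro ⟨b, hb, hbe, h⟩
    refine ⟨g * b * g⁻¹, ⟨b, hb, rfl⟩, ?_, fun x y hxy => ?_⟩
    · have h1 : g * b * g⁻¹ * e⁻¹ = g * (b * e⁻¹) * (e * g⁻¹ * e⁻¹) := by group
      rw [h1]
      exact G.mul_mem (G.mul_mem hg hbe) (hGn.conj_mem _ (G.inv_mem hg) e)
    · obtain ⟨x', rfl⟩ := (cI hGn g J).surjective x
      obtain ⟨y', rfl⟩ := (cI hGn g J).surjective y
      refine h x' y' ?_
      rw [hcI, hcI] at hxy
      have h2 : (y' : Γ) = g⁻¹ * (g * y' * g⁻¹) * g := by group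
      rw [h2, hxy]
      group

theorem level_iso {K L : Type} [Group K] [Group L] (e : K ≃* L) (a : ℕ) (ψ : L → ℂ) :
    IsLevelLE p a ψ ↔ IsLevelLE p a (fun x => ψ (e x)) := by
  have hc : Nat.card K = Nat.card L := Nat.card_congr e.toEquiv
  unfold IsLevelLE
  rw [hc]
  refine forall_congr' fun σ => forall_congr' fun _ => ?_
  constructor
  · intro h x
    exact h (e x)
  · intro h x
    obtain ⟨y, rfl⟩ := e.surjective x
    exact h y

end Pool.Agent.R663.GA
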