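import Pool.Agent.R663.GA.FiltaT

/-!
# The filtration for operators with a power map
-/

set_option autoImplicit false
set_option linter.unusedSectionVars false

open scoped Classical Pointwise

noncomputable section

namespace Pool.Agent.R663.GA

open Pool.Agent.Y63.NV
open Pool.Agent.Y85.NV (cj mem_cj cj_one cj_mul cj_inv_cj cj_mono cj_le cj_pgroup cj_eq_map card_cj
  SYL exists_syl SYL.le_cent sum_zero rst rst_apply gen_eq)
open Pool.Agent.R663.KRB
open Pool.Agent.Y177.NV (finrank_eq res res_apply sum_conj_eq_zero)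

variable {F : Type} [Field F] {Γ : Type} [Group Γ] [Finite Γ]
variable {G : Subgroup Γ} [hG : G.Normal] {T : Subgroup (Γ × Ex G)} {m : ℕ}

theorem tw_pow (t : Γ × Ex G) (x : Γ) (k : ℕ) : (tw t x) ^ k = tw t (x ^ k) := by
  unfold tw
  rw [← conj_pow, ← pow_mul, ← pow_mul, mul_comm]

/-- the operator `(K θ)(x) = ∑_g z(g) θ((g x)^m)` for `x ∈ S`, and `0` outside `S` -/
def KM (m : ℕ) (z : Γ → F) (S : Set Γ) : Module.End F (Γ → F) :=
  (Kop z S).comp (LinearMap.funLeft F F (fun x : Γ => x ^ m))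

theorem km_apply (z : Γ → F) (S : Set Γ) (v : Γ → F) (x : Γ) :
    KM m z S v x = if x ∈ S then ∑ᶠ g : Γ, z g * v ((g * x) ^ m) else 0 := rfl

theorem km_tw (hT : ∀ g ∈ G, ((g, 1) : Γ × Ex G) ∈ T) {J : Subgroup Γ} {z θ : Γ → F}
    (hz : z ∈ (VT T (G ⊓ J : Subgroup Γ) J : Submodule F (Γ → F))) {S S' : Set Γ}
    (_ : S' ⊆ G) (hSN : S ⊆ (G ⊓ J : Subgroup Γ))
    (hS : ∀ t ∈ T, t.1 ∈ J → ∀ x ∈ S, tw t x ∈ S)
    (hθ : θ ∈ (VT T S' J : Submodule F (Γ → F))) :
    KM m z S θ ∈ (VT T S J : Submodule F (Γ → F)) := by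
  let θ' : Γ → F := fun x => if x ∈ G then θ (x ^ m) else 0
  have h1 : θ' ∈ (VT T (G : Set Γ) J : Submodule F (Γ → F)) := by
    refine ⟨fun x hx => if_neg hx, fun t ht hj x hx => ?_⟩
    show (if tw t x ∈ G then θ ((tw t x) ^ m) else 0) = if x ∈ G then θ (x ^ m) else 0
    rw [if_pos hx, if_pos (tw_mem t hx), tw_pow, hθ.2 t ht hj _ (G.pow_mem hx m)]
  have h2 : KM m z S θ = Kop z S θ' := by
    funext x
    rw [km_apply, kop_apply]
    by_cases hx : x ∈ S
    · rw [if_pos hx, if_pos hx]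
      refine finsum_congr fun g => ?_
      by_cases hg : g ∈ G ⊓ J
      · show z g * θ ((g * x) ^ m) = z g * (if g * x ∈ G then θ ((g * x) ^ m) else 0)
        rw [if_pos (G.mul_mem hg.1 (hSN hx).1)]
      · rw [hz.1 g hg, zero_mul, zero_mul]
    · rw [if_neg hx, if_neg hx]
  rw [h2]
  exact kop_tw hT hz (fun _ h => h) hSN hS h1

/-- the multiplicity of an eigenvalue on the twisted invariants -/
def gM (T : Subgroup (Γ × Ex G)) (m : ℕ) (z : Γ → F) (S : Set Γ) (J : Subgroup Γ) (c : F) : ℕ :=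
  Module.finrank F ↥(VT T S J ⊓ (KM m z S).maxGenEigenspace c)

/-- the elements of `SXA p H X` fixed by the power map -/
def SXM (p m : ℕ) (H : Subgroup Γ) (X : Set (Subgroup Γ)) : Set Γ :=
  {x | x ∈ SXA p H X ∧ x ^ m = x}

theorem SXM_mono {p : ℕ} {H : Subgroup Γ} {X Y : Set (Subgroup Γ)} (h : X ⊆ Y) :
    SXM p m H X ⊆ SXM p m H Y := fun _ hx => ⟨SXA_mono h hx.1, hx.2⟩

theorem SXM_union {p : ℕ} {H : Subgroup Γ} (X Y : Set (Subgroup Γ)) :
    SXM p m H (X ∪ Y) = SXM p m H X ∪ SXM p m H Y := by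
  ext x
  show (x ∈ SXA p H (X ∪ Y) ∧ x ^ m = x) ↔ ((x ∈ SXA p H X ∧ x ^ m = x) ∨ (x ∈ SXA p H Y ∧ x ^ m = x))
  rw [SXA_union]
  show ((x ∈ SXA p H X ∨ x ∈ SXA p H Y) ∧ x ^ m = x) ↔ _
  tauto

theorem SXM_tw {p : ℕ} {J : Subgroup Γ} {X : Set (Subgroup Γ)} (hX : StT T J X) {t : Γ × Ex G}
    (ht : t ∈ T) (hj : t.1 ∈ J) {x : Γ} (hx : x ∈ SXM p m (G ⊓ J) X) : tw t x ∈ SXM p m (G ⊓ J) X := by
  exact ⟨SXA_tw hX ht hj hx.1, by rw [tw_pow, hx.2]⟩

theorem SXM_le {p : ℕ} {J : Subgroup Γ} {X : Set (Subgroup Γ)} :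
    SXM p m (G ⊓ J) X ⊆ (G ⊓ J : Subgroup Γ) := fun _ hx => hx.1.1

theorem SXM_leG {p : ℕ} {J : Subgroup Γ} {X : Set (Subgroup Γ)} :
    SXM p m (G ⊓ J) X ⊆ G := fun _ hx => hx.1.1.1

theorem SXM_disjT {p : ℕ} [Fact p.Prime] (hT : ∀ g ∈ G, ((g, 1) : Γ × Ex G) ∈ T) {J : Subgroup Γ}
    {X Y : Set (Subgroup Γ)} (hX : StT T J X) (hd : ∀ R ∈ X, R ∉ Y) {x : Γ}
    (hx : x ∈ SXM p m (G ⊓ J) X) : x ∉ SXM p m (G ⊓ J) Y :=
  fun h => SXA_disjT hT hX hd hx.1 h.1

/-- The key lemma. -/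
theorem keyM {p : ℕ} [Fact p.Prime] [CharP F p] (hT : ∀ g ∈ G, ((g, 1) : Γ × Ex G) ∈ T)
    {J : Subgroup Γ} {z : Γ → F}
    (hz : z ∈ (VT T (G ⊓ J : Subgroup Γ) J : Submodule F (Γ → F)))
    {X Y : Set (Subgroup Γ)} (hX : StT T J X)
    (hup : ∀ R ∈ Y, ∀ P ∈ X, R ≤ P → P ∈ Y) {w : Γ → F}
    (hw : w ∈ (VT T (SXM p m (G ⊓ J) X \ SXM p m (G ⊓ J) Y) J : Submodule F (Γ → F))) {x : Γ}
    (hx : x ∈ SXM p m (G ⊓ J) Y) :
    ∑ᶠ g : Γ, z g * w ((g * x) ^ m) = 0 := by
  obtain ⟨⟨_, R, hR, hs⟩, _⟩ := hx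
  have hzc := fun n hn => VT_conj hT (fun _ h => h.1) hz (n := n) (hs.le hn).1 (hs.le hn).2
  have hwc := fun n hn => VT_conj hT (fun _ h => SXM_leG h.1) hw (n := n) (hs.le hn).1 (hs.le hn).2
  refine sum_zero p R hs.pg _ ?_ ?_
  · intro r hr g
    have h1 : r * g * r⁻¹ * x = r * (g * x) * r⁻¹ := by
      have h2 : r⁻¹ * x = x * r⁻¹ := hs.cent _ (R.inv_mem hr)
      rw [mul_assoc, h2]
      simp [mul_assoc]
    rw [hzc r hr, h1, conj_pow, hwc r hr]
  · intro g hg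
    by_contra hcon
    have h1 : w ((g * x) ^ m) ≠ 0 := right_ne_zero_of_mul hcon
    have h2 : (g * x) ^ m ∈ SXM p m (G ⊓ J) X \ SXM p m (G ⊓ J) Y := by
      by_contra h3
      exact h1 (hw.1 _ h3)
    obtain ⟨⟨⟨h3, R1, hR1, hs1⟩, h4⟩, h5⟩ := h2
    apply h5
    have h6 : ∀ r ∈ R, r * (g * x) ^ m = (g * x) ^ m * r := by
      intro r hr
      have h7 : Commute r (g * x) := by
        show r * (g * x) = g * x * r
        rw [← mul_assoc, hg r hr, mul_assoc, hs.cent r hr, mul_assoc]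
      exact h7.pow_right m
    obtain ⟨P, hP, hsP⟩ := exists_syl hs.le hs.pg h6
    obtain ⟨h, hh, _, rfl⟩ := SYL_conj_of hs1 hsP
    exact ⟨⟨h3, _, hup R hR _ (hX (h, 1) (hT h hh.1) hh.2 R1 hR1) hP, hsP⟩, h4⟩

/-- One step. -/
theorem gM_step (hLA : S_LA) {p : ℕ} [Fact p.Prime] [IsAlgClosed F] [CharP F p]
    (hT : ∀ g ∈ G, ((g, 1) : Γ × Ex G) ∈ T)
    {J : Subgroup Γ} {z : Γ → F}
    (hz : z ∈ (VT T (G ⊓ J : Subgroup Γ) J : Submodule F (Γ → F))) {X Y O : Set (Subgroup Γ)}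
    (hY : StT T J Y) (hO : StT T J O) (hX : X = O ∪ Y) (hd : ∀ R ∈ O, R ∉ Y)
    (hup : ∀ R ∈ Y, ∀ P ∈ X, R ≤ P → P ∈ Y) (c : F) :
    gM T m z (SXM p m (G ⊓ J) X) J c =
      gM T m z (SXM p m (G ⊓ J) O) J c + gM T m z (SXM p m (G ⊓ J) Y) J c := by
  have hXs : StT T J X := by
    rw [hX]
    rintro t ht hj R (hR | hR)
    · exact Or.inl (hO t ht hj R hR)
    · exact Or.inr (hY t ht hj R hR)
  have hOX : SXM p m (G ⊓ J) O ⊆ SXM p m (G ⊓ J) X :=
    SXM_mono (by rw [hX]; exact Set.subset_union_left)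
  have hYX : SXM p m (G ⊓ J) Y ⊆ SXM p m (G ⊓ J) X :=
    SXM_mono (by rw [hX]; exact Set.subset_union_right)
  have hXu : SXM p m (G ⊓ J) X = SXM p m (G ⊓ J) O ∪ SXM p m (G ⊓ J) Y := by rw [hX, SXM_union]
  have hOY : SXM p m (G ⊓ J) O ⊆ SXM p m (G ⊓ J) X \ SXM p m (G ⊓ J) Y :=
    fun x hx => ⟨hOX hx, SXM_disjT hT hO hd hx⟩
  have cX : ∀ t ∈ T, t.1 ∈ J → ∀ x ∈ SXM p m (G ⊓ J) X, tw t x ∈ SXM p m (G ⊓ J) X :=
    fun t ht hj x hx => SXM_tw hXs ht hj hx
  have cY : ∀ t ∈ T, t.1 ∈ J → ∀ x ∈ SXM p m (G ⊓ J) Y, tw t x ∈ SXM p m (G ⊓ J) Y :=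
    fun t ht hj x hx => SXM_tw hY ht hj hx
  have cO : ∀ t ∈ T, t.1 ∈ J → ∀ x ∈ SXM p m (G ⊓ J) O, tw t x ∈ SXM p m (G ⊓ J) O :=
    fun t ht hj x hx => SXM_tw hO ht hj hx
  have h1 := hLA F (Γ → F) (KM m z (SXM p m (G ⊓ J) X)) (KM m z (SXM p m (G ⊓ J) Y))
    (rst (SXM p m (G ⊓ J) Y))
    (VT T (SXM p m (G ⊓ J) X) J) (VT T (SXM p m (G ⊓ J) O) J) (VT T (SXM p m (G ⊓ J) Y) J)
    (fun v hv => km_tw hT hz SXM_leG SXM_le cX hv)
    (fun v hv => km_tw hT hz SXM_leG SXM_le cY hv) (VT_mono hOX J)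
    (fun v hv => rst_memT cY hv)
    (by
      intro w hw
      refine ⟨w, VT_mono hYX J hw, ?_⟩
      funext x
      rw [rst_apply]
      by_cases hx : x ∈ SXM p m (G ⊓ J) Y
      · rw [if_pos hx]
      · rw [if_neg hx, hw.1 x hx])
    (by
      intro v hv
      constructor
      · intro h
        refine ⟨?_, hv.2⟩
        intro x hx
        by_cases hx' : x ∈ SXM p m (G ⊓ J) Y
        · have h2 := congrFun h x
          rw [rst_apply, if_pos hx'] at h2
          exact h2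
        · apply hv.1
          rw [hXu]
          rintro (h3 | h3)
          · exact hx h3
          · exact hx' h3
      · intro h
        funext x
        rw [rst_apply]
        by_cases hx : x ∈ SXM p m (G ⊓ J) Y
        · rw [if_pos hx]
          apply h.1
          intro h3
          exact SXM_disjT hT hO hd h3 hx
        · rw [if_neg hx]
          rfl)
    (by
      intro v hv
      funext x
      rw [rst_apply, km_apply, km_apply]
      by_cases hx : x ∈ SXM p m (G ⊓ J) Y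
      · rw [if_pos hx, if_pos hx, if_pos (hYX hx)]
        have h2 : v - rst (SXM p m (G ⊓ J) Y) v ∈
            (VT T (SXM p m (G ⊓ J) X \ SXM p m (G ⊓ J) Y) J : Submodule F (Γ → F)) := by
          have h3 : v - rst (SXM p m (G ⊓ J) Y) v ∈ VT T (SXM p m (G ⊓ J) X) J :=
            Submodule.sub_mem _ hv (VT_mono hYX J (rst_memT cY hv))
          refine ⟨?_, h3.2⟩
          intro y hy
          by_cases hy' : y ∈ SXM p m (G ⊓ J) Y
          · rw [Pi.sub_apply, rst_apply, if_pos hy', sub_self]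
          · exact h3.1 y fun hy2 => hy ⟨hy2, hy'⟩
        have h3 := keyM hT hz hXs hup h2 hx
        have h4 : ∑ᶠ g : Γ, z g * v ((g * x) ^ m) =
            ∑ᶠ g : Γ, z g * (v - rst (SXM p m (G ⊓ J) Y) v) ((g * x) ^ m) +
              ∑ᶠ g : Γ, z g * rst (SXM p m (G ⊓ J) Y) v ((g * x) ^ m) := by
          rw [← finsum_add_distrib (Set.toFinite _) (Set.toFinite _)]
          refine finsum_congr fun g => ?_
          rw [Pi.sub_apply]
          ring
        rw [h4, h3, zero_add]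
      · rw [if_neg hx, if_neg hx])
    c
  have h2 : (VT T (SXM p m (G ⊓ J) O) J : Submodule F (Γ → F)) ⊓
      (KM m z (SXM p m (G ⊓ J) X)).maxGenEigenspace c =
      VT T (SXM p m (G ⊓ J) O) J ⊓ (KM m z (SXM p m (G ⊓ J) O)).maxGenEigenspace c := by
    apply gen_eq
    · intro v hv
      funext x
      rw [km_apply, km_apply]
      by_cases hx : x ∈ SXM p m (G ⊓ J) O
      · rw [if_pos hx, if_pos (hOX hx)]
      · rw [if_neg hx]
        by_cases hx' : x ∈ SXM p m (G ⊓ J) X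
        · rw [if_pos hx']
          have hx2 : x ∈ SXM p m (G ⊓ J) Y := by
            rw [hXu] at hx'
            exact hx'.resolve_left hx
          exact keyM hT hz hXs hup (VT_mono hOY J hv) hx2
        · rw [if_neg hx']
    · intro v hv
      exact km_tw hT hz SXM_leG SXM_le cO hv
  rw [h2] at h1
  exact h1

theorem main_indM (hLA : S_LA) {p : ℕ} [Fact p.Prime] [IsAlgClosed F] [CharP F p]
    (hT : ∀ g ∈ G, ((g, 1) : Γ × Ex G) ∈ T)
    {J : Subgroup Γ} {z : Γ → F}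
    (hz : z ∈ (VT T (G ⊓ J : Subgroup Γ) J : Submodule F (Γ → F))) (c : F)
    (X : Finset (Subgroup Γ))
    (hg : ∀ R ∈ X, GoodA p (G ⊓ J) R) (hX : StT T J (X : Set (Subgroup Γ)))
    (hup : ∀ R ∈ X, ∀ P, GoodA p (G ⊓ J) P → R ≤ P → P ∈ X) :
    mT T J * gM T m z (SXM p m (G ⊓ J) (X : Set (Subgroup Γ))) J c =
      ∑ R ∈ X, mT T (J ⊓ Subgroup.normalizer (R : Set Γ)) *
        gM T m z (SXM p m (G ⊓ J) (oT T J R)) J c := by
  induction X using Finset.strongInduction with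
  | H X ih =>
    by_cases hne : X.Nonempty
    · obtain ⟨R0, hR0, hmin⟩ := X.exists_min_image (fun R => Nat.card R) hne
      have hOX : oT T J R0 ⊆ (X : Set (Subgroup Γ)) := by
        rintro _ ⟨t, ht, hj, rfl⟩
        exact hX t ht hj R0 hR0
      let O : Finset (Subgroup Γ) := X.filter (fun R => R ∈ oT T J R0)
      let Y : Finset (Subgroup Γ) := X.filter (fun R => R ∉ oT T J R0)
      have hO : (O : Set (Subgroup Γ)) = oT T J R0 := by
        ext R
        simp only [O, Finset.coe_filter, Set.mem_ofPred_eq]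
        exact ⟨fun h => h.2, fun h => ⟨hOX h, h⟩⟩
      have hYX : Y ⊂ X := by
        refine Finset.filter_ssubset.2 ⟨R0, hR0, ?_⟩
        exact fun h => h (self_oT J R0)
      have hYs : StT T J (Y : Set (Subgroup Γ)) := by
        intro t ht hj R hR
        have hR' := Finset.mem_filter.1 (Finset.mem_coe.1 hR)
        refine Finset.mem_coe.2 (Finset.mem_filter.2 ⟨hX t ht hj R hR'.1, ?_⟩)
        intro h3
        apply hR'.2
        have h4 := stT_oT J R0 _ (T.inv_mem ht) (J.inv_mem hj) _ h3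
        rwa [Prod.fst_inv, cj_inv_cj] at h4
      have hYup : ∀ R ∈ Y, ∀ P, GoodA p (G ⊓ J) P → R ≤ P → P ∈ Y := by
        intro R hR P hP hRP
        have hR' := Finset.mem_filter.1 hR
        refine Finset.mem_filter.2 ⟨hup R hR'.1 P hP hRP, ?_⟩
        rintro ⟨k, hk, hj, rfl⟩
        apply hR'.2
        have h3 := hmin R hR'.1
        rw [← card_cj k.1 R0] at h3
        have h4 : R = cj k.1 R0 := Subgroup.eq_of_le_of_card_ge hRP h3
        rw [h4]
        exact ⟨k, hk, hj, rfl⟩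
      have hXu : (X : Set (Subgroup Γ)) = oT T J R0 ∪ (Y : Set (Subgroup Γ)) := by
        ext R
        constructor
        · intro hR
          by_cases h : R ∈ oT T J R0
          · exact Or.inl h
          · exact Or.inr (Finset.mem_coe.2 (Finset.mem_filter.2 ⟨hR, h⟩))
        · rintro (hR | hR)
          · exact hOX hR
          · exact Finset.mem_coe.2 (Finset.mem_filter.1 (Finset.mem_coe.1 hR)).1
      have h1 := gM_step (m := m) hLA hT hz hYs (stT_oT J R0) hXu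
        (fun R hR hR' => (Finset.mem_filter.1 (Finset.mem_coe.1 hR')).2 hR)
        (fun R hR P hP hRP => Finset.mem_coe.2
          (hYup R (Finset.mem_coe.1 hR) P (hg P (Finset.mem_coe.1 hP)) hRP)) c
      have h2 := ih Y hYX (fun R hR => hg R (Finset.mem_filter.1 hR).1) hYs hYup
      have h3 : ∑ R ∈ O, mT T (J ⊓ Subgroup.normalizer (R : Set Γ)) *
          gM T m z (SXM p m (G ⊓ J) (oT T J R)) J c =
          mT T J * gM T m z (SXM p m (G ⊓ J) (oT T J R0)) J c := by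
        have h4 : ∀ R ∈ O, mT T (J ⊓ Subgroup.normalizer (R : Set Γ)) *
            gM T m z (SXM p m (G ⊓ J) (oT T J R)) J c =
            mT T (J ⊓ Subgroup.normalizer (R0 : Set Γ)) *
            gM T m z (SXM p m (G ⊓ J) (oT T J R0)) J c := by
          intro R hR
          have h5 : R ∈ oT T J R0 := (Finset.mem_filter.1 hR).2
          have h6 := card_oT (T := T) J R
          rw [oT_eq h5] at h6 ⊢
          have h7 := card_oT (T := T) J R0
          have h8 : 0 < Nat.card (oT T J R0) := by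
            have : Nonempty (oT T J R0) := ⟨⟨R0, self_oT J R0⟩⟩
            exact Nat.card_pos
          rw [← h7] at h6
          rw [Nat.eq_of_mul_eq_mul_left h8 h6]
        rw [Finset.sum_congr rfl h4, Finset.sum_const, smul_eq_mul, ← mul_assoc]
        congr 1
        have h5 : O.card = Nat.card (oT T J R0) := by
          rw [← hO]
          simp
        rw [h5]
        exact card_oT J R0
      rw [h1, mul_add, h2, ← h3]
      exact Finset.sum_filter_add_sum_filter_not X (fun R => R ∈ oT T J R0) _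
    · rw [Finset.not_nonempty_iff_eq_empty] at hne
      subst hne
      rw [Finset.sum_empty]
      have h1 : SXM p m (G ⊓ J) ((∅ : Finset (Subgroup Γ)) : Set (Subgroup Γ)) = ∅ := by
        ext x
        simp [SXM, SXA]
      have h2 : (VT T (∅ : Set Γ) J : Submodule F (Γ → F)) = ⊥ := by
        rw [eq_bot_iff]
        intro v hv
        rw [Submodule.mem_bot]
        funext x
        exact hv.1 x (by simp)
      rw [h1, gM, h2, bot_inf_eq, finrank_bot, mul_zero]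

end Pool.Agent.R663.GA
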