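import Pool.Agent.R663.GA.Tw

/-!
# The filtration by the Sylow subgroups of the centralisers, for twisted invariants
-/

set_option autoImplicit false
set_option linter.unusedSectionVars false

open scoped Classical Pointwise

noncomputable section

namespace Pool.Agent.R663.GA

open Pool.Agent.Y63.NV
open Pool.Agent.Y85.NV (cj mem_cj cj_one cj_mul cj_inv_cj cj_mono cj_le cj_pgroup cj_eq_map card_cj
  SYL exists_syl SYL.le_cent sum_zero rst rst_apply gen_eq)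
open Pool.Agent.R663.KRB
open Pool.Agent.Y177.NV (finrank_eq res res_apply sum_conj_eq_zero)

variable {F : Type} [Field F] {Γ : Type} [Group Γ] [Finite Γ]
variable {G : Subgroup Γ} [hG : G.Normal] {T : Subgroup (Γ × Ex G)}

/-- the order of the part of `T` over `J` -/
def mT (T : Subgroup (Γ × Ex G)) (J : Subgroup Γ) : ℕ :=
  Nat.card {t : Γ × Ex G // t ∈ T ∧ t.1 ∈ J}

/-- the multiplicity of an eigenvalue on the twisted invariants -/
def gT (T : Subgroup (Γ × Ex G)) (z : Γ → F) (S : Set Γ) (J : Subgroup Γ) (c : F) : ℕ :=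
  Module.finrank F ↥(VT T S J ⊓ (Kop z S).maxGenEigenspace c)

/-- stability under conjugation -/
def StT (T : Subgroup (Γ × Ex G)) (J : Subgroup Γ) (X : Set (Subgroup Γ)) : Prop :=
  ∀ t ∈ T, t.1 ∈ J → ∀ R ∈ X, cj t.1 R ∈ X

/-- the orbit of a subgroup -/
def oT (T : Subgroup (Γ × Ex G)) (J R : Subgroup Γ) : Set (Subgroup Γ) :=
  {S | ∃ t ∈ T, t.1 ∈ J ∧ S = cj t.1 R}

theorem stT_oT (J R : Subgroup Γ) : StT T J (oT T J R) := by
  rintro s hs hsJ _ ⟨t, ht, htJ, rfl⟩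
  exact ⟨s * t, T.mul_mem hs ht, J.mul_mem hsJ htJ, (cj_mul s.1 t.1 R).symm⟩

theorem self_oT (J R : Subgroup Γ) : R ∈ oT T J R := ⟨1, T.one_mem, J.one_mem, (cj_one R).symm⟩

theorem oT_symm {J R S : Subgroup Γ} (h : S ∈ oT T J R) : R ∈ oT T J S := by
  obtain ⟨t, ht, htJ, rfl⟩ := h
  exact ⟨t⁻¹, T.inv_mem ht, J.inv_mem htJ, (cj_inv_cj t.1 R).symm⟩

theorem oT_eq {J R S : Subgroup Γ} (h : S ∈ oT T J R) : oT T J S = oT T J R := by
  ext U
  constructor
  · rintro ⟨t, ht, htJ, rfl⟩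
    exact stT_oT J R t ht htJ S h
  · rintro ⟨t, ht, htJ, rfl⟩
    exact stT_oT J S t ht htJ R (oT_symm h)

theorem conjN {J : Subgroup Γ} {j : Γ} (hj : j ∈ J) (y : Γ) :
    j * y * j⁻¹ ∈ G ⊓ J ↔ y ∈ G ⊓ J := by
  constructor
  · rintro ⟨h1, h2⟩
    have e : j⁻¹ * (j * y * j⁻¹) * j⁻¹⁻¹ = y := by group
    refine ⟨?_, ?_⟩
    · have h3 := hG.conj_mem _ h1 j⁻¹
      rwa [e] at h3
    · have h3 := J.mul_mem (J.mul_mem (J.inv_mem hj) h2) (J.inv_mem (J.inv_mem hj))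
      rwa [e] at h3
  · rintro ⟨h1, h2⟩
    exact ⟨hG.conj_mem _ h1 j, J.mul_mem (J.mul_mem hj h2) (J.inv_mem hj)⟩

theorem SYL_tw {p : ℕ} {J R : Subgroup Γ} {x : Γ} (hs : SYL p (G ⊓ J) x R) (hx : x ∈ G)
    (t : Γ × Ex G) (hj : t.1 ∈ J) : SYL p (G ⊓ J) (tw t x) (cj t.1 R) := by
  have h1 := SYL_conj hs (j := t.1) (conjN hj)
  exact SYL_pow h1 (Subgroup.orderOf_dvd_natCard G (hG.conj_mem x hx t.1)) (ex_cop t.2)

theorem SXA_tw {p : ℕ} {J : Subgroup Γ} {X : Set (Subgroup Γ)} (hX : StT T J X) {t : Γ × Ex G}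
    (ht : t ∈ T) (hj : t.1 ∈ J) {x : Γ} (hx : x ∈ SXA p (G ⊓ J) X) : tw t x ∈ SXA p (G ⊓ J) X := by
  obtain ⟨h1, R, hR, h3⟩ := hx
  refine ⟨?_, cj t.1 R, hX t ht hj R hR, SYL_tw h3 h1.1 t hj⟩
  exact (G ⊓ J).pow_mem ((conjN hj x).2 h1) _

theorem SXA_le {p : ℕ} {J : Subgroup Γ} {X : Set (Subgroup Γ)} :
    SXA p (G ⊓ J) X ⊆ (G ⊓ J : Subgroup Γ) := fun _ hx => hx.1

theorem SXA_leG {p : ℕ} {J : Subgroup Γ} {X : Set (Subgroup Γ)} :
    SXA p (G ⊓ J) X ⊆ G := fun _ hx => hx.1.1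

theorem SXA_disjT {p : ℕ} [Fact p.Prime] (hT : ∀ g ∈ G, ((g, 1) : Γ × Ex G) ∈ T) {J : Subgroup Γ}
    {X Y : Set (Subgroup Γ)} (hX : StT T J X) (hd : ∀ R ∈ X, R ∉ Y) {x : Γ}
    (hx : x ∈ SXA p (G ⊓ J) X) : x ∉ SXA p (G ⊓ J) Y := by
  rintro ⟨_, S, hS, h4⟩
  obtain ⟨_, R, hR, h3⟩ := hx
  obtain ⟨h, hh, _, rfl⟩ := SYL_conj_of h3 h4
  exact hd _ (hX (h, 1) (hT h hh.1) hh.2 R hR) hS

theorem VT_mono {S S' : Set Γ} (h : S ⊆ S') (J : Subgroup Γ) :
    (VT T S J : Submodule F (Γ → F)) ≤ VT T S' J :=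
  fun _ hv => ⟨fun x hx => hv.1 x fun hx' => hx (h hx'), hv.2⟩

theorem tw_iff {S : Set Γ} {J : Subgroup Γ} (hS : ∀ t ∈ T, t.1 ∈ J → ∀ x ∈ S, tw t x ∈ S)
    {t : Γ × Ex G} (ht : t ∈ T) (hj : t.1 ∈ J) {x : Γ} (hx : x ∈ G) : tw t x ∈ S ↔ x ∈ S := by
  refine ⟨fun h => ?_, hS t ht hj x⟩
  have h1 := hS t⁻¹ (T.inv_mem ht) (J.inv_mem hj) _ h
  rwa [tw_inv_tw t hx] at h1

theorem rst_memT {J : Subgroup Γ} {S S' : Set Γ} (hS : ∀ t ∈ T, t.1 ∈ J → ∀ x ∈ S, tw t x ∈ S)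
    {v : Γ → F} (hv : v ∈ (VT T S' J : Submodule F (Γ → F))) : rst S v ∈ VT T S J := by
  refine ⟨fun x hx => by rw [rst_apply, if_neg hx], ?_⟩
  intro t ht hj x hx
  rw [rst_apply, rst_apply, hv.2 t ht hj x hx]
  simp only [tw_iff hS ht hj hx]

/-- The key lemma. -/
theorem keyT {p : ℕ} [Fact p.Prime] [CharP F p] (hT : ∀ g ∈ G, ((g, 1) : Γ × Ex G) ∈ T)
    {J : Subgroup Γ} {z : Γ → F}
    (hz : z ∈ (VT T (G ⊓ J : Subgroup Γ) J : Submodule F (Γ → F)))
    {X Y : Set (Subgroup Γ)} (hX : StT T J X)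
    (hup : ∀ R ∈ Y, ∀ P ∈ X, R ≤ P → P ∈ Y) {w : Γ → F}
    (hw : w ∈ (VT T (SXA p (G ⊓ J) X \ SXA p (G ⊓ J) Y) J : Submodule F (Γ → F))) {x : Γ}
    (hx : x ∈ SXA p (G ⊓ J) Y) :
    ∑ᶠ g : Γ, z g * w (g * x) = 0 := by
  obtain ⟨_, R, hR, hs⟩ := hx
  have hzc := fun n hn => VT_conj hT (fun _ h => h.1) hz (n := n) (hs.le hn).1 (hs.le hn).2
  have hwc := fun n hn => VT_conj hT (fun _ h => SXA_leG h.1) hw (n := n) (hs.le hn).1 (hs.le hn).2
  refine sum_zero p R hs.pg _ ?_ ?_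
  · intro r hr g
    have h1 : r * g * r⁻¹ * x = r * (g * x) * r⁻¹ := by
      have h2 : r⁻¹ * x = x * r⁻¹ := hs.cent _ (R.inv_mem hr)
      rw [mul_assoc, h2]
      simp [mul_assoc]
    rw [hzc r hr, h1, hwc r hr]
  · intro g hg
    by_contra hcon
    have h1 : w (g * x) ≠ 0 := right_ne_zero_of_mul hcon
    have h2 : g * x ∈ SXA p (G ⊓ J) X \ SXA p (G ⊓ J) Y := by
      by_contra h3
      exact h1 (hw.1 _ h3)
    obtain ⟨⟨h3, R1, hR1, hs1⟩, h5⟩ := h2
    apply h5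
    have h6 : ∀ r ∈ R, r * (g * x) = g * x * r := by
      intro r hr
      rw [← mul_assoc, hg r hr, mul_assoc, hs.cent r hr, mul_assoc]
    obtain ⟨P, hP, hsP⟩ := exists_syl hs.le hs.pg h6
    obtain ⟨h, hh, _, rfl⟩ := SYL_conj_of hs1 hsP
    exact ⟨h3, _, hup R hR _ (hX (h, 1) (hT h hh.1) hh.2 R1 hR1) hP, hsP⟩

/-- One step. -/
theorem gT_step (hLA : S_LA) {p : ℕ} [Fact p.Prime] [IsAlgClosed F] [CharP F p]
    (hT : ∀ g ∈ G, ((g, 1) : Γ × Ex G) ∈ T)
    {J : Subgroup Γ} {z : Γ → F}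
    (hz : z ∈ (VT T (G ⊓ J : Subgroup Γ) J : Submodule F (Γ → F))) {X Y O : Set (Subgroup Γ)}
    (hY : StT T J Y) (hO : StT T J O) (hX : X = O ∪ Y) (hd : ∀ R ∈ O, R ∉ Y)
    (hup : ∀ R ∈ Y, ∀ P ∈ X, R ≤ P → P ∈ Y) (c : F) :
    gT T z (SXA p (G ⊓ J) X) J c =
      gT T z (SXA p (G ⊓ J) O) J c + gT T z (SXA p (G ⊓ J) Y) J c := by
  have hXs : StT T J X := by
    rw [hX]
    rintro t ht hj R (hR | hR)
    · exact Or.inl (hO t ht hj R hR)
    · exact Or.inr (hY t ht hj R hR)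
  have hOX : SXA p (G ⊓ J) O ⊆ SXA p (G ⊓ J) X :=
    SXA_mono (by rw [hX]; exact Set.subset_union_left)
  have hYX : SXA p (G ⊓ J) Y ⊆ SXA p (G ⊓ J) X :=
    SXA_mono (by rw [hX]; exact Set.subset_union_right)
  have hXu : SXA p (G ⊓ J) X = SXA p (G ⊓ J) O ∪ SXA p (G ⊓ J) Y := by rw [hX, SXA_union]
  have hOY : SXA p (G ⊓ J) O ⊆ SXA p (G ⊓ J) X \ SXA p (G ⊓ J) Y :=
    fun x hx => ⟨hOX hx, SXA_disjT hT hO hd hx⟩
  have cX : ∀ t ∈ T, t.1 ∈ J → ∀ x ∈ SXA p (G ⊓ J) X, tw t x ∈ SXA p (G ⊓ J) X :=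
    fun t ht hj x hx => SXA_tw hXs ht hj hx
  have cY : ∀ t ∈ T, t.1 ∈ J → ∀ x ∈ SXA p (G ⊓ J) Y, tw t x ∈ SXA p (G ⊓ J) Y :=
    fun t ht hj x hx => SXA_tw hY ht hj hx
  have cO : ∀ t ∈ T, t.1 ∈ J → ∀ x ∈ SXA p (G ⊓ J) O, tw t x ∈ SXA p (G ⊓ J) O :=
    fun t ht hj x hx => SXA_tw hO ht hj hx
  have h1 := hLA F (Γ → F) (Kop z (SXA p (G ⊓ J) X)) (Kop z (SXA p (G ⊓ J) Y))
    (rst (SXA p (G ⊓ J) Y))
    (VT T (SXA p (G ⊓ J) X) J) (VT T (SXA p (G ⊓ J) O) J) (VT T (SXA p (G ⊓ J) Y) J)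
    (fun v hv => kop_tw hT hz SXA_leG SXA_le cX hv)
    (fun v hv => kop_tw hT hz SXA_leG SXA_le cY hv) (VT_mono hOX J)
    (fun v hv => rst_memT cY hv)
    (by
      intro w hw
      refine ⟨w, VT_mono hYX J hw, ?_⟩
      funext x
      rw [rst_apply]
      by_cases hx : x ∈ SXA p (G ⊓ J) Y
      · rw [if_pos hx]
      · rw [if_neg hx, hw.1 x hx])
    (by
      intro v hv
      constructor
      · intro h
        refine ⟨?_, hv.2⟩
        intro x hx
        by_cases hx' : x ∈ SXA p (G ⊓ J) Y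
        · have h2 := congrFun h x
          rw [rst_apply, if_pos hx'] at h2
          exact h2
        · apply hv.1
          rw [hXu]
          rintro (h3 | h3)
          · exact hx h3
          · exact hx' h3
      · intro h
        funext x
        rw [rst_apply]
        by_cases hx : x ∈ SXA p (G ⊓ J) Y
        · rw [if_pos hx]
          apply h.1
          intro h3
          exact SXA_disjT hT hO hd h3 hx
        · rw [if_neg hx]
          rfl)
    (by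
      intro v hv
      funext x
      rw [rst_apply, kop_apply, kop_apply]
      by_cases hx : x ∈ SXA p (G ⊓ J) Y
      · rw [if_pos hx, if_pos hx, if_pos (hYX hx)]
        have h2 : v - rst (SXA p (G ⊓ J) Y) v ∈
            (VT T (SXA p (G ⊓ J) X \ SXA p (G ⊓ J) Y) J : Submodule F (Γ → F)) := by
          have h3 : v - rst (SXA p (G ⊓ J) Y) v ∈ VT T (SXA p (G ⊓ J) X) J :=
            Submodule.sub_mem _ hv (VT_mono hYX J (rst_memT cY hv))
          refine ⟨?_, h3.2⟩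
          intro y hy
          by_cases hy' : y ∈ SXA p (G ⊓ J) Y
          · rw [Pi.sub_apply, rst_apply, if_pos hy', sub_self]
          · exact h3.1 y fun hy2 => hy ⟨hy2, hy'⟩
        have h3 := keyT hT hz hXs hup h2 hx
        have h4 : ∑ᶠ g : Γ, z g * v (g * x) =
            ∑ᶠ g : Γ, z g * (v - rst (SXA p (G ⊓ J) Y) v) (g * x) +
              ∑ᶠ g : Γ, z g * rst (SXA p (G ⊓ J) Y) v (g * x) := by
          rw [← finsum_add_distrib (Set.toFinite _) (Set.toFinite _)]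
          refine finsum_congr fun g => ?_
          rw [Pi.sub_apply]
          ring
        rw [h4, h3, zero_add]
      · rw [if_neg hx, if_neg hx])
    c
  have h2 : (VT T (SXA p (G ⊓ J) O) J : Submodule F (Γ → F)) ⊓
      (Kop z (SXA p (G ⊓ J) X)).maxGenEigenspace c =
      VT T (SXA p (G ⊓ J) O) J ⊓ (Kop z (SXA p (G ⊓ J) O)).maxGenEigenspace c := by
    apply gen_eq
    · intro v hv
      funext x
      rw [kop_apply, kop_apply]
      by_cases hx : x ∈ SXA p (G ⊓ J) O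
      · rw [if_pos hx, if_pos (hOX hx)]
      · rw [if_neg hx]
        by_cases hx' : x ∈ SXA p (G ⊓ J) X
        · rw [if_pos hx']
          have hx2 : x ∈ SXA p (G ⊓ J) Y := by
            rw [hXu] at hx'
            exact hx'.resolve_left hx
          exact keyT hT hz hXs hup (VT_mono hOY J hv) hx2
        · rw [if_neg hx']
    · intro v hv
      exact kop_tw hT hz SXA_leG SXA_le cO hv
  rw [h2] at h1
  exact h1

theorem mT_pos (T : Subgroup (Γ × Ex G)) (J : Subgroup Γ) : 0 < mT T J := by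
  have : Finite (Ex G) := by
    have : NeZero (Nat.card G) := ⟨Nat.card_pos.ne'⟩
    infer_instance
  have : Nonempty {t : Γ × Ex G // t ∈ T ∧ t.1 ∈ J} := ⟨⟨1, T.one_mem, J.one_mem⟩⟩
  exact Nat.card_pos

/-- the part of `T` over `J` -/
def TJ (T : Subgroup (Γ × Ex G)) (J : Subgroup Γ) : Subgroup (Γ × Ex G) :=
  T ⊓ J.comap (MonoidHom.fst Γ (Ex G))

theorem mem_TJ {J : Subgroup Γ} {t : Γ × Ex G} : t ∈ TJ T J ↔ t ∈ T ∧ t.1 ∈ J := Iff.rfl

theorem mT_eq (T : Subgroup (Γ × Ex G)) (J : Subgroup Γ) : mT T J = Nat.card (TJ T J) := rfl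

theorem mem_norm_iff {g : Γ} {R : Subgroup Γ} :
    g ∈ Subgroup.normalizer (R : Set Γ) ↔ cj g R = R := by
  rw [Subgroup.mem_normalizer_iff]
  constructor
  · intro h
    ext y
    rw [mem_cj, h (g⁻¹ * y * g)]
    have e : g * (g⁻¹ * y * g) * g⁻¹ = y := by group
    rw [e]
  · intro h y
    conv_rhs => rw [← h]
    rw [mem_cj]
    have e : g⁻¹ * (g * y * g⁻¹) * g = y := by group
    rw [e]

/-- the action on subgroups -/
@[reducible] def actT (T : Subgroup (Γ × Ex G)) (J : Subgroup Γ) :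
    MulAction (TJ T J) (Subgroup Γ) where
  smul h R := cj (h : Γ × Ex G).1 R
  one_smul R := cj_one R
  mul_smul h k R := cj_mul (h : Γ × Ex G).1 (k : Γ × Ex G).1 R

theorem card_oT (J R : Subgroup Γ) :
    Nat.card (oT T J R) * mT T (J ⊓ Subgroup.normalizer (R : Set Γ)) = mT T J := by
  let _ := actT T J
  have h1 := Nat.card_congr (MulAction.orbitProdStabilizerEquivGroup (TJ T J) R)
  rw [Nat.card_prod] at h1
  have h2 : MulAction.orbit (TJ T J) R = oT T J R := by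
    ext S
    constructor
    · rintro ⟨h, rfl⟩
      exact ⟨h, h.2.1, h.2.2, rfl⟩
    · rintro ⟨t, ht, hj, rfl⟩
      exact ⟨⟨t, ht, hj⟩, rfl⟩
  have h4 : Nat.card (MulAction.stabilizer (TJ T J) R) =
      mT T (J ⊓ Subgroup.normalizer (R : Set Γ)) := by
    refine Nat.card_congr
      { toFun := fun h => ⟨h.1.1, h.1.2.1, h.1.2.2, ?_⟩
        invFun := fun t => ⟨⟨t.1, t.2.1, t.2.2.1⟩, ?_⟩
        left_inv := fun _ => rfl
        right_inv := fun _ => rfl }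
    · exact mem_norm_iff.2 (MulAction.mem_stabilizer_iff.1 h.2)
    · exact MulAction.mem_stabilizer_iff.2 (mem_norm_iff.1 t.2.2.2)
  rw [← h2, ← h4, mT_eq]
  exact h1

theorem main_indT (hLA : S_LA) {p : ℕ} [Fact p.Prime] [IsAlgClosed F] [CharP F p]
    (hT : ∀ g ∈ G, ((g, 1) : Γ × Ex G) ∈ T)
    {J : Subgroup Γ} {z : Γ → F}
    (hz : z ∈ (VT T (G ⊓ J : Subgroup Γ) J : Submodule F (Γ → F))) (c : F)
    (X : Finset (Subgroup Γ))
    (hg : ∀ R ∈ X, GoodA p (G ⊓ J) R) (hX : StT T J (X : Set (Subgroup Γ)))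
    (hup : ∀ R ∈ X, ∀ P, GoodA p (G ⊓ J) P → R ≤ P → P ∈ X) :
    mT T J * gT T z (SXA p (G ⊓ J) (X : Set (Subgroup Γ))) J c =
      ∑ R ∈ X, mT T (J ⊓ Subgroup.normalizer (R : Set Γ)) *
        gT T z (SXA p (G ⊓ J) (oT T J R)) J c := by
  induction X using Finset.strongInduction with
  | H X ih =>
    by_cases hne : X.Nonempty
    · obtain ⟨R0, hR0, hmin⟩ := X.exists_min_image (fun R => Nat.card R) hne
      have hOX : oT T J R0 ⊆ (X : Set (Subgroup Γ)) := by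
        rintro _ ⟨t, ht, hj, rfl⟩
        exact hX t ht hj R0 hR0
      let O : Finset (Subgroup Γ) := X.filter (fun R => R ∈ oT T J R0)
      let Y : Finset (Subgroup Γ) := X.filter (fun R => R ∉ oT T J R0)
      have hO : (O : Set (Subgroup Γ)) = oT T J R0 := by
        ext R
        simp only [O, Finset.coe_filter, Set.mem_ofPred_eq]
        exact ⟨fun h => h.2, fun h => ⟨hOX h, h⟩⟩
      have hYX : Y ⊂ X := by
        refine Finset.filter_ssubset.2 ⟨R0, hR0, ?_⟩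
        exact fun h => h (self_oT J R0)
      have hYs : StT T J (Y : Set (Subgroup Γ)) := by
        intro t ht hj R hR
        have hR' := Finset.mem_filter.1 (Finset.mem_coe.1 hR)
        refine Finset.mem_coe.2 (Finset.mem_filter.2 ⟨hX t ht hj R hR'.1, ?_⟩)
        intro h3
        apply hR'.2
        have h4 := stT_oT J R0 _ (T.inv_mem ht) (J.inv_mem hj) _ h3
        rwa [Prod.fst_inv, cj_inv_cj] at h4
      have hYup : ∀ R ∈ Y, ∀ P, GoodA p (G ⊓ J) P → R ≤ P → P ∈ Y := by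
        intro R hR P hP hRP
        have hR' := Finset.mem_filter.1 hR
        refine Finset.mem_filter.2 ⟨hup R hR'.1 P hP hRP, ?_⟩
        rintro ⟨k, hk, hj, rfl⟩
        apply hR'.2
        have h3 := hmin R hR'.1
        rw [← card_cj k.1 R0] at h3
        have h4 : R = cj k.1 R0 := Subgroup.eq_of_le_of_card_ge hRP h3
        rw [h4]
        exact ⟨k, hk, hj, rfl⟩
      have hXu : (X : Set (Subgroup Γ)) = oT T J R0 ∪ (Y : Set (Subgroup Γ)) := by
        ext R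
        constructor
        · intro hR
          by_cases h : R ∈ oT T J R0
          · exact Or.inl h
          · exact Or.inr (Finset.mem_coe.2 (Finset.mem_filter.2 ⟨hR, h⟩))
        · rintro (hR | hR)
          · exact hOX hR
          · exact Finset.mem_coe.2 (Finset.mem_filter.1 (Finset.mem_coe.1 hR)).1
      have h1 := gT_step hLA hT hz hYs (stT_oT J R0) hXu
        (fun R hR hR' => (Finset.mem_filter.1 (Finset.mem_coe.1 hR')).2 hR)
        (fun R hR P hP hRP => Finset.mem_coe.2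
          (hYup R (Finset.mem_coe.1 hR) P (hg P (Finset.mem_coe.1 hP)) hRP)) c
      have h2 := ih Y hYX (fun R hR => hg R (Finset.mem_filter.1 hR).1) hYs hYup
      have h3 : ∑ R ∈ O, mT T (J ⊓ Subgroup.normalizer (R : Set Γ)) *
          gT T z (SXA p (G ⊓ J) (oT T J R)) J c =
          mT T J * gT T z (SXA p (G ⊓ J) (oT T J R0)) J c := by
        have h4 : ∀ R ∈ O, mT T (J ⊓ Subgroup.normalizer (R : Set Γ)) *
            gT T z (SXA p (G ⊓ J) (oT T J R)) J c =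
            mT T (J ⊓ Subgroup.normalizer (R0 : Set Γ)) *
            gT T z (SXA p (G ⊓ J) (oT T J R0)) J c := by
          intro R hR
          have h5 : R ∈ oT T J R0 := (Finset.mem_filter.1 hR).2
          have h6 := card_oT (T := T) J R
          rw [oT_eq h5] at h6 ⊢
          have h7 := card_oT (T := T) J R0
          have h8 : 0 < Nat.card (oT T J R0) := by
            have : Nonempty (oT T J R0) := ⟨⟨R0, self_oT J R0⟩⟩
            exact Nat.card_pos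
          rw [← h7] at h6
          rw [Nat.eq_of_mul_eq_mul_left h8 h6]
        rw [Finset.sum_congr rfl h4, Finset.sum_const, smul_eq_mul, ← mul_assoc]
        congr 1
        have h5 : O.card = Nat.card (oT T J R0) := by
          rw [← hO]
          simp
        rw [h5]
        exact card_oT J R0
      rw [h1, mul_add, h2, ← h3]
      exact Finset.sum_filter_add_sum_filter_not X (fun R => R ∈ oT T J R0) _
    · rw [Finset.not_nonempty_iff_eq_empty] at hne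
      subst hne
      rw [Finset.sum_empty]
      have h1 : SXA p (G ⊓ J) ((∅ : Finset (Subgroup Γ)) : Set (Subgroup Γ)) = ∅ := by
        ext x
        simp [SXA]
      have h2 : (VT T (∅ : Set Γ) J : Submodule F (Γ → F)) = ⊥ := by
        rw [eq_bot_iff]
        intro v hv
        rw [Submodule.mem_bot]
        funext x
        exact hv.1 x (by simp)
      rw [h1, gT, h2, bot_inf_eq, finrank_bot, mul_zero]

end Pool.Agent.R663.GA
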