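import Pool.Agent.R663.GA.FiltT

/-!
# One step of the filtration, for twisted invariants
-/

set_option autoImplicit false
set_option linter.unusedSectionVars false

open scoped Classical Pointwise

noncomputable section

namespace Pool.Agent.R663.GA

open Pool.Agent.Y63.NV
open Pool.Agent.Y85.NV (cj mem_cj cj_one cj_mul cj_inv_cj cj_mono cj_le cj_pgroup cj_eq_map card_cj
  SYL exists_syl SYL.le_cent sum_zero rst rst_apply gen_eq)
open Pool.Agent.R663.KRB
open Pool.Agent.Y177.NV (finrank_eq res res_apply sum_conj_eq_zero)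

variable {F : Type} [Field F] {Γ : Type} [Group Γ] [Finite Γ]
variable {G : Subgroup Γ} [hG : G.Normal] {T : Subgroup (Γ × Ex G)}

theorem sa_iffT {p : ℕ} [Fact p.Prime] {J R : Subgroup Γ} (hR : R ≤ G ⊓ J) (hp : IsPGroup p R)
    {x : Γ} : x ∈ SA p (G ⊓ (J ⊓ Subgroup.normalizer (R : Set Γ))) R ↔
      x ∈ G ⊓ J ∧ SYL p (G ⊓ J) x R := by
  rw [← inf_assoc]
  exact sa_iff hR hp

theorem saT_le {p : ℕ} {J R : Subgroup Γ} :
    SA p (G ⊓ (J ⊓ Subgroup.normalizer (R : Set Γ))) R ⊆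
      (G ⊓ (J ⊓ Subgroup.normalizer (R : Set Γ)) : Subgroup Γ) := fun _ h => h.1

theorem filtaT {p : ℕ} [Fact p.Prime] [CharP F p]
    (hT : ∀ g ∈ G, ((g, 1) : Γ × Ex G) ∈ T)
    {J : Subgroup Γ} {z : Γ → F}
    (hz : z ∈ (VT T (G ⊓ J : Subgroup Γ) J : Submodule F (Γ → F))) (c : F) {R : Subgroup Γ}
    (hR : IsPGroup p R) (hRN : R ≤ G ⊓ J) :
    gT T z (SXA p (G ⊓ J) (oT T J R)) J c =
      gT T (cut z (Subgroup.centralizer (R : Set Γ)))
        (SA p (G ⊓ (J ⊓ Subgroup.normalizer (R : Set Γ))) R)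
        (J ⊓ Subgroup.normalizer (R : Set Γ)) c := by
  set J' := J ⊓ Subgroup.normalizer (R : Set Γ) with hJ'
  set S := SA p (G ⊓ J') R with hS
  set C := SXA p (G ⊓ J) (oT T J R) with hC
  have hmem : ∀ x, x ∈ S ↔ x ∈ G ⊓ J ∧ SYL p (G ⊓ J) x R := fun x => sa_iffT hRN hR
  have hJJ : J' ≤ J := inf_le_left
  have hRG : R ≤ G := hRN.trans inf_le_left
  have hRJ : R ≤ J := hRN.trans inf_le_right
  have hRJ' : R ≤ J' := le_inf hRJ Subgroup.le_normalizer
  have hSG : S ⊆ G := fun x hx => ((hmem x).1 hx).1.1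
  have hSC : S ⊆ C := fun x hx => ⟨((hmem x).1 hx).1, R, self_oT J R, ((hmem x).1 hx).2⟩
  have hCG : C ⊆ G := SXA_leG
  -- stability
  have hCt : ∀ t ∈ T, t.1 ∈ J → ∀ x ∈ C, tw t x ∈ C := fun t ht hj x hx =>
    SXA_tw (stT_oT J R) ht hj hx
  have hSt : ∀ t ∈ T, t.1 ∈ J' → ∀ x ∈ S, tw t x ∈ S := by
    intro t ht hj x hx
    rw [hmem] at hx ⊢
    have h1 := SYL_tw hx.2 hx.1.1 t (hJJ hj)
    rw [mem_norm_iff.1 hj.2] at h1
    exact ⟨(G ⊓ J).pow_mem ((conjN (hJJ hj) x).2 hx.1) _, h1⟩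
  -- fusion
  have hfus : ∀ x ∈ S, ∀ t ∈ T, t.1 ∈ J → tw t x ∈ S →
      ∃ s ∈ T, s.1 ∈ J' ∧ tw s x = tw t x := by
    intro x hx t ht hj hx'
    rw [hmem] at hx hx'
    have h1 := SYL_tw hx.2 hx.1.1 t hj
    obtain ⟨h, hh, hcomm, hh'⟩ := SYL_conj_of h1 hx'.2
    refine ⟨(h, 1) * t, T.mul_mem (hT h hh.1) ht, ⟨J.mul_mem hh.2 hj, ?_⟩, ?_⟩
    · change h * t.1 ∈ Subgroup.normalizer (R : Set Γ)
      rw [mem_norm_iff, cj_mul, ← hh']
    · rw [tw_mul _ _ hx.1.1, tw_pair_one (tw_mem t hx.1.1), hcomm, mul_inv_cancel_right]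
  have hback : ∀ y ∈ G ⊓ J, (∀ r ∈ R, r * y = y * r) → y ∈ C → y ∈ S := by
    rintro y hyN hyR ⟨_, Q, ⟨t, ht, hj, rfl⟩, hs⟩
    rw [hmem]
    refine ⟨hyN, ?_⟩
    obtain ⟨P, hP, hsP⟩ := exists_syl hRN hR hyR
    obtain ⟨h, hh, _, rfl⟩ := SYL_conj_of hs hsP
    have h1 : R = cj h (cj t.1 R) := by
      refine Subgroup.eq_of_le_of_card_ge hP ?_
      rw [card_cj, card_cj]
    rw [h1]
    exact hsP
  have hchoose : ∀ x ∈ C, ∃ t ∈ T, t.1 ∈ J ∧ tw t x ∈ S := by
    rintro x ⟨hxN, Q, ⟨t, ht, hj, rfl⟩, hs⟩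
    refine ⟨t⁻¹, T.inv_mem ht, J.inv_mem hj, ?_⟩
    have h1 := SYL_tw hs hxN.1 t⁻¹ (J.inv_mem hj)
    rw [Prod.fst_inv, cj_inv_cj] at h1
    rw [hmem]
    exact ⟨(G ⊓ J).pow_mem ((conjN (J.inv_mem hj) x).2 hxN) _, h1⟩
  have hzR : ∀ r ∈ R, ∀ x, z (r * x * r⁻¹) = z x := fun r hr x =>
    VT_conj hT (fun _ h => h.1) hz (hRG hr) (hRJ hr) x
  refine finrank_eq (Kop z C) (Kop (cut z (Subgroup.centralizer (R : Set Γ))) S)
    (res S) (VT T C J) (VT T S J') ?_ ?_ ?_ ?_ ?_ c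
  · intro θ hθ
    exact kop_tw hT hz hCG SXA_le hCt hθ
  · intro θ hθ
    refine ⟨fun x hx => by rw [res_apply, if_neg hx], fun t ht hj x hx => ?_⟩
    rw [res_apply, res_apply, hθ.2 t ht (hJJ hj) x hx]
    simp only [tw_iff hSt ht hj hx]
  · -- extension
    intro η hη
    have hval : ∀ x ∈ G, ∀ t₁ ∈ T, t₁.1 ∈ J → ∀ t₂ ∈ T, t₂.1 ∈ J → tw t₁ x ∈ S → tw t₂ x ∈ S →
        η (tw t₁ x) = η (tw t₂ x) := by
      intro x hxG t₁ ht₁ hj₁ t₂ ht₂ hj₂ hx₁ hx₂
      have h1 : tw t₂ x = tw (t₂ * t₁⁻¹) (tw t₁ x) := by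
        rw [tw_mul _ _ (tw_mem t₁ hxG), tw_inv_tw t₁ hxG]
      rw [h1] at hx₂ ⊢
      obtain ⟨s, hs, hsj, hs'⟩ := hfus _ hx₁ _ (T.mul_mem ht₂ (T.inv_mem ht₁))
        (J.mul_mem hj₂ (J.inv_mem hj₁)) hx₂
      rw [← hs', hη.2 s hs hsj _ (tw_mem t₁ hxG)]
    choose! κ hκT hκJ hκS using hchoose
    refine ⟨fun x => if x ∈ C then η (tw (κ x) x) else 0,
      ⟨fun x hx => if_neg hx, fun t ht hj x hx => ?_⟩, ?_⟩
    · by_cases hxC : x ∈ C
      · have hx' := hCt t ht hj x hxC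
        simp only [hxC, hx', if_true]
        have h3 : tw (κ (tw t x)) (tw t x) = tw (κ (tw t x) * t) x := (tw_mul _ _ hx).symm
        have h4 := hκS _ hx'
        rw [h3] at h4 ⊢
        exact hval x hx _ (T.mul_mem (hκT _ hx') ht) (J.mul_mem (hκJ _ hx') hj) _ (hκT _ hxC)
          (hκJ _ hxC) h4 (hκS _ hxC)
      · have hx' : tw t x ∉ C := fun h' => hxC ((tw_iff hCt ht hj hx).1 h')
        simp only [hxC, hx', if_false]
    · funext x
      rw [res_apply]
      by_cases hx : x ∈ S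
      · simp only [hx, hSC hx, if_true]
        have h5 : tw (1 : Γ × Ex G) x = x := tw_one (hSG hx)
        have h6 := hval x (hSG hx) _ (hκT _ (hSC hx)) (hκJ _ (hSC hx)) 1 T.one_mem J.one_mem
          (hκS _ (hSC hx)) (by rw [h5]; exact hx)
        rw [h6, h5]
      · rw [if_neg hx, hη.1 x hx]
  · -- injectivity
    intro θ hθ h0
    funext x
    by_cases hx : x ∈ C
    · obtain ⟨t, ht, hj, hx'⟩ := hchoose x hx
      have h1 := congrFun h0 (tw t x)
      rw [res_apply, if_pos hx', hθ.2 t ht hj x (hCG hx)] at h1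
      exact h1
    · exact hθ.1 x hx
  · -- the two operators
    intro θ hθ
    have hθR : ∀ r ∈ R, ∀ x, θ (r * x * r⁻¹) = θ x := fun r hr x =>
      VT_conj hT hCG hθ (hRG hr) (hRJ hr) x
    have hSR : ∀ r ∈ R, ∀ x, r * x * r⁻¹ ∈ S ↔ x ∈ S := by
      intro r hr x
      by_cases hx : x ∈ G
      · rw [← tw_pair_one (n := r) hx]
        exact tw_iff hSt (hT r (hRG hr)) (hRJ' hr) hx
      · refine ⟨fun h => ?_, fun h => absurd (hSG h) hx⟩
        exfalso
        apply hx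
        have h1 := hG.conj_mem _ (hSG h) r⁻¹
        simpa [mul_assoc] using h1
    have hcent : ∀ r ∈ R, ∀ x, r * x * r⁻¹ ∈ Subgroup.centralizer (R : Set Γ) ↔
        x ∈ Subgroup.centralizer (R : Set Γ) := by
      have h1 : ∀ r ∈ R, ∀ x ∈ Subgroup.centralizer (R : Set Γ),
          r * x * r⁻¹ ∈ Subgroup.centralizer (R : Set Γ) := by
        intro r hr x hx
        have h2 : r * x * r⁻¹ = x := by
          rw [Subgroup.mem_centralizer_iff] at hx
          rw [hx r hr, mul_inv_cancel_right]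
        rwa [h2]
      intro r hr x
      refine ⟨fun h => ?_, h1 r hr x⟩
      have h2 := h1 r⁻¹ (R.inv_mem hr) _ h
      simpa [mul_assoc] using h2
    funext x
    rw [res_apply, kop_apply, kop_apply]
    by_cases hx : x ∈ S
    · rw [if_pos hx, if_pos (hSC hx), if_pos hx]
      have hxS := (hmem x).1 hx
      have hxR : ∀ r ∈ R, r * x = x * r := hxS.2.cent
      rw [← sub_eq_zero, ← finsum_sub_distrib (Set.toFinite _) (Set.toFinite _)]
      have hrx : ∀ r ∈ R, ∀ g, r * g * r⁻¹ * x = r * (g * x) * r⁻¹ := by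
        intro r hr g
        calc r * g * r⁻¹ * x = r * g * (r⁻¹ * (x * r)) * r⁻¹ := by group
          _ = r * g * (r⁻¹ * (r * x)) * r⁻¹ := by rw [hxR r hr]
          _ = r * (g * x) * r⁻¹ := by group
      refine sum_conj_eq_zero hR _ (fun r hr g => ?_) fun g hg => ?_
      · have e1 : cut z (Subgroup.centralizer (R : Set Γ)) (r * g * r⁻¹) =
            cut z (Subgroup.centralizer (R : Set Γ)) g := by
          simp only [cut, hcent r hr g, hzR r hr g]
        have e2 : res S θ (r * (g * x) * r⁻¹) = res S θ (g * x) := by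
          rw [res_apply, res_apply, hθR r hr]
          simp only [hSR r hr]
        rw [hrx r hr, hzR r hr, hθR r hr, e1, e2]
      · have hgC : g ∈ Subgroup.centralizer (R : Set Γ) := by
          rw [Subgroup.mem_centralizer_iff]
          exact hg
        rw [res_apply, cut, if_pos hgC, ← mul_sub]
        by_cases hzg : z g = 0
        · rw [hzg, zero_mul]
        · have hgN : g ∈ G ⊓ J := by
            by_contra h'
            exact hzg (hz.1 g h')
          by_cases hy : g * x ∈ S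
          · rw [if_pos hy, sub_self, mul_zero]
          · rw [if_neg hy]
            have h1 : g * x ∉ C := by
              intro h'
              refine hy (hback _ ((G ⊓ J).mul_mem hgN hxS.1) ?_ h')
              intro r hr
              exact Commute.mul_right (hg r hr) (hxR r hr)
            rw [hθ.1 _ h1, sub_self, mul_zero]
    · rw [if_neg hx, if_neg hx]

/-- The filtration. -/
theorem filtT (hLA : S_LA) {p : ℕ} [Fact p.Prime] [IsAlgClosed F] [CharP F p]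
    (hT : ∀ g ∈ G, ((g, 1) : Γ × Ex G) ∈ T)
    {J : Subgroup Γ} {z : Γ → F}
    (hz : z ∈ (VT T (G ⊓ J : Subgroup Γ) J : Submodule F (Γ → F))) (c : F) :
    mT T J * gT T z (G ⊓ J : Subgroup Γ) J c =
      ∑ᶠ R : Subgroup Γ, if IsPGroup p R ∧ R ≤ G ⊓ J then
        mT T (J ⊓ Subgroup.normalizer (R : Set Γ)) *
          gT T (cut z (Subgroup.centralizer (R : Set Γ)))
            (SA p (G ⊓ (J ⊓ Subgroup.normalizer (R : Set Γ))) R)
            (J ⊓ Subgroup.normalizer (R : Set Γ)) c else 0 := by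
  have : Fintype (Subgroup Γ) := Fintype.ofFinite _
  have h3 := main_indT hLA hT hz c (Finset.univ.filter (fun R => GoodA p (G ⊓ J) R))
    (fun R hR => (Finset.mem_filter.1 hR).2)
    (by
      intro t ht hj R hR
      rw [Finset.coe_filter] at hR ⊢
      refine ⟨Finset.mem_univ _, cj_pgroup hR.2.1, ?_⟩
      intro y hy
      rw [mem_cj] at hy
      have h1 := (conjN (G := G) hj _).2 (hR.2.2 hy)
      simpa [mul_assoc] using h1)
    (fun R _ P hP _ => Finset.mem_filter.2 ⟨Finset.mem_univ _, hP⟩)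
  have h4 : ((Finset.univ.filter (fun R => GoodA p (G ⊓ J) R) : Finset (Subgroup Γ)) :
      Set (Subgroup Γ)) = {R | GoodA p (G ⊓ J) R} := by
    ext R
    simp
  rw [h4, ← h0_eq] at h3
  rw [h3, finsum_eq_sum_of_fintype, Finset.sum_filter]
  refine Finset.sum_congr rfl fun R _ => ?_
  by_cases hR : IsPGroup p R ∧ R ≤ G ⊓ J
  · rw [if_pos hR, if_pos (show GoodA p (G ⊓ J) R from hR), filtaT hT hz c hR.1 hR.2]
  · rw [if_neg hR, if_neg (show ¬ GoodA p (G ⊓ J) R from hR)]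

end Pool.Agent.R663.GA
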