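import Pool.Agent.R663.GA.LevG

/-!
# The Galois form: fixed characters and levels in blocks
-/

set_option autoImplicit false
set_option linter.unusedSectionVars false

open scoped Classical

noncomputable section

namespace Pool.Agent.R663.GA

open Pool.Agent.Y63.AWC (IsIrreducibleCharacter irr_comp)
open Pool.Agent.Y63.NV
open Pool.Agent.Y63.KR
open Pool.Agent.R615.LV (IsLevelLE exists_power sigma_val prim_congr pow_congr' level_mono
  irr_finite')

/-- The number of `χ ∈ Irr(H)` with `bl(χ)^G = B` whose values are fixed by the automorphism `τ` of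
the field of complex numbers. -/
def numIrrIndFix {F : Type} [Field F] (red : integralClosure ℤ ℂ →+* F) {G : Type} [Group G]
    (H : Subgroup G) (B : (G → F) → F) (τ : ℂ ≃+* ℂ) : ℕ :=
  Nat.card {χ : H → ℂ // IsIrreducibleCharacter χ ∧
    (∀ f : G → F, IsClassFun f → centralValue red χ (fun x => f x) = B f) ∧
    ∀ x, τ (χ x) = χ x}

/-- The number of `χ ∈ Irr(H)` with `bl(χ)^G = B` of `p`-rationality level at most `a`. -/
def numIrrIndLE (p a : ℕ) {F : Type} [Field F] (red : integralClosure ℤ ℂ →+* F) {G : Type}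
    [Group G] (H : Subgroup G) (B : (G → F) → F) : ℕ :=
  Nat.card {χ : H → ℂ // IsIrreducibleCharacter χ ∧
    (∀ f : G → F, IsClassFun f → centralValue red χ (fun x => f x) = B f) ∧ IsLevelLE p a χ}

/-- The number of `χ ∈ Irr(H)` with `bl(χ)^G = B` of `p`-rationality level `a` (for `a ≥ 1`). -/
def numIrrIndLevel (p a : ℕ) {F : Type} [Field F] (red : integralClosure ℤ ℂ →+* F) {G : Type}
    [Group G] (H : Subgroup G) (B : (G → F) → F) : ℕ :=
  Nat.card {χ : H → ℂ // IsIrreducibleCharacter χ ∧
    (∀ f : G → F, IsClassFun f → centralValue red χ (fun x => f x) = B f) ∧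
    IsLevelLE p a χ ∧ ¬ IsLevelLE p (a - 1) χ}

variable {F : Type} [Field F] {G : Type} [Group G] [Finite G] {p : ℕ}

lemma fix_eq (red : integralClosure ℤ ℂ →+* F) (B : (G → F) → F) {τ : ℂ ≃+* ℂ} {s : ℕ}
    (hτ : ∀ z : ℂ, z ^ Nat.card G = 1 → τ z = z ^ s) (H : Subgroup G) :
    numIrrIndFix red H B τ = numPow red H B s := by
  unfold numIrrIndFix numPow
  refine Nat.card_congr (Equiv.subtypeEquivRight fun χ => and_congr_right fun hχ =>
    and_congr_right fun _ => forall_congr' fun x => ?_)
  rw [sigma_val hτ (Subgroup.card_subgroup_dvd_card H) hχ]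

theorem fixInd_congr [Fact p.Prime] [IsAlgClosed F] [CharP F p]
    (red : integralClosure ℤ ℂ →+* F) (B : (G → F) → F) (σ σ' : ℂ ≃+* ℂ)
    (h : ∀ z : ℂ, z ^ (Nat.card G / p ^ (Nat.card G).factorization p) = 1 → σ z = σ' z) :
    alternatingSum p G (fun H => (numIrrIndFix red H B σ : ℤ)) =
      alternatingSum p G (fun H => (numIrrIndFix red H B σ' : ℤ)) := by
  obtain ⟨s, hs, hσ⟩ := exists_power σ (Nat.card_pos (α := G)).ne'
  obtain ⟨s', hs', hσ'⟩ := exists_power σ' (Nat.card_pos (α := G)).ne'
  have hm : s ≡ s' [MOD Nat.card G / p ^ (Nat.card G).factorization p] := by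
    set m := Nat.card G / p ^ (Nat.card G).factorization p with hm
    have hmd : m ∣ Nat.card G := Nat.ordCompl_dvd _ _
    have hm0 : m ≠ 0 := fun h0 => (Nat.card_pos (α := G)).ne' (Nat.eq_zero_of_zero_dvd (h0 ▸ hmd))
    have hζ := Complex.isPrimitiveRoot_exp m hm0
    have h1 := h _ hζ.pow_eq_one
    have h2 : (Complex.exp (2 * Real.pi * Complex.I / m)) ^ Nat.card G = 1 := by
      obtain ⟨k, hk⟩ := hmd
      rw [hk, pow_mul, hζ.pow_eq_one, one_pow]
    rw [hσ _ h2, hσ' _ h2] at h1
    exact prim_congr hζ hm0 h1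
  simp only [fix_eq red B hσ, fix_eq red B hσ']
  exact sum_pow red B hs hs' hm

lemma numPow_one (red : integralClosure ℤ ℂ →+* F) (B : (G → F) → F) (H : Subgroup G) :
    numPow red H B 1 = numIrrInd red H B := by
  unfold numPow numIrrInd
  refine Nat.card_congr (Equiv.subtypeEquivRight fun χ => and_congr_right fun _ => ?_)
  constructor
  · rintro ⟨h1, _⟩
    exact h1
  · intro h1
    exact ⟨h1, fun x => by rw [pow_one]⟩

theorem sumInd_LE [Fact p.Prime] [IsAlgClosed F] [CharP F p]
    (red : integralClosure ℤ ℂ →+* F) (B : (G → F) → F) (a : ℕ) (ha : p = 2 → 2 ≤ a) :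
    alternatingSum p G (fun H => (numIrrIndLE p a red H B : ℤ)) =
      alternatingSum p G (fun H => (numIrrInd red H B : ℤ)) := by
  obtain ⟨t, ht, ht1, -, hlev⟩ := level_iff (p := p) (Nat.card_pos (α := G)).ne' a ha
  have e1 : ∀ H : Subgroup G, numIrrIndLE p a red H B = numPow red H B t := by
    intro H
    unfold numIrrIndLE numPow
    refine Nat.card_congr (Equiv.subtypeEquivRight fun χ => and_congr_right fun hχ =>
      and_congr_right fun _ => ?_)
    exact hlev H (Subgroup.card_subgroup_dvd_card H) χ hχ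
  simp only [e1, ← numPow_one]
  exact sum_pow red B ht (Nat.coprime_one_left _) ht1

lemma numLevelInd_add [Fact p.Prime] (red : integralClosure ℤ ℂ →+* F) (B : (G → F) → F)
    (H : Subgroup G) (a : ℕ) : (numIrrIndLevel p a red H B : ℤ) =
      (numIrrIndLE p a red H B : ℤ) - (numIrrIndLE p (a - 1) red H B : ℤ) := by
  have hfin := irr_finite' (H := H)
  have hfX : Finite {χ : H → ℂ // IsIrreducibleCharacter χ ∧
      ∀ f : G → F, IsClassFun f → centralValue red χ (fun x => f x) = B f} :=
    Finite.of_injective (fun χ => (⟨χ.1, χ.2.1⟩ : {χ : H → ℂ // IsIrreducibleCharacter χ}))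
      (fun a b h => Subtype.ext (congrArg (fun t => t.1) h))
  have key : numIrrIndLE p a red H B =
      numIrrIndLevel p a red H B + numIrrIndLE p (a - 1) red H B := by
    let X := {χ : H → ℂ // IsIrreducibleCharacter χ ∧
      ∀ f : G → F, IsClassFun f → centralValue red χ (fun x => f x) = B f}
    let P : X → Prop := fun χ => IsLevelLE p a χ.1
    let Q : X → Prop := fun χ => IsLevelLE p a χ.1 ∧ ¬ IsLevelLE p (a - 1) χ.1
    let R : X → Prop := fun χ => IsLevelLE p (a - 1) χ.1
    have e : ∀ S : (H → ℂ) → Prop, Nat.card {χ : H → ℂ // IsIrreducibleCharacter χ ∧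
        (∀ f : G → F, IsClassFun f → centralValue red χ (fun x => f x) = B f) ∧ S χ} =
        Nat.card {χ : X // S χ.1} := by
      intro S
      exact Nat.card_congr
        { toFun := fun χ => ⟨⟨χ.1, χ.2.1, χ.2.2.1⟩, χ.2.2.2⟩
          invFun := fun χ => ⟨χ.1.1, χ.1.2.1, χ.1.2.2, χ.2⟩
          left_inv := fun _ => rfl
          right_inv := fun _ => rfl }
    have eP : numIrrIndLE p a red H B = Nat.card {χ // P χ} := e _
    have eQ : numIrrIndLevel p a red H B = Nat.card {χ // Q χ} := e _
    have eR : numIrrIndLE p (a - 1) red H B = Nat.card {χ // R χ} := e _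
    rw [eP, eQ, eR, ← Nat.card_sum]
    have h1 : ∀ c, P c ↔ (Q c ∨ R c) := by
      intro c
      constructor
      · intro h
        by_cases h2 : R c
        · exact Or.inr h2
        · exact Or.inl ⟨h, h2⟩
      · rintro (h | h)
        · exact h.1
        · exact level_mono (Nat.sub_le a 1) h
    have h2 : Disjoint Q R := by
      rw [Pi.disjoint_iff]
      intro c
      rw [Prop.disjoint_iff]
      rintro ⟨h3, h4⟩
      exact h3.2 h4
    exact Nat.card_congr ((Equiv.subtypeEquivRight h1).trans (subtypeOrEquiv Q R h2))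
  rw [key]
  push_cast
  ring

theorem sumInd_level [Fact p.Prime] [IsAlgClosed F] [CharP F p]
    (red : integralClosure ℤ ℂ →+* F) (B : (G → F) → F) (a : ℕ) (_ : 1 ≤ a) (ha : p = 2 → 3 ≤ a) :
    alternatingSum p G (fun H => (numIrrIndLevel p a red H B : ℤ)) = 0 := by
  have e : (fun H : Subgroup G => (numIrrIndLevel p a red H B : ℤ)) =
      fun H : Subgroup G => (numIrrIndLE p a red H B : ℤ) - (numIrrIndLE p (a - 1) red H B : ℤ) :=
    funext fun H => numLevelInd_add red B H a
  rw [e, alternatingSum_sub, sumInd_LE red B a (fun h => by have := ha h; omega),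
    sumInd_LE red B (a - 1) (fun h => by have := ha h; omega), sub_self]

end Pool.Agent.R663.GA
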