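import Pool.Agent.R663.GA.Pow
import Pool.Agent.Y286.NV.Fin

/-!
# Reduced central characters and Galois conjugation
-/

set_option autoImplicit false

open scoped Classical Pointwise

noncomputable section

namespace Pool.Agent.R663.GA

open Polynomial
open Pool.Agent.Y63.AWC (IsIrreducibleCharacter)
open Pool.Agent.Y63.NV
open Pool.Agent.Y930.NV (Cf ind mk_out Cf_out Cf_expand ind_out om om_sum om_int irr_Cf
  R centralValue_eq redC_of ind_cast Cf_ind irr_one_ne om_ind)
open Pool.Agent.Helper884.IC (Irr mem_Irr expand B_irr B IsIrrChar IsClass)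
open Pool.Agent.R721.CD (IsRepChar mult_nat_rep expand_at)

section

variable {H : Type} [Group H] [Fintype H]

/-- the values of the characters -/
theorem val_mem (K : Subfield ℂ) (hK : ∀ z : ℂ, z ^ Nat.card H = 1 → z ∈ K) {f : H → ℂ}
    (hf : IsRepChar f) (g : H) : f g ∈ K := by
  have hcomm : ∀ a b : Subgroup.zpowers g, a * b = b * a := by
    rintro ⟨a, i, rfl⟩ ⟨b, j, rfl⟩
    apply Subtype.ext
    show g ^ i * g ^ j = g ^ j * g ^ i
    rw [← zpow_add, ← zpow_add, add_comm]
  have hc : IsRepChar (fun c : Subgroup.zpowers g => f ((Subgroup.zpowers g).subtype c)) :=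
    hf.comp (Subgroup.zpowers g).subtype
  set h : Subgroup.zpowers g → ℂ := fun c => f ((Subgroup.zpowers g).subtype c) with hh
  let g0 : Subgroup.zpowers g := ⟨g, Subgroup.mem_zpowers g⟩
  have e1 : f g = h g0 := rfl
  rw [e1, expand_at h hc.isClass g0]
  refine sum_mem fun lam hlam => ?_
  have hl := mem_Irr.mp hlam
  obtain ⟨n, hn⟩ := mult_nat_rep hc (IsRepChar.of_irr hl)
  rw [hn]
  refine mul_mem (natCast_mem K n) (hK _ ?_)
  obtain ⟨h1, h2⟩ := Pool.Agent.R677.FV.lin_of_comm hcomm hl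
  have hp : ∀ k : ℕ, lam (g0 ^ k) = lam g0 ^ k := by
    intro k
    induction k with
    | zero => simpa using h1
    | succ k ih => rw [pow_succ, h2, ih, pow_succ]
  rw [← hp]
  have : g0 ^ Nat.card H = 1 := by
    apply Subtype.ext
    simp [g0]
  rw [this, h1]

theorem om_mem (K : Subfield ℂ) (hK : ∀ z : ℂ, z ^ Nat.card H = 1 → z ∈ K) {χ : H → ℂ}
    (h : IsIrreducibleCharacter χ) (C : ConjClasses H) : om χ (ind ℂ C) ∈ K := by
  rw [om_ind χ (irr_Cf h)]
  have h1 := val_mem K hK (IsRepChar.of_irr h)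
  exact div_mem (mul_mem (natCast_mem K _) (h1 _)) (h1 _)

end

/-- reduction and automorphisms -/
theorem red_sigma {F : Type} [Field F] {p : ℕ} [Fact p.Prime] [CharP F p]
    (red : integralClosure ℤ ℂ →+* F) {n m k : ℕ} (hn : n = p ^ k * m) (hn0 : n ≠ 0) {w : ℕ}
    (hw : w ≡ 1 [MOD m]) {σ : ℂ ≃+* ℂ} (hσ : ∀ z : ℂ, z ^ n = 1 → σ z = z ^ w) {a : ℂ}
    (ha : IsIntegral ℤ a)
    (hK : a ∈ IntermediateField.adjoin ℚ {Complex.exp (2 * Real.pi * Complex.I / n)}) :
    redC red (σ a) = redC red a := by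
  set z0 : ℂ := Complex.exp (2 * Real.pi * Complex.I / n) with hz0
  have hζ0 : IsPrimitiveRoot z0 n := Complex.isPrimitiveRoot_exp n hn0
  have hint0 : IsIntegral ℤ z0 := hζ0.isIntegral (Nat.pos_of_ne_zero hn0)
  have hintQ : IsIntegral ℚ z0 := hint0.tower_top
  have hne : NeZero n := ⟨hn0⟩
  have hcyc : IsCyclotomicExtension {n} ℚ (IntermediateField.adjoin ℚ {z0}) := by
    change IsCyclotomicExtension {n} ℚ (IntermediateField.adjoin ℚ {z0}).toSubalgebra
    rw [IntermediateField.adjoin_simple_toSubalgebra_of_isAlgebraic hintQ.isAlgebraic]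
    exact hζ0.adjoin_isCyclotomicExtension ℚ
  set K := IntermediateField.adjoin ℚ {z0} with hKd
  set ζ : K := ⟨z0, IntermediateField.mem_adjoin_simple_self ℚ z0⟩ with hζ
  have hζp : IsPrimitiveRoot ζ n := by
    refine IsPrimitiveRoot.of_map_of_injective (f := algebraMap K ℂ) ?_
      (algebraMap K ℂ).injective
    exact hζ0
  have hcl := IsCyclotomicExtension.Rat.isIntegralClosure_adjoin_singleton hζp
  have hy : IsIntegral ℤ (⟨a, hK⟩ : K) :=
    (isIntegral_algebraMap_iff (A := K) (B := ℂ) (R := ℤ) (x := ⟨a, hK⟩)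
      Subtype.val_injective).1 ha
  obtain ⟨y, hy'⟩ := hcl.isIntegral_iff.1 hy
  have hymem : ∀ w : K, w ∈ Algebra.adjoin ℤ {ζ} → ∃ g : ℤ[X], aeval ζ g = w := by
    intro w hw
    rw [Algebra.adjoin_singleton_eq_range_aeval] at hw
    exact hw
  obtain ⟨g, hg⟩ := hymem y.1 y.2
  have e2 : aeval z0 g = (((aeval ζ g : K)) : ℂ) := by
    have h3 := aeval_algHom_apply ((algebraMap K ℂ).toIntAlgHom) ζ g
    exact h3
  have e3 : (aeval ζ g : K) = ⟨a, hK⟩ := by
    rw [← hy']
    exact hg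
  have e4 : a = aeval z0 g := by
    rw [e2, e3]
  have hred : ∀ z : ℂ, ∀ hz : IsIntegral ℤ z, redC red (aeval z g) =
      aeval (red ⟨z, hz⟩) g := by
    intro z hz
    have h1 : aeval z g = ((aeval (⟨z, hz⟩ : integralClosure ℤ ℂ) g : integralClosure ℤ ℂ) : ℂ) := by
      have h3 := aeval_algHom_apply ((integralClosure ℤ ℂ).val) (⟨z, hz⟩ : integralClosure ℤ ℂ) g
      exact h3
    have h2 : IsIntegral ℤ (aeval z g) := by
      rw [h1]
      exact (aeval (⟨z, hz⟩ : integralClosure ℤ ℂ) g : integralClosure ℤ ℂ).2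
    rw [redC_of red h2]
    have h4 : (⟨aeval z g, h2⟩ : integralClosure ℤ ℂ) =
        aeval (⟨z, hz⟩ : integralClosure ℤ ℂ) g := Subtype.ext h1
    rw [h4]
    exact (aeval_algHom_apply (red.toIntAlgHom) (⟨z, hz⟩ : integralClosure ℤ ℂ) g).symm
  have e5 : σ a = aeval (z0 ^ w) g := by
    rw [e4, ← hσ z0 hζ0.pow_eq_one]
    exact (aeval_algHom_apply ((σ : ℂ →+* ℂ).toIntAlgHom) z0 g).symm
  have hint1 : IsIntegral ℤ (z0 ^ w) := hint0.pow w
  rw [e5, hred (z0 ^ w) hint1, e4, hred z0 hint0]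
  congr 2
  have e6 : (⟨z0 ^ w, hint1⟩ : integralClosure ℤ ℂ) = ⟨z0, hint0⟩ ^ w := Subtype.ext rfl
  rw [e6, map_pow]
  set u := red ⟨z0, hint0⟩ with hu
  have h5 : u ^ n = 1 := by
    rw [hu, ← map_pow]
    have : (⟨z0, hint0⟩ : integralClosure ℤ ℂ) ^ n = 1 := Subtype.ext hζ0.pow_eq_one
    rw [this, map_one]
  have h6 : u ^ m = 1 := by
    rw [hn] at h5
    have : ExpChar F p := ExpChar.prime Fact.out
    exact (ExpChar.pow_prime_pow_mul_eq_one_iff p k m u).1 h5
  rw [pow_eq_pow_mod w h6, hw, ← pow_eq_pow_mod 1 h6, pow_one]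

section

variable {F : Type} [Field F] {p : ℕ} [Fact p.Prime] [CharP F p]
  (red : integralClosure ℤ ℂ →+* F) {H : Type} [Group H] [Fintype H]

theorem mk_pow_iff {v : ℕ} (hv : v.Coprime (Nat.card H)) (x y : H) :
    ConjClasses.mk (y ^ v) = ConjClasses.mk (x ^ v) ↔ ConjClasses.mk y = ConjClasses.mk x := by
  rw [ConjClasses.mk_eq_mk_iff_isConj, ConjClasses.mk_eq_mk_iff_isConj, isConj_iff, isConj_iff]
  refine exists_congr fun c => ?_
  rw [← conj_pow]
  exact (powE H hv).injective.eq_iff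

theorem om_pow {χ : H → ℂ} {v : ℕ} (hv : v.Coprime (Nat.card H)) (x : H) :
    om (fun y => χ (y ^ v)) (ind ℂ (ConjClasses.mk x)) = om χ (ind ℂ (ConjClasses.mk (x ^ v))) := by
  unfold om
  have e0 : (fun y => χ (y ^ v)) 1 = χ 1 := by
    show χ (1 ^ v) = χ 1
    rw [one_pow]
  rw [e0]
  congr 1
  rw [← Equiv.sum_comp (powE H hv) (fun y => ind ℂ (ConjClasses.mk (x ^ v)) y * χ y)]
  refine Finset.sum_congr rfl fun y _ => ?_
  rw [powE_apply]
  congr 1
  unfold ind
  by_cases hy : ConjClasses.mk y = ConjClasses.mk x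
  · rw [if_pos hy, if_pos ((mk_pow_iff hv x y).2 hy)]
  · rw [if_neg hy, if_neg (fun h => hy ((mk_pow_iff hv x y).1 h))]

theorem om_red {χ : H → ℂ} (h : IsIrreducibleCharacter χ) {v : ℕ} (hv : v.Coprime (Nat.card H))
    (hv1 : v ≡ 1 [MOD Nat.card H / p ^ (Nat.card H).factorization p]) (x : H) :
    redC red (om (fun y => χ (y ^ v)) (ind ℂ (ConjClasses.mk x))) =
      redC red (om χ (ind ℂ (ConjClasses.mk x))) := by
  have hn0 : Nat.card H ≠ 0 := Nat.card_pos.ne'
  obtain ⟨σ, hσ⟩ := Pool.Agent.R677.FV.exists_sigma (Nat.card H) hn0 v hv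
  have hgv : ∀ y, σ (χ y) = χ (y ^ v) := fun y =>
    Pool.Agent.R677.FV.galois_value (IsRepChar.of_irr h) σ v hσ y
  have e1 : om (fun y => χ (y ^ v)) (ind ℂ (ConjClasses.mk x)) =
      σ (om χ (ind ℂ (ConjClasses.mk x))) := by
    unfold om
    rw [map_div₀, map_sum, hgv 1]
    congr 1
    refine Finset.sum_congr rfl fun y _ => ?_
    rw [map_mul, hgv y]
    congr 1
    unfold ind
    split_ifs
    · rw [map_one]
    · rw [map_zero]
  have hint : IsIntegral ℤ (om χ (ind ℂ (ConjClasses.mk x))) := by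
    rw [← ind_cast]
    exact om_int h (Cf_ind ℤ _)
  rw [e1]
  have hnm : Nat.card H = p ^ (Nat.card H).factorization p *
      (Nat.card H / p ^ (Nat.card H).factorization p) :=
    (Nat.ordProj_mul_ordCompl_eq_self _ _).symm
  refine red_sigma red hnm hn0 hv1 hσ hint ?_
  have hζ := Complex.isPrimitiveRoot_exp (Nat.card H) hn0
  have : NeZero (Nat.card H) := ⟨hn0⟩
  refine om_mem (IntermediateField.adjoin ℚ
    {Complex.exp (2 * Real.pi * Complex.I / (Nat.card H : ℕ))}).toSubfield ?_ h _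
  intro z hz
  obtain ⟨i, -, rfl⟩ := hζ.eq_pow_of_pow_eq_one hz
  exact pow_mem (IntermediateField.mem_adjoin_simple_self ℚ _) i

theorem R_pow {χ : H → ℂ} (h : IsIrreducibleCharacter χ) {v : ℕ} (hv : v.Coprime (Nat.card H))
    (hv1 : v ≡ 1 [MOD Nat.card H / p ^ (Nat.card H).factorization p]) (x : H) :
    R red χ (ind ℤ (ConjClasses.mk (x ^ v))) = R red χ (ind ℤ (ConjClasses.mk x)) := by
  unfold R
  rw [ind_cast, ind_cast, ← om_pow hv, om_red red h hv hv1]

theorem cv_fin {χ : H → ℂ} (h : IsIrreducibleCharacter χ) (f : H → F) :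
    centralValue red χ f = ∑ᶠ C : ConjClasses H, f C.out * R red χ (ind ℤ C) := by
  unfold centralValue R
  refine finsum_congr fun C => ?_
  rw [ind_cast, om_ind χ (irr_Cf h)]

/-- **The reduced central characters are invariant under the power maps which are trivial on the
elements of order prime to `p`.** -/
theorem gal {χ : H → ℂ} (h : IsIrreducibleCharacter χ) {f : H → F} (hf : Cf f) {v : ℕ}
    (hv : v.Coprime (Nat.card H))
    (hv1 : v ≡ 1 [MOD Nat.card H / p ^ (Nat.card H).factorization p]) :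
    centralValue red χ (fun x => f (x ^ v)) = centralValue red χ f := by
  rw [cv_fin red h, cv_fin red h]
  let φ : ConjClasses H → ConjClasses H := fun C => ConjClasses.mk (C.out ^ v)
  have hφ : Function.Bijective φ := by
    rw [← Finite.injective_iff_bijective]
    intro C D hCD
    have h1 := (mk_pow_iff hv D.out C.out).1 hCD
    rwa [mk_out, mk_out] at h1
  refine Eq.trans ?_ (finsum_comp_equiv (Equiv.ofBijective φ hφ))
  refine finsum_congr fun C => ?_
  show f (C.out ^ v) * R red χ (ind ℤ C) =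
    f (ConjClasses.mk (C.out ^ v)).out * R red χ (ind ℤ (ConjClasses.mk (C.out ^ v)))
  rw [R_pow red h hv hv1, mk_out, Cf_out hf rfl]

theorem cv_pp {χ : H → ℂ} (h : IsIrreducibleCharacter χ) {f : H → F} (hf : Cf f) {v : ℕ}
    (hv : v.Coprime (Nat.card H)) :
    centralValue red (fun y => χ (y ^ v)) (fun x => f (x ^ v)) = centralValue red χ f := by
  rw [cv_fin red h, cv_fin red (irr_pow h hv)]
  let φ : ConjClasses H → ConjClasses H := fun C => ConjClasses.mk (C.out ^ v)
  have hφ : Function.Bijective φ := by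
    rw [← Finite.injective_iff_bijective]
    intro C D hCD
    have h1 := (mk_pow_iff hv D.out C.out).1 hCD
    rwa [mk_out, mk_out] at h1
  refine Eq.trans ?_ (finsum_comp_equiv (Equiv.ofBijective φ hφ))
  refine finsum_congr fun C => ?_
  show f (C.out ^ v) * R red (fun y => χ (y ^ v)) (ind ℤ C) =
    f (ConjClasses.mk (C.out ^ v)).out * R red χ (ind ℤ (ConjClasses.mk (C.out ^ v)))
  rw [Cf_out hf (C := ConjClasses.mk (C.out ^ v)) rfl]
  congr 1
  unfold R
  rw [ind_cast, ind_cast, ← om_pow hv, mk_out]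

/-- the reduced central characters of Galois conjugate characters -/
theorem cv_pow {χ : H → ℂ} (h : IsIrreducibleCharacter χ) (f : H → F) {v : ℕ}
    (hv : v.Coprime (Nat.card H))
    (hv1 : v ≡ 1 [MOD Nat.card H / p ^ (Nat.card H).factorization p]) :
    centralValue red (fun y => χ (y ^ v)) f = centralValue red χ f := by
  rw [cv_fin red h, cv_fin red (irr_pow h hv)]
  refine finsum_congr fun C => ?_
  congr 1
  unfold R
  rw [ind_cast, ← mk_out C, om_red red h hv hv1]

end

end Pool.Agent.R663.GA
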