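import Pool.Agent.R663.GA.SumG

/-!
# Levels
-/

set_option autoImplicit false
set_option linter.unusedSectionVars false

open scoped Classical Pointwise

noncomputable section

namespace Pool.Agent.R663.GA

open Pool.Agent.Y63.AWC (IsIrreducibleCharacter irr_comp)
open Pool.Agent.Y63.NV
open Pool.Agent.Y63.KR
open Pool.Agent.R615.LV (IsLevelLE exists_power sigma_val prim_congr pow_congr')

/-- the characters of level at most `a` are the characters fixed by a power map (after
`Pool.Agent.R615.LV.numIrrLE_eq`) -/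
theorem level_iff {p : ℕ} [Fact p.Prime] {N : ℕ} (hN0 : N ≠ 0) (a : ℕ) (ha : p = 2 → 2 ≤ a) :
    ∃ t : ℕ, t.Coprime N ∧ t ≡ 1 [MOD N / p ^ N.factorization p] ∧
      (∃ b : ℕ, t ^ p ^ b ≡ 1 [MOD N] ∨ a = 0) ∧
      ∀ (H : Type) [Group H] [Finite H], Nat.card H ∣ N → ∀ χ : H → ℂ,
        IsIrreducibleCharacter χ → (IsLevelLE p a χ ↔ ∀ x, χ (x ^ t) = χ x) := by
  have hp : p.Prime := Fact.out
  set n := N.factorization p with hn
  set m := N / p ^ n with hm
  have hmv : p ^ n * m = N := Nat.ordProj_mul_ordCompl_eq_self _ _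
  have hpm : ¬ p ∣ m := Nat.not_dvd_ordCompl hp hN0
  obtain ⟨t, ht1, ht2, ht3, ht4⟩ := exists_exponent (p := p) ha (n + a) m hpm
  have hpt : t.Coprime p := ((Nat.Prime.coprime_iff_not_dvd hp).2 ht1).symm
  have hmt : t.Coprime m := by
    have := ht3.gcd_eq
    rw [Nat.gcd_one_left] at this
    exact this
  have hM0 : p ^ (n + a) * m ≠ 0 := mul_ne_zero (pow_pos hp.pos _).ne'
    (fun h0 => hN0 (by rw [← hmv, h0, mul_zero]))
  have htN : t.Coprime (p ^ (n + a) * m) := Nat.Coprime.mul_right (hpt.pow_right _) hmt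
  have hNM : N ∣ p ^ (n + a) * m := by
    rw [← hmv]
    exact mul_dvd_mul (pow_dvd_pow p (Nat.le_add_right n a)) (dvd_refl m)
  have htam : t ≡ 1 [MOD p ^ a * m] := by
    rw [← Nat.modEq_and_modEq_iff_modEq_mul (Nat.Coprime.pow_left _
      ((Nat.Prime.coprime_iff_not_dvd hp).2 hpm))]
    exact ⟨ht2, ht3⟩
  refine ⟨t, htN.coprime_dvd_right hNM, ht3, ?_, ?_⟩
  · by_cases ha0 : a = 0
    · exact ⟨0, Or.inr ha0⟩
    · -- powers of elements congruent to `1` modulo `p`
      have hk : ∀ k : ℕ, t ^ p ^ k ≡ 1 [MOD p ^ (k + 1)] := by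
        intro k
        have h0 : (p : ℤ) ∣ (t : ℤ) - 1 := by
          have h1 : t ≡ 1 [MOD p] := ht2.of_dvd (dvd_pow_self p ha0)
          have h2 := (Int.natCast_modEq_iff).2 h1
          rw [Nat.cast_one] at h2
          exact h2.symm.dvd
        have h3 := dvd_sub_pow_of_dvd_sub h0 k
        rw [one_pow] at h3
        refine (Int.natCast_modEq_iff).1 ?_
        push_cast
        exact (Int.modEq_iff_dvd.2 h3).symm
      refine ⟨n, Or.inl ?_⟩
      rw [← hmv, ← Nat.modEq_and_modEq_iff_modEq_mul (Nat.Coprime.pow_left _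
        ((Nat.Prime.coprime_iff_not_dvd hp).2 hpm))]
      refine ⟨(hk n).of_dvd (pow_dvd_pow p (Nat.le_succ n)), ?_⟩
      have h2 := ht3.pow (p ^ n)
      rwa [one_pow] at h2
  · intro H _ _ hHN χ hχ
    have hH0 : Nat.card H ≠ 0 := Nat.card_pos.ne'
    have hmH : Nat.card H / p ^ (Nat.card H).factorization p ∣ m :=
      Nat.ordCompl_dvd_ordCompl_of_dvd hHN p
    constructor
    · intro hlev x
      obtain ⟨σ, hσ⟩ := Pool.Agent.R677.FV.exists_sigma (p ^ (n + a) * m) hM0 t htN
      rw [← sigma_val hσ (hHN.trans hNM) hχ]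
      refine hlev σ (fun z hz => ?_) x
      have hz2 : z ^ (p ^ a * m) = 1 := by
        obtain ⟨k, hk⟩ := mul_dvd_mul (dvd_refl (p ^ a)) hmH
        rw [hk, pow_mul, hz, one_pow]
      have hz3 : z ^ (p ^ (n + a) * m) = 1 := by
        rw [pow_add, mul_assoc, mul_comm, pow_mul, hz2, one_pow]
      rw [hσ z hz3]
      rw [pow_congr' hz2 htam, pow_one]
    · intro hfix σ hσ x
      set mH := Nat.card H / p ^ (Nat.card H).factorization p with hmHd
      have hmvH : p ^ (Nat.card H).factorization p * mH = Nat.card H :=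
        Nat.ordProj_mul_ordCompl_eq_self _ _
      have hn0 : p ^ (a + 1) * Nat.card H ≠ 0 := mul_ne_zero (pow_pos hp.pos _).ne' hH0
      obtain ⟨s, hs, hσs⟩ := exists_power σ hn0
      rw [sigma_val hσs (dvd_mul_left _ _) hχ]
      have hps : ¬ p ∣ s := by
        have h1 : s.Coprime p := hs.coprime_dvd_right
          ((dvd_pow_self p (Nat.succ_ne_zero a)).trans (dvd_mul_right _ _))
        exact (Nat.Prime.coprime_iff_not_dvd hp).1 h1.symm
      have hmH0 : p ^ a * mH ≠ 0 := mul_ne_zero (pow_pos hp.pos _).ne'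
        (fun h0 => hH0 (by rw [← hmvH, h0, mul_zero]))
      have hs1 : s ≡ 1 [MOD p ^ a * mH] := by
        have hζ := Complex.isPrimitiveRoot_exp (p ^ a * mH) hmH0
        have h1 := hσ _ hζ.pow_eq_one
        have h2 : (Complex.exp (2 * Real.pi * Complex.I / (p ^ a * mH : ℕ))) ^
            (p ^ (a + 1) * Nat.card H) = 1 := by
          obtain ⟨k, hk⟩ : p ^ a * mH ∣ p ^ (a + 1) * Nat.card H :=
            mul_dvd_mul (pow_dvd_pow p (Nat.le_succ a)) (Nat.ordCompl_dvd _ _)
          rw [hk, pow_mul, hζ.pow_eq_one, one_pow]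
        rw [hσs _ h2] at h1
        refine prim_congr hζ hmH0 ?_
        rw [h1, pow_one]
      obtain ⟨j, hj⟩ := ht4 s hps (hs1.of_dvd (dvd_mul_right _ _))
      have hle : (Nat.card H).factorization p ≤ n + a :=
        ((Nat.factorization_le_iff_dvd hH0 hN0).2 hHN p).trans (Nat.le_add_right n a)
      have hsj : s ≡ t ^ j [MOD Nat.card H] := by
        rw [← hmvH, ← Nat.modEq_and_modEq_iff_modEq_mul]
        · refine ⟨hj.of_dvd (pow_dvd_pow p hle), ?_⟩
          have h2 : t ^ j ≡ 1 ^ j [MOD mH] := (ht3.of_dvd hmH).pow j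
          rw [one_pow] at h2
          exact (hs1.of_dvd (dvd_mul_left _ _)).trans h2.symm
        · exact Nat.Coprime.pow_left _ ((Nat.Prime.coprime_iff_not_dvd hp).mpr
            (Nat.not_dvd_ordCompl hp hH0))
      have h5 : x ^ s = x ^ t ^ j := by
        rw [pow_eq_pow_iff_modEq]
        exact hsj.of_dvd (orderOf_dvd_natCard x)
      have h6 : ∀ (i : ℕ) (y : H), χ (y ^ t ^ i) = χ y := by
        intro i
        induction i with
        | zero => intro y; rw [pow_zero, pow_one]
        | succ i ih => intro y; rw [pow_succ, pow_mul, hfix, ih]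
      rw [h5, h6]

end Pool.Agent.R663.GA
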