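import Pool.Agent.R663.GA.BlkE

/-!
# The equivariant form
-/

set_option autoImplicit false
set_option linter.unusedSectionVars false

open scoped Classical Pointwise

noncomputable section

namespace Pool.Agent.R663.GA

open Pool.Agent.Y63.AWC (IsIrreducibleCharacter irr_comp)
open Pool.Agent.Y63.NV
open Pool.Agent.Y63.NV.B286 (conv_class single_class)
open Pool.Agent.Y63.KR (IsPChain chainStabilizer)
open Pool.Agent.Y930.NV (Cf irr_Cf)
open Pool.Agent.Y286.NV (centralValue_comp irr_class)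
open Pool.Agent.R663.KRB

variable {F : Type} [Field F]
variable {Γ : Type} [Group Γ] [Finite Γ] {G : Subgroup Γ} {p : ℕ} [hG : G.Normal]

/-- the twisted conjugation on `G` -/
def op (t : Γ × Ex G) (x : G) : G := ⟨tw t x, tw_mem t x.2⟩

/-- conjugation on `G` -/
def cG (a : Γ) : G ≃* G where
  toFun x := ⟨a * x * a⁻¹, hG.conj_mem x x.2 a⟩
  invFun x := ⟨a⁻¹ * x * a, by
    have h := hG.conj_mem x x.2 a⁻¹
    rwa [inv_inv] at h⟩
  left_inv x := Subtype.ext (by
    show a⁻¹ * (a * x * a⁻¹) * a = x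
    group)
  right_inv x := Subtype.ext (by
    show a * (a⁻¹ * x * a) * a⁻¹ = x
    group)
  map_mul' x y := Subtype.ext (by
    show a * (x * y) * a⁻¹ = a * x * a⁻¹ * (a * y * a⁻¹)
    group)

theorem op_eq (t : Γ × Ex G) (x : G) : op t x = (cG t.1 x) ^ (t.2 : ZMod (Nat.card G)).val :=
  Subtype.ext rfl

theorem op_class (t : Γ × Ex G) {f : G → F} (hf : IsClassFun f) :
    IsClassFun (fun x => f (op t x)) := by
  intro g x
  show f (op t (g * x * g⁻¹)) = f (op t x)
  rw [op_eq, op_eq, map_mul, map_mul, map_inv, conj_pow, hf]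

theorem op_one' (t : Γ × Ex G) : op t (1 : G) = 1 := by
  rw [op_eq, map_one, one_pow]

theorem op_conv (t : Γ × Ex G) {f g : G → F} (hf : IsClassFun f) (hg : IsClassFun g) :
    conv (fun x => f (op t x)) (fun x => g (op t x)) = fun x => conv f g (op t x) := by
  have : Fintype G := Fintype.ofFinite G
  funext x
  rw [op_eq, conv_pow hf hg (ex_cop t.2)]
  unfold conv
  conv_rhs => rw [← finsum_comp_equiv (cG (G := G) t.1).toEquiv]
  refine finsum_congr fun y => ?_
  show f (op t y) * g (op t (y⁻¹ * x)) = f ((cG t.1 y) ^ _) * g (((cG t.1 y)⁻¹ * cG t.1 x) ^ _)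
  rw [op_eq, op_eq, map_mul, map_inv]

/-- the elements which fix a functional -/
def StB (B : (G → F) → F) : Subgroup (Γ × Ex G) where
  carrier := {t | ∀ f : G → F, IsClassFun f → B (fun x => f (op t x)) = B f}
  one_mem' := by
    intro f _
    congr 1
    funext x
    congr 1
    exact Subtype.ext (tw_one x.2)
  mul_mem' := by
    intro s t hs ht f hf
    have h1 : (fun x => f (op (s * t) x)) = fun x => (fun y => f (op s y)) (op t x) := by
      funext x
      show f (op (s * t) x) = f (op s (op t x))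
      congr 1
      exact Subtype.ext (tw_mul s t x.2)
    rw [h1, ht _ (op_class s hf), hs f hf]
  inv_mem' := by
    intro t ht f hf
    have h1 : f = fun x => (fun y => f (op t⁻¹ y)) (op t x) := by
      funext x
      show f x = f (op t⁻¹ (op t x))
      congr 1
      exact Subtype.ext (tw_inv_tw t x.2).symm
    have h2 := ht (fun y => f (op t⁻¹ y)) (op_class t⁻¹ hf)
    rw [← h1] at h2
    exact h2.symm

theorem mem_StB {B : (G → F) → F} {t : Γ × Ex G} :
    t ∈ StB B ↔ ∀ f : G → F, IsClassFun f → B (fun x => f (op t x)) = B f := Iff.rfl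

theorem G1_le (B : (G → F) → F) : G1 G ≤ StB B := by
  intro t ht f hf
  obtain ⟨h1, h2⟩ := mem_G1.1 ht
  congr 1
  funext x
  have h3 : op t x = ⟨t.1, h1⟩ * x * ⟨t.1, h1⟩⁻¹ := by
    apply Subtype.ext
    have h4 : t = (t.1, 1) := Prod.ext rfl h2
    show tw t x = t.1 * x * t.1⁻¹
    conv_lhs => rw [h4]
    exact tw_pair_one x.2
  rw [h3, hf]

omit hG in
/-- the exponents acting trivially on the elements of order prime to `p` -/
def KP (p : ℕ) (G : Subgroup Γ) (v : Ex G) : Prop :=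
  (v : ZMod (Nat.card G)).val ≡ 1 [MOD Nat.card G / p ^ (Nat.card G).factorization p]

omit hG in
theorem KP_sub {J : Subgroup Γ} {v : Ex G} (hv : KP p G v) :
    (v : ZMod (Nat.card G)).val ≡ 1 [MOD Nat.card ↥(G ⊓ J) /
      p ^ (Nat.card ↥(G ⊓ J)).factorization p] :=
  hv.of_dvd (Nat.ordCompl_dvd_ordCompl_of_dvd (Subgroup.card_dvd_of_le inf_le_left) p)

omit hG in
theorem ex_copJ (J : Subgroup Γ) (v : Ex G) :
    ((v : ZMod (Nat.card G)).val).Coprime (Nat.card ↥(G ⊓ J)) :=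
  Nat.Coprime.coprime_dvd_right (Subgroup.card_dvd_of_le inf_le_left) (ex_cop v)

/-- invariance of the functional of a character under the power maps -/
theorem KP_StB [Fact p.Prime] [CharP F p] (red : integralClosure ℤ ℂ →+* F) {J : Subgroup Γ}
    {χ : ↥(G ⊓ J) → ℂ} (hχ : IsIrreducibleCharacter χ) {v : Ex G} (hv : KP p G v) :
    ((1, v) : Γ × Ex G) ∈ StB (mE red G J χ) := by
  have : Fintype ↥(G ⊓ J) := Fintype.ofFinite _
  intro f hf
  have h1 := gal red hχ (f := fun x : ↥(G ⊓ J) => f ⟨x, x.2.1⟩)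
    (fun a x => hf ⟨a, a.2.1⟩ ⟨x, x.2.1⟩) (ex_copJ J v) (KP_sub hv)
  rw [mE, mE, ← h1]
  congr 1
  funext x
  show f (op (1, v) ⟨x, x.2.1⟩) = f ⟨((x ^ (v : ZMod (Nat.card G)).val : ↥(G ⊓ J)) : Γ), _⟩
  congr 1
  apply Subtype.ext
  show (1 * (x : Γ) * 1⁻¹) ^ (v : ZMod (Nat.card G)).val = (x : Γ) ^ (v : ZMod (Nat.card G)).val
  rw [one_mul, inv_one, mul_one]

/-- conjugation on `G ⊓ J` -/
def cJ {J : Subgroup Γ} {a : Γ} (ha : a ∈ J) : ↥(G ⊓ J) ≃* ↥(G ⊓ J) where
  toFun x := ⟨a * x * a⁻¹, (conjN ha (x : Γ)).2 x.2⟩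
  invFun x := ⟨a⁻¹ * x * a, by
    have h1 := (conjN (G := G) (J.inv_mem ha) (x : Γ)).2 x.2
    rwa [inv_inv] at h1⟩
  left_inv x := Subtype.ext (by
    show a⁻¹ * (a * x * a⁻¹) * a = x
    group)
  right_inv x := Subtype.ext (by
    show a * (a⁻¹ * x * a) * a⁻¹ = x
    group)
  map_mul' x y := Subtype.ext (by
    show a * (x * y) * a⁻¹ = a * x * a⁻¹ * (a * y * a⁻¹)
    group)

/-- invariance of the functional of a fixed character -/
theorem fix_StB (red : integralClosure ℤ ℂ →+* F) {J : Subgroup Γ}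
    {χ : ↥(G ⊓ J) → ℂ} (hχ : IsIrreducibleCharacter χ) {t : Γ × Ex G} (ht : t.1 ∈ J)
    (hfix : ∀ x y : ↥(G ⊓ J), (y : Γ) = tw t x → χ y = χ x) :
    t ∈ StB (mE red G J χ) := by
  have : Fintype ↥(G ⊓ J) := Fintype.ofFinite _
  intro f hf
  have hψ := irr_pow hχ (ex_copJ J t.2)
  have h1 : χ = fun x => (fun y => χ (y ^ (t.2 : ZMod (Nat.card G)).val)) (cJ ht x) := by
    funext x
    exact (hfix x ((cJ ht x) ^ (t.2 : ZMod (Nat.card G)).val) rfl).symm
  have hcf : IsClassFun (fun x : ↥(G ⊓ J) => f ⟨x, x.2.1⟩) :=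
    fun a x => hf ⟨a, a.2.1⟩ ⟨x, x.2.1⟩
  have hcf2 : IsClassFun (fun x : ↥(G ⊓ J) =>
      (fun x : ↥(G ⊓ J) => f ⟨x, x.2.1⟩) (x ^ (t.2 : ZMod (Nat.card G)).val)) := by
    intro a x
    show (fun x : ↥(G ⊓ J) => f ⟨x, x.2.1⟩) ((a * x * a⁻¹) ^ (t.2 : ZMod (Nat.card G)).val) = _
    rw [conj_pow]
    exact hcf a _
  have h2 := centralValue_comp red (cJ (G := G) ht)
    (fun y : ↥(G ⊓ J) => χ (y ^ (t.2 : ZMod (Nat.card G)).val)) (irr_class hψ)
    (fun x : ↥(G ⊓ J) =>
      (fun x : ↥(G ⊓ J) => f ⟨x, x.2.1⟩) (x ^ (t.2 : ZMod (Nat.card G)).val)) hcf2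
  rw [← h1, cv_pp red hχ (f := fun x : ↥(G ⊓ J) => f ⟨x, x.2.1⟩) hcf (ex_copJ J t.2)] at h2
  rw [mE, mE, ← h2]
  rfl

/-- the number of characters in `B` fixed by a twisted conjugation -/
def cntE (red : integralClosure ℤ ℂ →+* F) (G J : Subgroup Γ) (B : (G → F) → F)
    (t : Γ × Ex G) : ℕ :=
  Nat.card {χ : ↥(G ⊓ J) → ℂ // (IsIrreducibleCharacter χ ∧
    ∀ f : G → F, IsClassFun f → mE red G J χ f = B f) ∧
      ∀ x y : ↥(G ⊓ J), (y : Γ) = tw t x → χ y = χ x}

/-- the sum over a coset -/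
def AC (red : integralClosure ℤ ℂ →+* F) (J : Subgroup Γ) (B : (G → F) → F)
    (t : Γ × Ex G) : ℕ :=
  ∑ᶠ g : G1 G, if (g.1 * t).1 ∈ J then cntE red G J B (g.1 * t) else 0

variable {ν : Ex G →* Ex G}

theorem main1 [Fact p.Prime] [IsAlgClosed F] [CharP F p] (hν : KQ p ν)
    (red : integralClosure ℤ ℂ →+* F)
    {B : (G → F) → F} (hB : IsBlock B) {t : Γ × Ex G} (ht1 : t ∈ StB B)
    (ht2 : ph ν t ∈ StB B) [Fintype (CH p G)] :
    ∑ σ : CH p G, (-1 : ℤ) ^ σ.1.ncard * (AC red (chainStabilizer σ.1) B t : ℤ) =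
      ∑ σ : CH p G, (-1 : ℤ) ^ σ.1.ncard * (AC red (chainStabilizer σ.1) B (ph ν t) : ℤ) := by
  have hInf : Infinite F := inferInstance
  have hfQ := finE G
  have hfS : Finite (StB B) := inferInstance
  have hT : G1 G ⊔ Subgroup.zpowers t ≤ StB B := sup_le (G1_le B) ((Subgroup.zpowers_le).2 ht1)
  have hT1 : T1 ν (G1 G ⊔ Subgroup.zpowers t) ≤ StB B := by
    intro s hs
    obtain ⟨u, hu, rfl⟩ := mem_T1.1 hs
    exact (sup_le (G1_le B) ((Subgroup.zpowers_le).2 ht2)) (ph_mem hu)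
  have hfI : ∀ σ : CH p G, Finite {χ : ↥(G ⊓ chainStabilizer σ.1) → ℂ //
      IsIrreducibleCharacter χ} := fun σ => Pool.Agent.Y171.NV.irr_fin _
  obtain ⟨z, hz1, hz2, hz3, hz4⟩ := sep_inv (P := StB B) (fun t x => op t.1 x)
    (fun x => Subtype.ext (tw_one x.2)) (fun s t x => Subtype.ext (tw_mul s.1 t.1 x.2))
    (fun t f hf => op_class t.1 hf) (fun t => op_one' t.1)
    (fun t f g hf hg => op_conv t.1 hf hg)
    (I := Σ σ : CH p G, {χ : ↥(G ⊓ chainStabilizer σ.1) → ℂ // IsIrreducibleCharacter χ})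
    (fun i => mE red G (chainStabilizer i.1.1) i.2.1)
    (fun i => blkE red i.1.2.1 i.1.2.2 i.2.2) hB (fun t => t.2)
  -- the extension by zero
  let z' : Γ → F := fun x => if hx : x ∈ G then z ⟨x, hx⟩ else 0
  have hz' : ∀ x (hx : x ∈ G), z' x = z ⟨x, hx⟩ := fun x hx => dif_pos hx
  have hzV : z' ∈ (VT (StB B) G ⊤ : Submodule F (Γ → F)) := by
    refine ⟨fun x hx => dif_neg hx, fun s hs _ x hx => ?_⟩
    rw [hz' x hx, hz' _ (tw_mem s hx)]
    exact hz2 ⟨s, hs⟩ ⟨x, hx⟩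
  have hcnt : ∀ (σ : CH p G) (s : Γ × Ex G), FX red G (chainStabilizer σ.1) z' 0 s =
      cntE red G (chainStabilizer σ.1) B s := by
    intro σ s
    unfold FX cntE
    refine Nat.card_congr (Equiv.subtypeEquivRight fun χ => and_congr_left fun _ =>
      and_congr_right fun hχ => ?_)
    have e1 : centralValue red χ (fun x : ↥(G ⊓ chainStabilizer σ.1) => z' x) =
        mE red G (chainStabilizer σ.1) χ z := by
      unfold mE
      congr 1
      funext x
      exact hz' x x.2.1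
    rw [e1]
    constructor
    · intro h
      exact hz4 ⟨σ, ⟨χ, hχ⟩⟩ h
    · intro h
      rw [h z hz1, hz3]
  have h1 := twist (T := G1 G ⊔ Subgroup.zpowers t) le_sup_left hν red (VT_anti hT hzV)
    (VT_anti hT1 hzV) 0 (p := p) (t := t)
    ((le_sup_right : Subgroup.zpowers t ≤ G1 G ⊔ Subgroup.zpowers t) (Subgroup.mem_zpowers t))
  have hA : ∀ (σ : CH p G) (s : Γ × Ex G), AF red (chainStabilizer σ.1) z' 0 s =
      AC red (chainStabilizer σ.1) B s := by
    intro σ s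
    unfold AF AC
    refine finsum_congr fun g => ?_
    rw [hcnt]
  simp only [hA] at h1
  exact h1

omit hG in
theorem KP_one : KP p G 1 := by
  unfold KP
  rw [Units.val_one, ZMod.val_one_eq_one_mod]
  exact (Nat.mod_modEq _ _).of_dvd (Nat.ordCompl_dvd _ _)

omit hG in
/-- the quotient of two exponents -/
theorem KP_div (hν : KQ p ν) (v : Ex G) : KP p G (v⁻¹ * ν v) := by
  have : NeZero (Nat.card G) := ⟨Nat.card_pos.ne'⟩
  have h1 : ∀ a b : Ex G, ((a * b : Ex G) : ZMod (Nat.card G)).val ≡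
      (a : ZMod (Nat.card G)).val * (b : ZMod (Nat.card G)).val
        [MOD Nat.card G / p ^ (Nat.card G).factorization p] := by
    intro a b
    refine Nat.ModEq.of_dvd (Nat.ordCompl_dvd (Nat.card G) p) ?_
    rw [Units.val_mul, ZMod.val_mul]
    exact Nat.mod_modEq _ _
  unfold KP
  refine (h1 _ _).trans (((hν v).symm.mul_left _).trans ((h1 _ _).symm.trans ?_))
  rw [inv_mul_cancel]
  exact KP_one

/-- **The equivariant form, with power maps.** -/
theorem main2 [Fact p.Prime] [IsAlgClosed F] [CharP F p] (hν : KQ p ν)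
    (red : integralClosure ℤ ℂ →+* F)
    (B : (G → F) → F) (t : Γ × Ex G) [Fintype (CH p G)] :
    ∑ σ : CH p G, (-1 : ℤ) ^ σ.1.ncard * (AC red (chainStabilizer σ.1) B t : ℤ) =
      ∑ σ : CH p G, (-1 : ℤ) ^ σ.1.ncard * (AC red (chainStabilizer σ.1) B (ph ν t) : ℤ) := by
  by_cases hex : ∃ (σ : CH p G) (s : Γ × Ex G) (χ : ↥(G ⊓ chainStabilizer σ.1) → ℂ),
      (s = t ∨ s = ph ν t) ∧ (∃ g ∈ G1 G, (g * s).1 ∈ chainStabilizer σ.1 ∧
      ∀ x y : ↥(G ⊓ chainStabilizer σ.1), (y : Γ) = tw (g * s) x → χ y = χ x) ∧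
      IsIrreducibleCharacter χ ∧
      ∀ f : G → F, IsClassFun f → mE red G (chainStabilizer σ.1) χ f = B f
  · obtain ⟨σ, s, χ, hs, ⟨g, hg, hgs, hfix⟩, hχ, hBχ⟩ := hex
    obtain ⟨B', hB'⟩ : ∃ B', B' = mE red G (chainStabilizer σ.1) χ := ⟨_, rfl⟩
    have hcnt : ∀ J t, cntE red G J B t = cntE red G J B' t := by
      intro J t
      unfold cntE
      refine Nat.card_congr (Equiv.subtypeEquivRight fun ψ => and_congr_left fun _ =>
        and_congr_right fun _ => forall_congr' fun f => forall_congr' fun hf => ?_)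
      rw [hB', hBχ f hf]
    have hAC : ∀ J t, AC red J B t = AC red J B' t := by
      intro J t
      unfold AC
      simp only [hcnt]
    simp only [hAC]
    have h1 : g * s ∈ StB B' := hB' ▸ fix_StB red hχ hgs hfix
    have h2 : s ∈ StB B' := by
      have h3 := (StB B').mul_mem ((StB B').inv_mem (G1_le B' hg)) h1
      rwa [inv_mul_cancel_left] at h3
    have hq : ∀ w : Ex G, KP p G w → ((1, w) : Γ × Ex G) ∈ StB B' := fun w hw =>
      hB' ▸ KP_StB red hχ hw
    have h4 : ph ν t = t * (1, t.2⁻¹ * ν t.2) := by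
      refine Prod.ext (mul_one _).symm ?_
      show ν t.2 = t.2 * (t.2⁻¹ * ν t.2)
      rw [mul_inv_cancel_left]
    have h5 := hq _ (KP_div hν t.2)
    refine main1 hν red (hB' ▸ blkE red σ.2.1 σ.2.2 hχ) ?_ ?_
    · rcases hs with rfl | rfl
      · exact h2
      · have h6 : t = ph ν t * (1, t.2⁻¹ * ν t.2)⁻¹ := by rw [h4]; group
        rw [h6]
        exact (StB B').mul_mem h2 ((StB B').inv_mem h5)
    · rcases hs with rfl | rfl
      · rw [h4]
        exact (StB B').mul_mem h2 h5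
      · exact h2
  · have h0 : ∀ s : Γ × Ex G, (s = t ∨ s = ph ν t) → ∀ σ : CH p G,
        AC red (chainStabilizer σ.1) B s = 0 := by
      intro s hs σ
      unfold AC
      have h1 : ∀ g : G1 G, (if (g.1 * s).1 ∈ chainStabilizer σ.1 then
          cntE red G (chainStabilizer σ.1) B (g.1 * s) else 0) = 0 := by
        intro g
        split_ifs with hg
        · unfold cntE
          have : IsEmpty {χ : ↥(G ⊓ chainStabilizer σ.1) → ℂ // (IsIrreducibleCharacter χ ∧
              ∀ f : G → F, IsClassFun f → mE red G (chainStabilizer σ.1) χ f = B f) ∧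
              ∀ x y : ↥(G ⊓ chainStabilizer σ.1), (y : Γ) = tw (g.1 * s) x → χ y = χ x} :=
            ⟨fun χ => hex ⟨σ, s, χ.1, hs, ⟨g.1, g.2, hg, χ.2.2⟩, χ.2.1.1, χ.2.1.2⟩⟩
          exact Nat.card_of_isEmpty
        · rfl
      rw [finsum_congr h1, finsum_zero]
    rw [Finset.sum_eq_zero fun σ _ => by rw [h0 t (Or.inl rfl), Nat.cast_zero, mul_zero],
      Finset.sum_eq_zero fun σ _ => by rw [h0 (ph ν t) (Or.inr rfl), Nat.cast_zero, mul_zero]]

end Pool.Agent.R663.GA
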