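import Pool.Agent.R663.KRB.Kdim
import Pool.Agent.R677.FV.Galois

/-!
# Power maps and convolution of class functions
-/

set_option autoImplicit false

open scoped Classical Pointwise

noncomputable section

namespace Pool.Agent.R663.GA

open Pool.Agent.Y63.AWC (IsIrreducibleCharacter)
open Pool.Agent.Y63.NV
open Pool.Agent.Y930.NV (Cf ind mk_out Cf_out Cf_expand ind_out om om_sum om_int Tp Tp_eq irr_Cf
  R centralValue_eq redC_of ind_cast Cf_ind)
open Pool.Agent.Helper884.IC (Irr mem_Irr expand B_irr B IsIrrChar IsClass)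
open Pool.Agent.R663.KRB

section

variable {J : Type} [Group J] [Fintype J]

theorem pow_bij {k : ℕ} (hk : k.Coprime (Nat.card J)) : Function.Bijective (fun x : J => x ^ k) :=
  (Nat.Coprime.pow_left_bijective hk.symm)

/-- the bijection given by the power map -/
def powE (J : Type) [Group J] {k : ℕ} (hk : k.Coprime (Nat.card J)) : J ≃ J :=
  Equiv.ofBijective (fun x : J => x ^ k) (Nat.Coprime.pow_left_bijective hk.symm)

theorem powE_apply {k : ℕ} (hk : k.Coprime (Nat.card J)) (x : J) : powE J hk x = x ^ k := rfl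

theorem irr_pow {χ : J → ℂ} (h : IsIrreducibleCharacter χ) {k : ℕ} (hk : k.Coprime (Nat.card J)) :
    IsIrreducibleCharacter (fun x => χ (x ^ k)) :=
  Pool.Agent.R677.FV.irr_P h hk

theorem Cf_pow {A : Type} {f : J → A} (hf : Cf f) (k : ℕ) : Cf (fun x => f (x ^ k)) := by
  intro g x
  show f ((g * x * g⁻¹) ^ k) = f (x ^ k)
  rw [conj_pow, hf]

/-- over the complex numbers -/
theorem pm_C {f θ : J → ℂ} (hf : Cf f) (hθ : Cf θ) {k : ℕ} (hk : k.Coprime (Nat.card J)) (x : J) :
    ∑ g : J, f g * θ (g * x ^ k) = ∑ g : J, f (g ^ k) * θ ((g * x) ^ k) := by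
  have h1 : ∀ y : J, θ y = ∑ χ ∈ Irr J, B θ χ * χ y := by
    intro y
    have h2 := congrFun (expand θ (fun g y => hθ y g)) y
    rw [h2, Finset.sum_apply]
    rfl
  have e1 : ∀ g : J, f g * θ (g * x ^ k) = ∑ χ ∈ Irr J, B θ χ * (f g * χ (g * x ^ k)) := by
    intro g
    rw [h1, Finset.mul_sum]
    refine Finset.sum_congr rfl fun χ _ => ?_
    ring
  have e2 : ∀ g : J, f (g ^ k) * θ ((g * x) ^ k) =
      ∑ χ ∈ Irr J, B θ χ * (f (g ^ k) * χ ((g * x) ^ k)) := by
    intro g
    rw [h1, Finset.mul_sum]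
    refine Finset.sum_congr rfl fun χ _ => ?_
    ring
  rw [Finset.sum_congr rfl fun g _ => e1 g, Finset.sum_congr rfl fun g _ => e2 g,
    Finset.sum_comm]
  conv_rhs => rw [Finset.sum_comm]
  refine Finset.sum_congr rfl fun χ hχ => ?_
  rw [← Finset.mul_sum, ← Finset.mul_sum]
  congr 1
  have hχ' : IsIrreducibleCharacter χ := mem_Irr.1 hχ
  rw [irr_eig hχ' hf (x ^ k), irr_eig (irr_pow hχ' hk) (Cf_pow hf k) x]
  congr 1
  unfold om
  have e3 : (fun x : J => χ (x ^ k)) 1 = χ 1 := by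
    show χ (1 ^ k) = χ 1
    rw [one_pow]
  rw [e3]
  congr 1
  exact (Equiv.sum_comp (powE J hk) (fun g => f g * χ g)).symm

theorem pm {A : Type} [CommRing A] {f θ : J → A} (hf : Cf f) (hθ : Cf θ) {k : ℕ}
    (hk : k.Coprime (Nat.card J)) (x : J) :
    ∑ g : J, f g * θ (g * x ^ k) = ∑ g : J, f (g ^ k) * θ ((g * x) ^ k) := by
  -- integers
  have hZ : ∀ C D : ConjClasses J, ∑ g : J, ind ℤ C g * ind ℤ D (g * x ^ k) =
      ∑ g : J, ind ℤ C (g ^ k) * ind ℤ D ((g * x) ^ k) := by
    intro C D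
    have h1 := pm_C (Cf_ind ℂ C) (Cf_ind ℂ D) hk x
    have h2 : ((∑ g : J, ind ℤ C g * ind ℤ D (g * x ^ k) : ℤ) : ℂ) =
        ((∑ g : J, ind ℤ C (g ^ k) * ind ℤ D ((g * x) ^ k) : ℤ) : ℂ) := by
      push_cast
      have e : ∀ (C : ConjClasses J) (y : J), ((ind ℤ C y : ℤ) : ℂ) = ind ℂ C y :=
        fun C y => congrFun (ind_cast C) y
      simp only [e]
      exact h1
    exact_mod_cast h2
  have hA : ∀ C D : ConjClasses J, ∑ g : J, ind A C g * ind A D (g * x ^ k) =
      ∑ g : J, ind A C (g ^ k) * ind A D ((g * x) ^ k) := by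
    intro C D
    have h1 := congrArg (Int.castRingHom A) (hZ C D)
    rw [map_sum, map_sum] at h1
    simp only [map_mul, ind_map] at h1
    exact h1
  have e : ∀ a b : J → J, ∑ g : J, f (a g) * θ (b g) = ∑ C : ConjClasses J, ∑ D : ConjClasses J,
      f C.out * θ D.out * ∑ g : J, ind A C (a g) * ind A D (b g) := by
    intro a b
    have e1 : ∀ g : J, f (a g) * θ (b g) = ∑ C : ConjClasses J, ∑ D : ConjClasses J,
        f C.out * θ D.out * (ind A C (a g) * ind A D (b g)) := by
      intro g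
      rw [Cf_expand hf (a g), Cf_expand hθ (b g), Finset.sum_mul_sum]
      refine Finset.sum_congr (Finset.ext fun _ => by simp) fun C _ => ?_
      refine Finset.sum_congr (Finset.ext fun _ => by simp) fun D _ => ?_
      ring
    rw [Finset.sum_congr rfl fun g _ => e1 g, Finset.sum_comm]
    refine Finset.sum_congr rfl fun C _ => ?_
    rw [Finset.sum_comm]
    refine Finset.sum_congr rfl fun D _ => ?_
    rw [Finset.mul_sum]
  rw [e (fun g => g) (fun g => g * x ^ k), e (fun g => g ^ k) (fun g => (g * x) ^ k)]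
  refine Finset.sum_congr rfl fun C _ => Finset.sum_congr rfl fun D _ => ?_
  rw [hA]

/-- the convolution product and power maps -/
theorem conv_pow {F : Type} [Field F] {f θ : J → F} (hf : Cf f) (hθ : Cf θ) {k : ℕ}
    (hk : k.Coprime (Nat.card J)) (x : J) :
    conv f θ (x ^ k) = conv (fun y => f (y ^ k)) (fun y => θ (y ^ k)) x := by
  unfold conv
  rw [finsum_eq_sum_of_fintype, finsum_eq_sum_of_fintype]
  have hf' : Cf (fun y => f y⁻¹) := by
    intro g y
    show f (g * y * g⁻¹)⁻¹ = f y⁻¹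
    have : (g * y * g⁻¹)⁻¹ = g * y⁻¹ * g⁻¹ := by group
    rw [this, hf]
  have h1 := pm hf' hθ hk x
  rw [← Equiv.sum_comp (Equiv.inv J)] at h1
  conv at h1 => rhs; rw [← Equiv.sum_comp (Equiv.inv J)]
  simp only [Equiv.inv_apply, inv_inv, inv_pow] at h1
  exact h1

end

end Pool.Agent.R663.GA
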