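import Pool.Agent.R663.GA.Burn
import Pool.Agent.Y63.NV.Krc
import Pool.Agent.Y487.NV.La
import Pool.Agent.Y63.NV.Kalt

/-!
# Alternating sums over chains
-/

set_option autoImplicit false
set_option linter.unusedSectionVars false

open scoped Classical Pointwise

noncomputable section

namespace Pool.Agent.R663.GA

open Pool.Agent.Y63.AWC (IsIrreducibleCharacter irr_comp)
open Pool.Agent.Y63.NV
open Pool.Agent.Y63.KR
open Pool.Agent.Y85.NV (cj SYL)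
open Pool.Agent.R663.KRB

variable {F : Type} [Field F] {Γ : Type} [Group Γ] [Finite Γ]
variable {G : Subgroup Γ} {p : ℕ}

/-- the chains of nontrivial `p`-subgroups of `G` -/
abbrev CH (p : ℕ) (G : Subgroup Γ) : Type :=
  {σ : Set (Subgroup Γ) // IsPChain p σ ∧ ∀ P ∈ σ, P ≤ G}

lemma toggle_le {R : Subgroup Γ} (hRG : R ≤ G) {σ : Set (Subgroup Γ)} (hσ : ∀ P ∈ σ, P ≤ G) :
    ∀ P ∈ toggle R σ, P ≤ G := by
  have ht : toggled R σ ≤ G := sup_le (sSup_le fun P hP => hσ P hP.1) hRG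
  intro P hP
  unfold toggle at hP
  split_ifs at hP with h
  · exact hσ P hP.1
  · rcases hP with rfl | hP
    · exact ht
    · exact hσ P hP

theorem tog_oneG [Fact p.Prime] (w : Subgroup Γ → ℤ) {R : Subgroup Γ} (hR : IsPGroup p R)
    (hR1 : R ≠ ⊥) (hRG : R ≤ G) [Fintype (CH p G)] :
    ∑ σ : CH p G, (-1) ^ σ.1.ncard *
      (if R ≤ chainStabilizer σ.1 then
        w (chainStabilizer σ.1 ⊓ Subgroup.normalizer (R : Set Γ)) else 0) = 0 := by
  set f : CH p G → ℤ := fun σ => (-1) ^ σ.1.ncard *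
    w (chainStabilizer σ.1 ⊓ Subgroup.normalizer (R : Set Γ)) with hf
  have h1 : ∀ σ : CH p G, (-1) ^ σ.1.ncard *
      (if R ≤ chainStabilizer σ.1 then
        w (chainStabilizer σ.1 ⊓ Subgroup.normalizer (R : Set Γ)) else 0) =
      if R ≤ chainStabilizer σ.1 then f σ else 0 := by
    intro σ
    by_cases h : R ≤ chainStabilizer σ.1
    · rw [if_pos h, if_pos h]
    · rw [if_neg h, if_neg h, mul_zero]
  rw [Finset.sum_congr rfl fun σ _ => h1 σ, ← Finset.sum_filter]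
  refine Finset.sum_involution
    (fun σ hσ => ⟨toggle R σ.1, (stab_le_toggle hR hR1 σ.2.1 (Finset.mem_filter.mp hσ).2).1,
      toggle_le hRG σ.2.2⟩) ?_ ?_ ?_ ?_
  · intro σ hσ
    have hσ1 := (Finset.mem_filter.mp hσ).2
    have h3 := (stab_toggle hR hR1 σ.2.1 hσ1).2
    simp only [hf]
    rw [ncard_toggle, h3]
    ring
  · intro σ hσ _ h
    have h1 : toggle R σ.1 = σ.1 := congrArg Subtype.val h
    have h2 := ncard_toggle R σ.1
    rw [h1] at h2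
    have h3 : ((-1 : ℤ)) ^ σ.1.ncard ≠ 0 := pow_ne_zero _ (by norm_num)
    omega
  · intro σ hσ
    rw [Finset.mem_filter]
    exact ⟨Finset.mem_univ _, (stab_toggle hR hR1 σ.2.1 (Finset.mem_filter.mp hσ).2).1⟩
  · intro σ hσ
    apply Subtype.ext
    exact toggle_toggle R σ.1

/-- a sum over chains of a function of this form only depends on the terms with `R = 1` -/
theorem chain_botG [Fact p.Prime] (w : Subgroup Γ → Subgroup Γ → ℤ) (f : Subgroup Γ → ℤ)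
    (hf : ∀ J : Subgroup Γ, f J = ∑ᶠ R : Subgroup Γ, (if IsPGroup p R ∧ R ≤ G ⊓ J then
      w R (J ⊓ Subgroup.normalizer (R : Set Γ)) else 0)) [Fintype (CH p G)] :
    ∑ σ : CH p G, (-1) ^ σ.1.ncard * f (chainStabilizer σ.1) =
      ∑ σ : CH p G, (-1) ^ σ.1.ncard * w ⊥ (chainStabilizer σ.1) := by
  have : Fintype (Subgroup Γ) := Fintype.ofFinite _
  simp only [hf, finsum_eq_sum_of_fintype, Finset.mul_sum]
  rw [Finset.sum_comm, Finset.sum_eq_single (⊥ : Subgroup Γ)]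
  · refine Finset.sum_congr rfl fun σ _ => ?_
    rw [if_pos ⟨IsPGroup.of_bot, bot_le⟩, normalizer_bot, inf_top_eq]
  · intro R _ hR1
    by_cases hR : IsPGroup p R ∧ R ≤ G
    · have h := tog_oneG (fun J => w R J) hR.1 hR1 hR.2
      refine Eq.trans ?_ h
      refine Finset.sum_congr rfl fun σ _ => ?_
      by_cases h1 : R ≤ chainStabilizer σ.1
      · rw [if_pos ⟨hR.1, le_inf hR.2 h1⟩, if_pos h1]
      · rw [if_neg (fun h => h1 (h.2.trans inf_le_right)), if_neg h1]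
    · refine Finset.sum_eq_zero fun σ _ => ?_
      rw [if_neg (fun h => hR ⟨h.1, h.2.trans inf_le_left⟩), mul_zero]
  · intro h
    exact absurd (Finset.mem_univ _) h

variable [hG : G.Normal] {T : Subgroup (Γ × Ex G)}

lemma cut_cutG [IsAlgClosed F] (z : Γ → F) (J R : Subgroup Γ) :
    cut (cut z (G ⊓ J)) (Subgroup.centralizer (R : Set Γ)) =
      cut (cut z (G ⊓ (J ⊓ Subgroup.normalizer (R : Set Γ)))) (Subgroup.centralizer (R : Set Γ)) := by
  rw [cut_cut, inf_assoc]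

/-- the weight function -/
def wT (p : ℕ) (T : Subgroup (Γ × Ex G)) (z : Γ → F) (c : F) (R J : Subgroup Γ) : ℤ :=
  (mT T J : ℤ) * gT T (cut (cut z (G ⊓ J)) (Subgroup.centralizer (R : Set Γ)))
    (SA p (G ⊓ J) R) J c

theorem cut_VT {z : Γ → F} (hz : z ∈ (VT T G ⊤ : Submodule F (Γ → F))) (J : Subgroup Γ) :
    cut z (G ⊓ J) ∈ (VT T (G ⊓ J : Subgroup Γ) J : Submodule F (Γ → F)) := by
  refine ⟨fun x hx => if_neg hx, fun t ht hj x hx => ?_⟩
  have hSt : ∀ t ∈ T, t.1 ∈ J → ∀ x ∈ ((G ⊓ J : Subgroup Γ) : Set Γ),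
      tw t x ∈ ((G ⊓ J : Subgroup Γ) : Set Γ) := fun t _ hj x hx =>
    (G ⊓ J).pow_mem ((conjN hj x).2 hx) _
  have h1 : tw t x ∈ G ⊓ J ↔ x ∈ G ⊓ J := tw_iff hSt ht hj hx
  unfold cut
  simp only [h1, hz.2 t ht (Subgroup.mem_top _) x hx]

theorem filt_z [Fact p.Prime] [IsAlgClosed F] [CharP F p]
    (hT : ∀ g ∈ G, ((g, 1) : Γ × Ex G) ∈ T) {z : Γ → F}
    (hz : z ∈ (VT T G ⊤ : Submodule F (Γ → F))) (c : F) (J : Subgroup Γ) :
    (mT T J : ℤ) * gT T (cut z (G ⊓ J)) (G ⊓ J : Subgroup Γ) J c =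
      ∑ᶠ R : Subgroup Γ, (if IsPGroup p R ∧ R ≤ G ⊓ J then
        wT p T z c R (J ⊓ Subgroup.normalizer (R : Set Γ)) else 0) := by
  have : Fintype (Subgroup Γ) := Fintype.ofFinite _
  have h2 := filtT Pool.Agent.Y487.NV.la (p := p) hT (cut_VT hz J) c
  rw [← Nat.cast_mul, h2, finsum_eq_sum_of_fintype, finsum_eq_sum_of_fintype, Nat.cast_sum]
  refine Finset.sum_congr rfl fun R _ => ?_
  by_cases hR : IsPGroup p R ∧ R ≤ G ⊓ J
  · rw [if_pos hR, if_pos hR, Nat.cast_mul, cut_cutG]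
    rfl
  · rw [if_neg hR, if_neg hR, Nat.cast_zero]

theorem FX_cut (red : integralClosure ℤ ℂ →+* F) (J : Subgroup Γ) (z : Γ → F) (c : F)
    (t : Γ × Ex G) : FX red G J (cut z (G ⊓ J)) c t = FX red G J z c t := by
  have e1 : (fun x : ↥(G ⊓ J) => cut z (G ⊓ J) x) = fun x : ↥(G ⊓ J) => z x := by
    funext x
    unfold cut
    rw [if_pos x.2]
  unfold FX
  rw [e1]

/-- the sum over the chains -/
theorem sumT [Fact p.Prime] [IsAlgClosed F] [CharP F p]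
    (hT : ∀ g ∈ G, ((g, 1) : Γ × Ex G) ∈ T) (red : integralClosure ℤ ℂ →+* F) {z : Γ → F}
    (hz : z ∈ (VT T G ⊤ : Submodule F (Γ → F))) (c : F) [Fintype (CH p G)] :
    ∑ σ : CH p G, (-1 : ℤ) ^ σ.1.ncard *
      ((∑ᶠ t : TJ T (chainStabilizer σ.1), FX red G (chainStabilizer σ.1) z c t.1 : ℕ) : ℤ) =
      ∑ σ : CH p G, (-1) ^ σ.1.ncard * wT p T z c ⊥ (chainStabilizer σ.1) := by
  rw [← chain_botG (p := p) (G := G) (wT p T z c)
    (fun J => (mT T J : ℤ) * gT T (cut z (G ⊓ J)) (G ⊓ J : Subgroup Γ) J c)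
    (fun J => filt_z hT hz c J)]
  refine Finset.sum_congr rfl fun σ _ => ?_
  congr 1
  rw [← Nat.cast_mul, burn hT red (cut_VT hz _) c]
  congr 1
  exact finsum_congr fun t => (FX_cut red _ z c t.1).symm

/-! ### Comparison -/

/-- a homomorphism changing the exponents only -/
def ph (ν : Ex G →* Ex G) : Γ × Ex G →* Γ × Ex G :=
  (MonoidHom.fst Γ (Ex G)).prod (ν.comp (MonoidHom.snd Γ (Ex G)))

theorem ph_fst (ν : Ex G →* Ex G) (t : Γ × Ex G) : (ph ν t).1 = t.1 := rfl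

theorem ph_snd (ν : Ex G →* Ex G) (t : Γ × Ex G) : (ph ν t).2 = ν t.2 := rfl

/-- the group with changed exponents -/
def T1 (ν : Ex G →* Ex G) (T : Subgroup (Γ × Ex G)) : Subgroup (Γ × Ex G) := T.map (ph ν)

variable {ν : Ex G →* Ex G}

theorem mem_T1 {s : Γ × Ex G} : s ∈ T1 ν T ↔ ∃ t ∈ T, ph ν t = s := by
  unfold T1
  rw [Subgroup.mem_map]

theorem T1_of {t : Γ × Ex G} (ht : t ∈ T) : ph ν t ∈ T1 ν T := mem_T1.2 ⟨t, ht, rfl⟩

/-- the kernel -/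
def K0 (ν : Ex G →* Ex G) (T : Subgroup (Γ × Ex G)) : Subgroup (Γ × Ex G) := T ⊓ (ph ν).ker

theorem sum_T1 (J : Subgroup Γ) (g : Γ × Ex G → ℕ) :
    ∑ᶠ t : TJ T J, g (ph ν t.1) = Nat.card (K0 ν T) * ∑ᶠ s : TJ (T1 ν T) J, g s.1 := by
  have hE : Finite (Ex G) := by
    have : NeZero (Nat.card G) := ⟨Nat.card_pos.ne'⟩
    infer_instance
  have : Fintype (TJ T J) := Fintype.ofFinite _
  have : Fintype (TJ (T1 ν T) J) := Fintype.ofFinite _
  rw [finsum_eq_sum_of_fintype, finsum_eq_sum_of_fintype]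
  let φ : TJ T J → TJ (T1 ν T) J := fun t => ⟨ph ν t.1, T1_of t.2.1, t.2.2⟩
  rw [← Finset.sum_fiberwise (s := Finset.univ) (g := φ), Finset.mul_sum]
  refine Finset.sum_congr rfl fun s _ => ?_
  have h1 : ∀ t ∈ Finset.univ.filter (fun t : TJ T J => φ t = s), g (ph ν t.1) = g s.1 := by
    intro t ht
    rw [← (Finset.mem_filter.1 ht).2]
  rw [Finset.sum_congr rfl h1, Finset.sum_const, smul_eq_mul]
  congr 1
  obtain ⟨t0, ht0, h0⟩ := mem_T1.1 s.2.1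
  have hsJ : s.1.1 ∈ J := s.2.2
  have h0J : t0.1 = s.1.1 := by rw [← ph_fst ν t0, h0]
  have hv1 : ∀ v : K0 ν T, v.1.1 = 1 := fun v => by
    have h2 : ph ν v.1 = 1 := v.2.2
    exact congrArg Prod.fst h2
  rw [← Fintype.card_subtype, ← Nat.card_eq_fintype_card]
  symm
  refine Nat.card_congr
    { toFun := fun v => ⟨⟨t0 * v.1, T.mul_mem ht0 v.2.1, ?_⟩, ?_⟩
      invFun := fun t => ⟨t0⁻¹ * t.1.1, ?_, ?_⟩
      left_inv := ?_
      right_inv := ?_ }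
  · show t0.1 * v.1.1 ∈ J
    rw [hv1, mul_one, h0J]
    exact hsJ
  · apply Subtype.ext
    have h2 : ph ν v.1 = 1 := v.2.2
    show ph ν (t0 * v.1) = s.1
    rw [map_mul, h2, mul_one, h0]
  · exact T.mul_mem (T.inv_mem ht0) t.1.2.1
  · have h2 : ph ν t.1.1 = s.1 := congrArg (fun q : TJ (T1 ν T) J => q.1) t.2
    show ph ν (t0⁻¹ * t.1.1) = 1
    rw [map_mul, map_inv, h0, h2, inv_mul_cancel]
  · intro v
    apply Subtype.ext
    show t0⁻¹ * (t0 * v.1) = v.1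
    rw [inv_mul_cancel_left]
  · intro t
    apply Subtype.ext
    apply Subtype.ext
    show t0 * (t0⁻¹ * t.1.1) = t.1.1
    rw [mul_inv_cancel_left]

theorem mT_T1 (ν : Ex G →* Ex G) (T : Subgroup (Γ × Ex G)) (J : Subgroup Γ) :
    mT T J = Nat.card (K0 ν T) * mT (T1 ν T) J := by
  have h := sum_T1 (T := T) (ν := ν) J (fun _ => 1)
  have hE : Finite (Ex G) := by
    have : NeZero (Nat.card G) := ⟨Nat.card_pos.ne'⟩
    infer_instance
  have : Fintype (TJ T J) := Fintype.ofFinite _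
  have : Fintype (TJ (T1 ν T) J) := Fintype.ofFinite _
  rw [finsum_eq_sum_of_fintype, finsum_eq_sum_of_fintype, Finset.sum_const, Finset.sum_const,
    smul_eq_mul, smul_eq_mul, mul_one, mul_one, Finset.card_univ, Finset.card_univ,
    ← Nat.card_eq_fintype_card, ← Nat.card_eq_fintype_card] at h
  exact h

/-- the change of exponents does not change the power maps on the elements of order prime to `p` -/
def KQ (p : ℕ) (ν : Ex G →* Ex G) : Prop :=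
  ∀ v : Ex G, (v : ZMod (Nat.card G)).val ≡ (ν v : ZMod (Nat.card G)).val
    [MOD Nat.card G / p ^ (Nat.card G).factorization p]

theorem tw_KQ [Fact p.Prime] (hν : KQ p ν) (t : Γ × Ex G) {x : Γ} (hx : x ∈ G)
    (hp : ¬ p ∣ orderOf x) : tw t x = tw (ph ν t) x := by
  unfold tw
  rw [ph_fst, ph_snd]
  have h1 : orderOf (t.1 * x * t.1⁻¹) = orderOf x := by
    have h5 : t.1 * x * t.1⁻¹ = MulAut.conj t.1 x := (MulAut.conj_apply t.1 x).symm
    rw [h5]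
    exact MulEquiv.orderOf_eq _ _
  have hd : orderOf x ∣ Nat.card G / p ^ (Nat.card G).factorization p := by
    have h2 : orderOf x ∣ Nat.card G := Subgroup.orderOf_dvd_natCard G hx
    rw [← Nat.ordProj_mul_ordCompl_eq_self (Nat.card G) p] at h2
    exact Nat.Coprime.dvd_of_dvd_mul_left (Nat.Coprime.pow_right _
      ((Nat.Prime.coprime_iff_not_dvd Fact.out).mpr hp).symm) h2
  rw [pow_eq_pow_iff_modEq, h1]
  exact (hν t.2).of_dvd hd

theorem VT_T1 [Fact p.Prime] (hν : KQ p ν) (J : Subgroup Γ) :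
    (VT T (SA p (G ⊓ J) ⊥) J : Submodule F (Γ → F)) = VT (T1 ν T) (SA p (G ⊓ J) ⊥) J := by
  have hreg : ∀ x ∈ SA p (G ⊓ J) ⊥, ¬ p ∣ orderOf x := fun x hx =>
    sa_bot hx hx.1 (self_cent x)
  have hmem : ∀ x, x ∈ SA p (G ⊓ J) ⊥ ↔ x ∈ G ⊓ J ∧ SYL p (G ⊓ J) x ⊥ := by
    intro x
    have h := sa_iffT (p := p) (G := G) (J := J) (R := ⊥) bot_le IsPGroup.of_bot (x := x)
    rw [normalizer_bot, inf_top_eq] at h
    exact h
  have hstab : ∀ (U : Subgroup (Γ × Ex G)), ∀ t ∈ U, t.1 ∈ J → ∀ x ∈ SA p (G ⊓ J) ⊥,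
      tw t x ∈ SA p (G ⊓ J) ⊥ := by
    intro U t _ hj x hx
    rw [hmem] at hx ⊢
    refine ⟨(G ⊓ J).pow_mem ((conjN hj x).2 hx.1) _, ?_⟩
    have h1 := SYL_tw hx.2 hx.1.1 t hj
    have h2 : cj t.1 (⊥ : Subgroup Γ) = ⊥ := by
      rw [← mem_norm_iff, normalizer_bot]
      trivial
    rwa [h2] at h1
  ext θ
  constructor
  · rintro ⟨h1, h2⟩
    refine ⟨h1, fun s hs hj x hx => ?_⟩
    obtain ⟨t, ht, rfl⟩ := mem_T1.1 hs
    by_cases hxS : x ∈ SA p (G ⊓ J) ⊥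
    · rw [← tw_KQ hν t hx (hreg x hxS)]
      exact h2 t ht hj x hx
    · rw [h1 x hxS, h1 _ (fun h => hxS ((tw_iff (hstab (T1 ν T)) hs hj hx).1 h))]
  · rintro ⟨h1, h2⟩
    refine ⟨h1, fun t ht hj x hx => ?_⟩
    by_cases hxS : x ∈ SA p (G ⊓ J) ⊥
    · rw [tw_KQ hν t hx (hreg x hxS)]
      exact h2 (ph ν t) (T1_of ht) hj x hx
    · rw [h1 x hxS, h1 _ (fun h => hxS ((tw_iff (hstab T) ht hj hx).1 h))]

theorem wT_T1 [Fact p.Prime] (hν : KQ p ν) (z : Γ → F) (c : F) (J : Subgroup Γ) :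
    wT p T z c ⊥ J = (Nat.card (K0 ν T) : ℤ) * wT p (T1 ν T) z c ⊥ J := by
  unfold wT gT
  rw [VT_T1 hν J, mT_T1 ν T J, Nat.cast_mul, mul_assoc]

theorem hT1 (hT : ∀ g ∈ G, ((g, 1) : Γ × Ex G) ∈ T) : ∀ g ∈ G, ((g, 1) : Γ × Ex G) ∈ T1 ν T :=
  fun g hg => mem_T1.2 ⟨_, hT g hg, Prod.ext rfl (map_one ν)⟩

/-- The comparison of the two sums. -/
theorem compare [Fact p.Prime] [IsAlgClosed F] [CharP F p]
    (hT : ∀ g ∈ G, ((g, 1) : Γ × Ex G) ∈ T) (hν : KQ p ν)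
    (red : integralClosure ℤ ℂ →+* F) {z : Γ → F}
    (hz : z ∈ (VT T G ⊤ : Submodule F (Γ → F)))
    (hz1 : z ∈ (VT (T1 ν T) G ⊤ : Submodule F (Γ → F)))
    (c : F) [Fintype (CH p G)] :
    ∑ σ : CH p G, (-1 : ℤ) ^ σ.1.ncard *
      ((∑ᶠ t : TJ T (chainStabilizer σ.1), FX red G (chainStabilizer σ.1) z c t.1 : ℕ) : ℤ) =
    ∑ σ : CH p G, (-1 : ℤ) ^ σ.1.ncard *
      ((∑ᶠ t : TJ T (chainStabilizer σ.1),
        FX red G (chainStabilizer σ.1) z c (ph ν t.1) : ℕ) : ℤ) := by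
  rw [sumT hT red hz c]
  have h1 := sumT (hT1 hT) red hz1 c
  have h2 : ∀ σ : CH p G, (-1 : ℤ) ^ σ.1.ncard *
      ((∑ᶠ t : TJ T (chainStabilizer σ.1),
        FX red G (chainStabilizer σ.1) z c (ph ν t.1) : ℕ) : ℤ) =
      (Nat.card (K0 ν T) : ℤ) * ((-1 : ℤ) ^ σ.1.ncard *
      ((∑ᶠ t : TJ (T1 ν T) (chainStabilizer σ.1),
        FX red G (chainStabilizer σ.1) z c t.1 : ℕ) : ℤ)) := by
    intro σ
    rw [sum_T1 _ (fun s => FX red G (chainStabilizer σ.1) z c s), Nat.cast_mul]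
    ring
  rw [Finset.sum_congr rfl fun σ _ => h2 σ, ← Finset.mul_sum, h1, Finset.mul_sum]
  refine Finset.sum_congr rfl fun σ _ => ?_
  rw [wT_T1 hν]
  ring

end Pool.Agent.R663.GA
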