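import Pool.Agent.R663.GA.TopG

/-!
# The Galois form: alternating sums
-/

set_option autoImplicit false
set_option linter.unusedSectionVars false

open scoped Classical Pointwise

noncomputable section

namespace Pool.Agent.R663.GA

open Pool.Agent.Y63.AWC (IsIrreducibleCharacter irr_comp)
open Pool.Agent.Y63.NV
open Pool.Agent.Y63.KR (IsPChain chainStabilizer alternatingSum conjSub)
open Pool.Agent.Y930.NV (Cf irr_Cf)
open Pool.Agent.Y286.NV (centralValue_comp irr_class)
open Pool.Agent.Y171.NV (card_mul_alt)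

variable {F : Type} [Field F] {Γ : Type} [Group Γ] [Finite Γ] {p : ℕ}

/-- a version of `numIrrInd_conj` with an additional property of the characters -/
theorem num_conj (red : integralClosure ℤ ℂ →+* F) (B : (Γ → F) → F) (g : Γ) (H : Subgroup Γ)
    (P : ∀ K : Subgroup Γ, (K → ℂ) → Prop)
    (hP : ∀ (K L : Subgroup Γ) (e : K ≃* L) (χ : L → ℂ), IsIrreducibleCharacter χ → P L χ →
      P K (fun x => χ (e x))) :
    Nat.card {χ : conjSub g H → ℂ // IsIrreducibleCharacter χ ∧
      (∀ f : Γ → F, IsClassFun f → centralValue red χ (fun x => f x) = B f) ∧ P _ χ} =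
    Nat.card {χ : H → ℂ // IsIrreducibleCharacter χ ∧
      (∀ f : Γ → F, IsClassFun f → centralValue red χ (fun x => f x) = B f) ∧ P _ χ} := by
  let e : H ≃* conjSub g H := (MulAut.conj g).subgroupMap H
  have he : ∀ x : H, ((e x : conjSub g H) : Γ) = g * x * g⁻¹ := fun x => rfl
  have hval : ∀ χ : conjSub g H → ℂ, IsIrreducibleCharacter χ → ∀ z : Γ → F, IsClassFun z →
      centralValue red (fun x => χ (e x)) (fun x : H => z x) =
        centralValue red χ (fun x => z x) := by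
    intro χ hχ z hz
    have h1 := centralValue_comp red e χ (irr_class hχ) (fun x => z x)
      (fun a x => hz a x)
    rw [← h1]
    congr 1
    funext x
    show z x = z (e x : conjSub g H)
    rw [he, hz]
  refine Nat.card_congr
    { toFun := fun χ => ⟨fun x => χ.1 (e x), irr_comp e χ.2.1, ?_, hP _ _ e _ χ.2.1 χ.2.2.2⟩
      invFun := fun χ => ⟨fun x => χ.1 (e.symm x), irr_comp e.symm χ.2.1, ?_,
        hP _ _ e.symm _ χ.2.1 χ.2.2.2⟩
      left_inv := ?_
      right_inv := ?_ }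
  · intro z hz
    rw [hval χ.1 χ.2.1 z hz]
    exact χ.2.2.1 z hz
  · intro z hz
    have h1 := hval (fun x => χ.1 (e.symm x)) (irr_comp e.symm χ.2.1) z hz
    have h2 : (fun x => (fun x => χ.1 (e.symm x)) (e x)) = χ.1 := by
      funext x
      show χ.1 (e.symm (e x)) = χ.1 x
      rw [e.symm_apply_apply]
    rw [h2] at h1
    rw [← h1]
    exact χ.2.2.1 z hz
  · intro χ
    apply Subtype.ext
    funext x
    show χ.1 (e (e.symm x)) = χ.1 x
    rw [e.apply_symm_apply]
  · intro χ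
    apply Subtype.ext
    funext x
    show χ.1 (e.symm (e x)) = χ.1 x
    rw [e.symm_apply_apply]

theorem numPow_conj (red : integralClosure ℤ ℂ →+* F) (B : (Γ → F) → F) (s : ℕ) (g : Γ)
    (H : Subgroup Γ) : numPow red (conjSub g H) B s = numPow red H B s := by
  refine num_conj red B g H (fun K χ => ∀ x, χ (x ^ s) = χ x) ?_
  intro K L e χ _ h x
  show χ (e (x ^ s)) = χ (e x)
  rw [map_pow, h]

theorem numPow_congr (red : integralClosure ℤ ℂ →+* F) (B : (Γ → F) → F) (H : Subgroup Γ)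
    {s s' : ℕ} (h : s ≡ s' [MOD Nat.card Γ]) : numPow red H B s = numPow red H B s' := by
  unfold numPow
  refine Nat.card_congr (Equiv.subtypeEquivRight fun χ => and_congr_right fun _ =>
    and_congr_right fun _ => forall_congr' fun x => ?_)
  have h1 : x ^ s = x ^ s' := by
    rw [pow_eq_pow_iff_modEq]
    exact h.of_dvd ((orderOf_dvd_natCard x).trans (Subgroup.card_subgroup_dvd_card H))
  rw [h1]

/-- the chains of subgroups of `⊤` -/
def chTop (p : ℕ) (Γ : Type) [Group Γ] :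
    CH p (⊤ : Subgroup Γ) ≃ {σ : Set (Subgroup Γ) // IsPChain p σ} where
  toFun σ := ⟨σ.1, σ.2.1⟩
  invFun σ := ⟨σ.1, σ.2, fun _ _ => le_top⟩
  left_inv _ := rfl
  right_inv _ := rfl

theorem sum_pow [Fact p.Prime] [IsAlgClosed F] [CharP F p] (red : integralClosure ℤ ℂ →+* F)
    (B : (Γ → F) → F) {s s' : ℕ} (hs : s.Coprime (Nat.card Γ)) (hs' : s'.Coprime (Nat.card Γ))
    (h : s ≡ s' [MOD Nat.card Γ / p ^ (Nat.card Γ).factorization p]) :
    alternatingSum p Γ (fun H => (numPow red H B s : ℤ)) =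
      alternatingSum p Γ (fun H => (numPow red H B s' : ℤ)) := by
  have hcard : Nat.card (⊤ : Subgroup Γ) = Nat.card Γ := Subgroup.card_top
  have hpos : (Nat.card Γ : ℤ) ≠ 0 := by exact_mod_cast Nat.card_pos.ne'
  refine mul_left_cancel₀ hpos ?_
  rw [card_mul_alt (fun H => (numPow red H B s : ℤ)) (fun g H => by rw [numPow_conj]),
    card_mul_alt (fun H => (numPow red H B s' : ℤ)) (fun g H => by rw [numPow_conj])]
  have : Fintype (CH p (⊤ : Subgroup Γ)) := Fintype.ofFinite _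
  obtain ⟨ν, hν, hν2⟩ := exists_KQ p (⊤ : Subgroup Γ)
  obtain ⟨B', hB'⟩ : ∃ B' : ((⊤ : Subgroup Γ) → F) → F,
      B' = fun f => B (fun x => f ⟨x, trivial⟩) := ⟨_, rfl⟩
  have key : ∀ r : ℕ, r.Coprime (Nat.card Γ) → ∀ v : Ex (⊤ : Subgroup Γ),
      (v : ZMod (Nat.card (⊤ : Subgroup Γ))).val ≡ r [MOD Nat.card Γ] →
      ∑ᶠ σ : {σ : Set (Subgroup Γ) // IsPChain p σ}, (-1) ^ σ.1.ncard *
        ((Nat.card (chainStabilizer σ.1) : ℤ) * (numPow red (chainStabilizer σ.1) B r : ℤ)) =
      ∑ σ : CH p (⊤ : Subgroup Γ), (-1 : ℤ) ^ σ.1.ncard *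
        (AC red (chainStabilizer σ.1) B' (1, v) : ℤ) := by
    intro r _ v hv
    rw [← finsum_comp_equiv (chTop p Γ), finsum_eq_sum_of_fintype]
    refine Finset.sum_congr rfl fun σ _ => ?_
    rw [AC_eq, hB', stE_top, numPow_congr red B _ hv, Nat.cast_mul,
      Nat.card_congr (topJ (chainStabilizer σ.1)).toEquiv]
    rfl
  have hN0 : NeZero (Nat.card (⊤ : Subgroup Γ)) := ⟨Nat.card_pos.ne'⟩
  have hval : ∀ (r : ℕ) (hr : r.Coprime (Nat.card (⊤ : Subgroup Γ))),
      (ZMod.unitOfCoprime r hr : ZMod (Nat.card (⊤ : Subgroup Γ))).val ≡ r [MOD Nat.card Γ] := by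
    intro r hr
    rw [ZMod.coe_unitOfCoprime, ZMod.val_natCast, hcard]
    exact Nat.mod_modEq _ _
  have hs1 : s.Coprime (Nat.card (⊤ : Subgroup Γ)) := by rw [hcard]; exact hs
  have hs2 : s'.Coprime (Nat.card (⊤ : Subgroup Γ)) := by rw [hcard]; exact hs'
  rw [key s hs _ (hval s hs1), key s' hs' _ (hval s' hs2), main2 hν red B',
    main2 hν red B' (1, ZMod.unitOfCoprime s' hs2)]
  have e1 : ph ν ((1, ZMod.unitOfCoprime s hs1) : Γ × Ex (⊤ : Subgroup Γ)) =
      ph ν ((1, ZMod.unitOfCoprime s' hs2) : Γ × Ex (⊤ : Subgroup Γ)) := by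
    refine Prod.ext rfl ?_
    refine hν2 _ _ ?_
    have h1 : Nat.card (⊤ : Subgroup Γ) / p ^ (Nat.card (⊤ : Subgroup Γ)).factorization p =
        Nat.card Γ / p ^ (Nat.card Γ).factorization p := by rw [hcard]
    rw [h1]
    have h2 : Nat.card Γ / p ^ (Nat.card Γ).factorization p ∣ Nat.card Γ := Nat.ordCompl_dvd _ _
    exact ((hval s hs1).of_dvd h2).trans (h.trans ((hval s' hs2).of_dvd h2).symm)
  rw [e1]

end Pool.Agent.R663.GA
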