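import Pool.Agent.R663.GA.MainE
import Pool.Agent.R615.LV.Lev

/-!
# From power maps to automorphisms of the complex numbers
-/

set_option autoImplicit false
set_option linter.unusedSectionVars false

open scoped Classical Pointwise

noncomputable section

namespace Pool.Agent.R663.GA

open Pool.Agent.Y63.AWC (IsIrreducibleCharacter irr_comp)
open Pool.Agent.Y63.NV
open Pool.Agent.Y63.KR (IsPChain chainStabilizer)
open Pool.Agent.Y930.NV (Cf irr_Cf)
open Pool.Agent.R663.KRB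
open Pool.Agent.R615.LV (exists_power sigma_val prim_congr pow_congr')

/-! ### The projection of the exponents -/

section crt

/-- the retraction of the units -/
theorem exists_nu {N a m : ℕ} (hN : N = a * m) (hc : a.Coprime m) (hN0 : N ≠ 0) :
    ∃ ν : (ZMod N)ˣ →* (ZMod N)ˣ,
      (∀ v : (ZMod N)ˣ, (v : ZMod N).val ≡ (ν v : ZMod N).val [MOD m]) ∧
      ∀ u v : (ZMod N)ˣ, (u : ZMod N).val ≡ (v : ZMod N).val [MOD m] → ν u = ν v := by
  subst hN
  have hne : NeZero (a * m) := ⟨hN0⟩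
  let e := ZMod.chineseRemainder hc
  let f : ZMod (a * m) →* ZMod (a * m) :=
    { toFun := fun x => e.symm (1, (e x).2)
      map_one' := by
        have : ((1 : ZMod a), (e 1).2) = 1 := by rw [map_one]; rfl
        rw [this, map_one]
      map_mul' := fun x y => by
        rw [← map_mul, map_mul e]
        congr 1
        exact Prod.ext (mul_one _).symm rfl }
  have hf : ∀ x, (e (f x)).2 = (e x).2 := by
    intro x
    show (e (e.symm (1, (e x).2))).2 = (e x).2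
    rw [RingEquiv.apply_symm_apply]
  have hcast : ∀ x : ZMod (a * m), (e x).2 = ((x.val : ℕ) : ZMod m) := by
    intro x
    have h1 : e x = e ((x.val : ℕ) : ZMod (a * m)) := by rw [ZMod.natCast_zmod_val]
    rw [h1, map_natCast]
    rfl
  refine ⟨Units.map f, ?_, ?_⟩
  · intro v
    have h1 := hf (v : ZMod (a * m))
    rw [hcast, hcast] at h1
    exact ((ZMod.natCast_eq_natCast_iff _ _ _).1 h1).symm
  · intro u v huv
    apply Units.ext
    show f u = f v
    show e.symm (1, (e u).2) = e.symm (1, (e v).2)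
    rw [hcast, hcast, (ZMod.natCast_eq_natCast_iff _ _ _).2 huv]

end crt

variable {F : Type} [Field F]
variable {Γ : Type} [Group Γ] [Finite Γ] {G : Subgroup Γ} {p : ℕ}

theorem exists_KQ (p : ℕ) [Fact p.Prime] (G : Subgroup Γ) : ∃ ν : Ex G →* Ex G, KQ p ν ∧
    ∀ u v : Ex G, (u : ZMod (Nat.card G)).val ≡ (v : ZMod (Nat.card G)).val
      [MOD Nat.card G / p ^ (Nat.card G).factorization p] → ν u = ν v := by
  have hp : p.Prime := Fact.out
  have hG0 : Nat.card G ≠ 0 := Nat.card_pos.ne'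
  have h1 : p ^ (Nat.card G).factorization p * (Nat.card G / p ^ (Nat.card G).factorization p) =
      Nat.card G := Nat.ordProj_mul_ordCompl_eq_self _ _
  have h2 : (p ^ (Nat.card G).factorization p).Coprime
      (Nat.card G / p ^ (Nat.card G).factorization p) :=
    Nat.Coprime.pow_left _ ((Nat.Prime.coprime_iff_not_dvd hp).2 (Nat.not_dvd_ordCompl hp hG0))
  exact exists_nu h1.symm h2 hG0

variable [hG : G.Normal]

/-- the character is fixed by the twisted conjugation -/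
def FixT (J : Subgroup Γ) (t : Γ × Ex G) (χ : ↥(G ⊓ J) → ℂ) : Prop :=
  ∀ x y : ↥(G ⊓ J), (y : Γ) = tw t x → χ y = χ x

theorem FixT_left {J : Subgroup Γ} {t : Γ × Ex G} (ht : t.1 ∈ J) {a : Γ} (ha : a ∈ G ⊓ J)
    {χ : ↥(G ⊓ J) → ℂ} (hχ : IsIrreducibleCharacter χ) :
    FixT J ((a, 1) * t) χ ↔ FixT J t χ := by
  have hmem : ∀ x : ↥(G ⊓ J), tw t x ∈ G ⊓ J := fun x =>
    (G ⊓ J).pow_mem ((conjN ht x).2 x.2) _
  have hval : ∀ x : ↥(G ⊓ J), tw (((a, 1) : Γ × Ex G) * t) (x : Γ) =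
      a * tw t (x : Γ) * a⁻¹ := by
    intro x
    rw [tw_mul _ _ x.2.1, tw_pair_one (hmem x).1]
  have : Fintype ↥(G ⊓ J) := Fintype.ofFinite _
  have hcf : Cf χ := irr_Cf hχ
  constructor
  · intro h x y hxy
    have h1 := h x (⟨a, ha⟩ * y * ⟨a, ha⟩⁻¹) (by rw [hval x, ← hxy]; rfl)
    rwa [hcf] at h1
  · intro h x y hxy
    have h1 := h x ⟨tw t x, hmem x⟩ rfl
    rw [← h1, ← hcf ⟨a, ha⟩ ⟨tw t x, hmem x⟩]
    congr 1
    apply Subtype.ext
    rw [hxy, hval]
    rfl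

theorem FixT_congr {J : Subgroup Γ} {t : Γ × Ex G} {g g' : Γ × Ex G} (hg : g ∈ G1 G)
    (hg' : g' ∈ G1 G) (h1 : (g * t).1 ∈ J) (h2 : (g' * t).1 ∈ J)
    {χ : ↥(G ⊓ J) → ℂ} (hχ : IsIrreducibleCharacter χ) :
    FixT J (g' * t) χ ↔ FixT J (g * t) χ := by
  have h3 : g' * t = (((g' * g⁻¹).1, 1) : Γ × Ex G) * (g * t) := by
    have h4 : (((g' * g⁻¹).1, 1) : Γ × Ex G) = g' * g⁻¹ := by
      refine Prod.ext rfl ?_
      exact (mem_G1.1 ((G1 G).mul_mem hg' ((G1 G).inv_mem hg))).2.symm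
    rw [h4, mul_assoc, inv_mul_cancel_left]
  rw [h3]
  refine FixT_left h1 ⟨(mem_G1.1 ((G1 G).mul_mem hg' ((G1 G).inv_mem hg))).1, ?_⟩ hχ
  have h5 : (g' * g⁻¹).1 = (g' * t).1 * (g * t).1⁻¹ := by
    rw [← Prod.fst_inv, ← Prod.fst_mul, mul_inv_rev, mul_assoc, mul_inv_cancel_left]
  rw [h5]
  exact J.mul_mem h2 (J.inv_mem h1)

/-- the number of the characters in `B` stable under a coset -/
def stE (red : integralClosure ℤ ℂ →+* F) (G J : Subgroup Γ) [G.Normal] (B : (G → F) → F)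
    (t : Γ × Ex G) : ℕ :=
  Nat.card {χ : ↥(G ⊓ J) → ℂ // (IsIrreducibleCharacter χ ∧
    ∀ f : G → F, IsClassFun f → mE red G J χ f = B f) ∧
      ∃ g ∈ G1 G, (g * t).1 ∈ J ∧ FixT J (g * t) χ}

theorem AC_eq (red : integralClosure ℤ ℂ →+* F) (J : Subgroup Γ) (B : (G → F) → F)
    (t : Γ × Ex G) : AC red J B t = Nat.card ↥(G ⊓ J) * stE red G J B t := by
  have hfQ := finE G
  have : Fintype (G1 G) := Fintype.ofFinite _
  by_cases hex : ∃ g0 ∈ G1 G, (g0 * t).1 ∈ J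
  · obtain ⟨g0, hg0, h0⟩ := hex
    have e1 : stE red G J B t = cntE red G J B (g0 * t) := by
      unfold stE cntE
      refine Nat.card_congr (Equiv.subtypeEquivRight fun χ => and_congr_right fun hχ => ?_)
      constructor
      · rintro ⟨g, hg, h1, h2⟩
        exact (FixT_congr hg hg0 h1 h0 hχ.1).2 h2
      · intro h
        exact ⟨g0, hg0, h0, h⟩
    rw [e1]
    unfold AC
    rw [finsum_eq_sum_of_fintype, ← Finset.sum_filter]
    have h1 : ∀ g ∈ Finset.univ.filter (fun g : G1 G => (g.1 * t).1 ∈ J),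
        cntE red G J B (g.1 * t) = cntE red G J B (g0 * t) := by
      intro g hg
      have h2 : (g.1 * t).1 ∈ J := (Finset.mem_filter.1 hg).2
      unfold cntE
      refine Nat.card_congr (Equiv.subtypeEquivRight fun χ => and_congr_right fun hχ => ?_)
      exact FixT_congr hg0 g.2 h0 h2 hχ.1
    rw [Finset.sum_congr rfl h1, Finset.sum_const, smul_eq_mul]
    congr 1
    rw [← Fintype.card_subtype, ← Nat.card_eq_fintype_card]
    have hK : ∀ g : {g : G1 G // (g.1 * t).1 ∈ J}, g.1.1.1 * (g0.1)⁻¹ ∈ G ⊓ J := by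
      intro g
      refine ⟨G.mul_mem (mem_G1.1 g.1.2).1 (G.inv_mem (mem_G1.1 hg0).1), ?_⟩
      have h5 : g.1.1.1 * (g0.1)⁻¹ = (g.1.1 * t).1 * (g0 * t).1⁻¹ := by
        rw [← Prod.fst_inv, ← Prod.fst_mul, ← Prod.fst_inv, ← Prod.fst_mul, mul_inv_rev,
          mul_assoc, mul_inv_cancel_left]
      rw [h5]
      exact J.mul_mem g.2 (J.inv_mem h0)
    refine Nat.card_congr
      { toFun := fun g => ⟨g.1.1.1 * (g0.1)⁻¹, hK g⟩
        invFun := fun a => ⟨⟨(a.1, 1) * g0, (G1 G).mul_mem (mem_G1.2 ⟨a.2.1, rfl⟩) hg0⟩, ?_⟩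
        left_inv := ?_
        right_inv := ?_ }
    · show (((a.1, 1) : Γ × Ex G) * g0 * t).1 ∈ J
      rw [mul_assoc]
      exact J.mul_mem a.2.2 h0
    · intro g
      apply Subtype.ext
      apply Subtype.ext
      refine Prod.ext ?_ ?_
      · show g.1.1.1 * (g0.1)⁻¹ * g0.1 = g.1.1.1
        rw [inv_mul_cancel_right]
      · show (1 : Ex G) * g0.2 = g.1.1.2
        rw [(mem_G1.1 hg0).2, (mem_G1.1 g.1.2).2, mul_one]
    · intro a
      apply Subtype.ext
      show a.1 * g0.1 * (g0.1)⁻¹ = a.1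
      rw [mul_inv_cancel_right]
  · have e0 : stE red G J B t = 0 := by
      unfold stE
      have : IsEmpty {χ : ↥(G ⊓ J) → ℂ // (IsIrreducibleCharacter χ ∧
        ∀ f : G → F, IsClassFun f → mE red G J χ f = B f) ∧
          ∃ g ∈ G1 G, (g * t).1 ∈ J ∧ FixT J (g * t) χ} :=
        ⟨fun χ => hex (let ⟨g, hg, h, _⟩ := χ.2.2; ⟨g, hg, h⟩)⟩
      exact Nat.card_of_isEmpty
    rw [e0, mul_zero]
    unfold AC
    rw [finsum_congr (fun g => if_neg (fun h => hex ⟨g.1, g.2, h⟩)), finsum_zero]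

/-- an automorphism of the complex numbers as a power map -/
theorem exists_exp (τ : ℂ ≃+* ℂ) (G : Subgroup Γ) : ∃ v : Ex G, ∀ z : ℂ, z ^ Nat.card G = 1 →
    τ z = z ^ (v : ZMod (Nat.card G)).val := by
  have : NeZero (Nat.card G) := ⟨Nat.card_pos.ne'⟩
  obtain ⟨s, hs, h⟩ := exists_power τ (Nat.card_pos (α := G)).ne'
  refine ⟨ZMod.unitOfCoprime s hs, fun z hz => ?_⟩
  rw [h z hz, ZMod.coe_unitOfCoprime, ZMod.val_natCast]
  exact pow_eq_pow_mod s hz

theorem FixT_iff {τ : ℂ ≃+* ℂ} {v : Ex G}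
    (hv : ∀ z : ℂ, z ^ Nat.card G = 1 → τ.symm z = z ^ (v : ZMod (Nat.card G)).val)
    {J : Subgroup Γ} {a : Γ} (ha : a ∈ J) {χ : ↥(G ⊓ J) → ℂ} (hχ : IsIrreducibleCharacter χ) :
    FixT J (a, v) χ ↔ ∀ x y : ↥(G ⊓ J), (y : Γ) = a * x * a⁻¹ → χ y = τ (χ x) := by
  have hval : ∀ y : ↥(G ⊓ J), τ.symm (χ y) = χ (y ^ (v : ZMod (Nat.card G)).val) := fun y =>
    sigma_val hv (Subgroup.card_dvd_of_le inf_le_left) hχ y
  constructor
  · intro h x y hxy
    have h1 := h x (y ^ (v : ZMod (Nat.card G)).val) (by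
      show (y : Γ) ^ (v : ZMod (Nat.card G)).val = (a * x * a⁻¹) ^ (v : ZMod (Nat.card G)).val
      rw [hxy])
    rw [← hval] at h1
    rw [← h1, RingEquiv.apply_symm_apply]
  · intro h x y hxy
    have hm : a * x * a⁻¹ ∈ G ⊓ J := (conjN ha (x : Γ)).2 x.2
    have h1 := h x ⟨a * x * a⁻¹, hm⟩ rfl
    have h2 : y = (⟨a * x * a⁻¹, hm⟩ : ↥(G ⊓ J)) ^ (v : ZMod (Nat.card G)).val :=
      Subtype.ext hxy
    rw [h2, ← hval, h1, RingEquiv.symm_apply_apply]

end Pool.Agent.R663.GA
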