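import Pool.Agent.R663.GA.Tau

/-!
# The Galois form
-/

set_option autoImplicit false
set_option linter.unusedSectionVars false

open scoped Classical Pointwise

noncomputable section

namespace Pool.Agent.R663.GA

open Pool.Agent.Y63.AWC (IsIrreducibleCharacter irr_comp)
open Pool.Agent.Y63.NV
open Pool.Agent.Y63.KR (IsPChain chainStabilizer alternatingSum conjSub)
open Pool.Agent.Y930.NV (Cf irr_Cf)
open Pool.Agent.Y286.NV (centralValue_comp irr_class)
open Pool.Agent.R663.KRB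

variable {F : Type} [Field F] {Γ : Type} [Group Γ] [Finite Γ] {p : ℕ}

/-- the number of characters of `H` with induced block `B` fixed by a power map -/
def numPow (red : integralClosure ℤ ℂ →+* F) (H : Subgroup Γ) (B : (Γ → F) → F) (s : ℕ) : ℕ :=
  Nat.card {χ : H → ℂ // IsIrreducibleCharacter χ ∧
    (∀ f : Γ → F, IsClassFun f → centralValue red χ (fun x => f x) = B f) ∧
    ∀ x, χ (x ^ s) = χ x}

/-- transport -/
def topJ (J : Subgroup Γ) : ↥((⊤ : Subgroup Γ) ⊓ J) ≃* J where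
  toFun x := ⟨x, x.2.2⟩
  invFun x := ⟨x, trivial, x.2⟩
  left_inv _ := rfl
  right_inv _ := rfl
  map_mul' _ _ := rfl

theorem stE_top (red : integralClosure ℤ ℂ →+* F) (J : Subgroup Γ) (B : (Γ → F) → F)
    (v : Ex (⊤ : Subgroup Γ)) :
    stE red ⊤ J (fun f : (⊤ : Subgroup Γ) → F => B (fun x => f ⟨x, trivial⟩)) (1, v) =
      numPow red J B (v : ZMod (Nat.card (⊤ : Subgroup Γ))).val := by
  have hval : ∀ χ : J → ℂ, IsIrreducibleCharacter χ → ∀ f : Γ → F, IsClassFun f →
      mE red ⊤ J (fun x => χ (topJ J x)) (fun x : (⊤ : Subgroup Γ) => f x) =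
        centralValue red χ (fun x => f x) := by
    intro χ hχ f hf
    exact centralValue_comp red (topJ J) χ (irr_class hχ) (fun x => f x) (fun a x => hf a x)
  have hfix : ∀ χ : J → ℂ, IsIrreducibleCharacter χ →
      ((∃ g ∈ G1 (⊤ : Subgroup Γ), (g * (1, v)).1 ∈ J ∧
        FixT J (g * (1, v)) (fun x => χ (topJ J x))) ↔
      ∀ x, χ (x ^ (v : ZMod (Nat.card (⊤ : Subgroup Γ))).val) = χ x) := by
    intro χ hχ
    have hχ' := irr_comp (topJ J) hχ
    have h1 : FixT J ((1, v) : Γ × Ex (⊤ : Subgroup Γ)) (fun x => χ (topJ J x)) ↔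
        ∀ x, χ (x ^ (v : ZMod (Nat.card (⊤ : Subgroup Γ))).val) = χ x := by
      have htw : ∀ x : Γ, tw ((1, v) : Γ × Ex (⊤ : Subgroup Γ)) x =
          x ^ (v : ZMod (Nat.card (⊤ : Subgroup Γ))).val := by
        intro x
        show (1 * x * 1⁻¹) ^ (v : ZMod (Nat.card (⊤ : Subgroup Γ))).val = _
        rw [one_mul, inv_one, mul_one]
      constructor
      · intro h x
        exact h ((topJ J).symm x) ((topJ J).symm x ^
          (v : ZMod (Nat.card (⊤ : Subgroup Γ))).val) (htw x).symm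
      · intro h x y hxy
        rw [htw] at hxy
        have h2 : topJ J y = topJ J x ^ (v : ZMod (Nat.card (⊤ : Subgroup Γ))).val :=
          Subtype.ext hxy
        show χ (topJ J y) = χ (topJ J x)
        rw [h2, h]
    rw [← h1]
    constructor
    · rintro ⟨g, hg, h2, h3⟩
      have h4 := (FixT_congr (J := J) (t := ((1, v) : Γ × Ex (⊤ : Subgroup Γ))) hg
        (G1 (⊤ : Subgroup Γ)).one_mem h2 (by rw [one_mul]; exact J.one_mem) hχ').2 h3
      rwa [one_mul] at h4
    · intro h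
      exact ⟨1, (G1 (⊤ : Subgroup Γ)).one_mem, by rw [one_mul]; exact J.one_mem,
        by rw [one_mul]; exact h⟩
  unfold stE numPow
  refine Nat.card_congr
    { toFun := fun ψ => ⟨fun x => ψ.1 ((topJ J).symm x), irr_comp (topJ J).symm ψ.2.1.1, ?_, ?_⟩
      invFun := fun χ => ⟨fun x => χ.1 (topJ J x), ⟨irr_comp (topJ J) χ.2.1, ?_⟩, ?_⟩
      left_inv := fun ψ => rfl
      right_inv := fun χ => rfl }
  · intro f hf
    have h1 := hval (fun x => ψ.1 ((topJ J).symm x)) (irr_comp (topJ J).symm ψ.2.1.1) f hf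
    rw [← h1]
    exact ψ.2.1.2 (fun x => f x) (fun a x => hf a x)
  · exact (hfix (fun x => ψ.1 ((topJ J).symm x)) (irr_comp (topJ J).symm ψ.2.1.1)).1 ψ.2.2
  · intro f hf
    have h1 := hval χ.1 χ.2.1 (fun x => f ⟨x, trivial⟩)
      (fun a x => hf ⟨a, trivial⟩ ⟨x, trivial⟩)
    have h2 := χ.2.2.1 (fun x => f ⟨x, trivial⟩) (fun a x => hf ⟨a, trivial⟩ ⟨x, trivial⟩)
    rw [h2] at h1
    exact h1
  · exact (hfix χ.1 χ.2.1).2 χ.2.2.2

end Pool.Agent.R663.GA
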