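import Pool.Agent.R663.KRB.Filt
import Pool.Agent.R663.GA.Pow

/-!
# Twisted conjugation
-/

set_option autoImplicit false
set_option linter.unusedSectionVars false

open scoped Classical Pointwise

noncomputable section

namespace Pool.Agent.R663.GA

open Pool.Agent.Y63.NV
open Pool.Agent.Y930.NV (Cf)
open Pool.Agent.Y85.NV (cj mem_cj cj_one cj_mul cj_inv_cj cj_mono cj_le cj_pgroup cj_eq_map card_cj
  SYL exists_syl SYL.conj SYL.conj_of SYL.le_cent SYL.card_subgroupOf sum_zero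
  rst rst_apply gen_eq)
open Pool.Agent.R663.KRB

variable {F : Type} [Field F] {Γ : Type} [Group Γ] [Finite Γ]

section basic

variable {G : Subgroup Γ}

/-- the exponents -/
abbrev Ex (G : Subgroup Γ) : Type := (ZMod (Nat.card G))ˣ

/-- conjugation followed by a power map -/
def tw (t : Γ × Ex G) (x : Γ) : Γ := (t.1 * x * t.1⁻¹) ^ (t.2 : ZMod (Nat.card G)).val

theorem pw_eq {x : Γ} (hx : x ∈ G) {a b : ℕ} (h : a ≡ b [MOD Nat.card G]) : x ^ a = x ^ b :=
  pow_eq_pow_iff_modEq.2 (h.of_dvd (Subgroup.orderOf_dvd_natCard G hx))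

theorem ex_cop (v : Ex G) : ((v : ZMod (Nat.card G)).val).Coprime (Nat.card G) :=
  ZMod.val_coe_unit_coprime v

theorem pw_one {x : Γ} (hx : x ∈ G) : x ^ ((1 : Ex G) : ZMod (Nat.card G)).val = x := by
  have h1 : ((1 : Ex G) : ZMod (Nat.card G)).val ≡ 1 [MOD Nat.card G] := by
    rw [Units.val_one, ZMod.val_one_eq_one_mod]
    exact Nat.mod_modEq _ _
  rw [pw_eq hx h1, pow_one]

theorem pw_mul {x : Γ} (hx : x ∈ G) (u v : Ex G) :
    x ^ ((u * v : Ex G) : ZMod (Nat.card G)).val =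
      (x ^ (v : ZMod (Nat.card G)).val) ^ (u : ZMod (Nat.card G)).val := by
  have : NeZero (Nat.card G) := ⟨Nat.card_pos.ne'⟩
  have h1 : ((u * v : Ex G) : ZMod (Nat.card G)).val ≡
      (v : ZMod (Nat.card G)).val * (u : ZMod (Nat.card G)).val [MOD Nat.card G] := by
    rw [Units.val_mul, ZMod.val_mul, mul_comm]
    exact Nat.mod_modEq _ _
  rw [pw_eq hx h1, pow_mul]

variable [hG : G.Normal]

theorem tw_mem (t : Γ × Ex G) {x : Γ} (hx : x ∈ G) : tw t x ∈ G :=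
  G.pow_mem (hG.conj_mem x hx t.1) _

theorem tw_one {x : Γ} (hx : x ∈ G) : tw (1 : Γ × Ex G) x = x := by
  unfold tw
  rw [Prod.fst_one, Prod.snd_one, one_mul, inv_one, mul_one, pw_one hx]

theorem tw_pair_one {n x : Γ} (hx : x ∈ G) : tw ((n, 1) : Γ × Ex G) x = n * x * n⁻¹ :=
  pw_one (hG.conj_mem x hx n)

theorem tw_mul (s t : Γ × Ex G) {x : Γ} (hx : x ∈ G) : tw (s * t) x = tw s (tw t x) := by
  unfold tw
  rw [Prod.fst_mul, Prod.snd_mul, pw_mul (hG.conj_mem x hx _), ← conj_pow, ← pow_mul, ← pow_mul]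
  have e : s.1 * (t.1 * x * t.1⁻¹) * s.1⁻¹ = s.1 * t.1 * x * (s.1 * t.1)⁻¹ := by group
  rw [e]

theorem tw_inv_tw (t : Γ × Ex G) {x : Γ} (hx : x ∈ G) : tw t⁻¹ (tw t x) = x := by
  rw [← tw_mul _ _ hx, inv_mul_cancel, tw_one hx]

theorem tw_tw_inv (t : Γ × Ex G) {x : Γ} (hx : x ∈ G) : tw t (tw t⁻¹ x) = x := by
  rw [← tw_mul _ _ hx, mul_inv_cancel, tw_one hx]

end basic

/-! ### Sylow subgroups of centralisers -/

theorem cent_pow {x y : Γ} {k m : ℕ} (hx : orderOf x ∣ m) (hk : k.Coprime m) :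
    y * x ^ k = x ^ k * y ↔ y * x = x * y := by
  constructor
  · intro h
    have h1 : Commute y (x ^ k) := h
    have hk' : k.Coprime (orderOf x) := Nat.Coprime.coprime_dvd_right hx hk
    obtain ⟨l, hl⟩ := exists_pow_eq_self_of_coprime hk'
    have h2 := h1.pow_right l
    rw [hl] at h2
    exact h2
  · intro h
    have h1 : Commute y x := h
    exact h1.pow_right k

theorem inf_cent_pow {N : Subgroup Γ} {x : Γ} {k m : ℕ} (hx : orderOf x ∣ m) (hk : k.Coprime m) :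
    N ⊓ Subgroup.centralizer {x ^ k} = N ⊓ Subgroup.centralizer {x} := by
  ext y
  rw [Subgroup.mem_inf, Subgroup.mem_inf, Subgroup.mem_centralizer_singleton_iff,
    Subgroup.mem_centralizer_singleton_iff, cent_pow hx hk]

theorem inf_cent_conj {N : Subgroup Γ} {j : Γ} (hj : ∀ y, j * y * j⁻¹ ∈ N ↔ y ∈ N) (x : Γ) :
    N ⊓ Subgroup.centralizer {j * x * j⁻¹} = cj j (N ⊓ Subgroup.centralizer {x}) := by
  ext y
  rw [mem_cj, Subgroup.mem_inf, Subgroup.mem_inf, Subgroup.mem_centralizer_singleton_iff,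
    Subgroup.mem_centralizer_singleton_iff]
  have e1 : j * (j⁻¹ * y * j) * j⁻¹ = y := by group
  refine and_congr ?_ ?_
  · rw [← hj (j⁻¹ * y * j), e1]
  · constructor
    · intro h
      have h3 := congrArg (fun t => j⁻¹ * t * j) h
      simpa [mul_assoc] using h3
    · intro h
      have h3 := congrArg (fun t => j * t * j⁻¹) h
      simpa [mul_assoc] using h3

theorem SYL_pow {p : ℕ} {N R : Subgroup Γ} {x : Γ} {k m : ℕ} (hs : SYL p N x R)
    (hx : orderOf x ∣ m) (hk : k.Coprime m) : SYL p N (x ^ k) R where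
  le := hs.le
  pg := hs.pg
  cent r hr := (cent_pow hx hk).2 (hs.cent r hr)
  card := by
    rw [inf_cent_pow hx hk]
    exact hs.card

theorem SYL_conj {p : ℕ} {N R : Subgroup Γ} {x j : Γ} (hs : SYL p N x R)
    (hj : ∀ y, j * y * j⁻¹ ∈ N ↔ y ∈ N) : SYL p N (j * x * j⁻¹) (cj j R) where
  le := by
    intro y hy
    rw [mem_cj] at hy
    have h1 := (hj _).2 (hs.le hy)
    simpa [mul_assoc] using h1
  pg := cj_pgroup hs.pg
  cent r hr := by
    rw [mem_cj] at hr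
    have h3 := congrArg (fun t => j * t * j⁻¹) (hs.cent _ hr)
    simpa [mul_assoc] using h3
  card := by
    rw [inf_cent_conj hj x, card_cj, card_cj]
    exact hs.card

theorem SYL_conj_of {p : ℕ} [Fact p.Prime] {H : Subgroup Γ} {x : Γ} {R S : Subgroup Γ}
    (hR : SYL p H x R) (hS : SYL p H x S) : ∃ h ∈ H, h * x = x * h ∧ S = cj h R := by
  set C := H ⊓ Subgroup.centralizer {x} with hC
  let PR : Sylow p C := Sylow.ofCard (R.subgroupOf C) hR.card_subgroupOf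
  let PS : Sylow p C := Sylow.ofCard (S.subgroupOf C) hS.card_subgroupOf
  obtain ⟨g, hg⟩ := MulAction.exists_smul_eq C PR PS
  refine ⟨g, g.2.1, Subgroup.mem_centralizer_singleton_iff.1 (Subgroup.mem_inf.1 g.2).2, ?_⟩
  have h1 : ∀ y : C, (y : Γ) ∈ S ↔ (g : Γ)⁻¹ * y * g ∈ R := by
    intro y
    have h2 : y ∈ PS ↔ y ∈ g • PR := by rw [hg]
    have h3 : y ∈ PS ↔ (y : Γ) ∈ S := Subgroup.mem_subgroupOf
    have h4 : y ∈ g • PR ↔ g⁻¹ * y * g ∈ PR := by
      have h6 : ((g • PR : Sylow p C) : Subgroup C) = MulAut.conj g • (PR : Subgroup C) := rfl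
      change y ∈ ((g • PR : Sylow p C) : Subgroup C) ↔ _
      rw [h6, Subgroup.mem_pointwise_smul_iff_inv_smul_mem]
      simp only [MulAut.smul_def, MulAut.inv_apply, MulAut.conj_symm_apply]
      exact Iff.rfl
    have h5 : g⁻¹ * y * g ∈ PR ↔ ((g⁻¹ * y * g : C) : Γ) ∈ R := Subgroup.mem_subgroupOf
    rw [← h3, h2, h4, h5]
    simp
  ext y
  rw [mem_cj]
  constructor
  · intro hy
    exact (h1 ⟨y, hS.le_cent hy⟩).1 hy
  · intro hy
    have h2 : y ∈ C := by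
      have h3 := C.mul_mem (C.mul_mem g.2 (hR.le_cent hy)) (C.inv_mem g.2)
      simpa [mul_assoc] using h3
    exact (h1 ⟨y, h2⟩).2 hy

/-! ### Twisted invariants -/

section inv

variable {G : Subgroup Γ} [hG : G.Normal] (T : Subgroup (Γ × Ex G))

/-- functions on `S` which are invariant under twisted conjugation by the elements of `T`
over `J` -/
def VT (S : Set Γ) (J : Subgroup Γ) : Submodule F (Γ → F) where
  carrier := {θ | (∀ x, x ∉ S → θ x = 0) ∧ ∀ t ∈ T, t.1 ∈ J → ∀ x ∈ G, θ (tw t x) = θ x}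
  zero_mem' := ⟨fun _ _ => rfl, fun _ _ _ _ _ => rfl⟩
  add_mem' := by
    rintro a b ⟨ha, ha'⟩ ⟨hb, hb'⟩
    exact ⟨fun x hx => by rw [Pi.add_apply, ha x hx, hb x hx, add_zero],
      fun t ht hj x hx => by rw [Pi.add_apply, Pi.add_apply, ha' t ht hj x hx, hb' t ht hj x hx]⟩
  smul_mem' := by
    rintro c a ⟨ha, ha'⟩
    exact ⟨fun x hx => by rw [Pi.smul_apply, ha x hx, smul_zero],
      fun t ht hj x hx => by rw [Pi.smul_apply, Pi.smul_apply, ha' t ht hj x hx]⟩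

variable {T}

theorem VT_conj (hT : ∀ g ∈ G, ((g, 1) : Γ × Ex G) ∈ T) {S : Set Γ} (hS : S ⊆ G) {J : Subgroup Γ}
    {θ : Γ → F} (hθ : θ ∈ (VT T S J : Submodule F (Γ → F))) {n : Γ} (hn : n ∈ G) (hn' : n ∈ J)
    (x : Γ) :
    θ (n * x * n⁻¹) = θ x := by
  by_cases hx : x ∈ G
  · rw [← tw_pair_one (n := n) hx]
    exact hθ.2 _ (hT n hn) hn' x hx
  · have hx' : n * x * n⁻¹ ∉ G := by
      intro h
      apply hx
      have h1 := hG.conj_mem _ h n⁻¹
      simpa [mul_assoc] using h1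
    rw [hθ.1 x (fun h => hx (hS h)), hθ.1 _ (fun h => hx' (hS h))]

theorem Kfun_sum {N : Subgroup Γ} [Fintype N] {z θ : Γ → F} (hz : ∀ x, x ∉ N → z x = 0) (x : Γ) :
    ∑ᶠ g : Γ, z g * θ (g * x) = ∑ g : N, z g * θ (g * x) := by
  have : Fintype Γ := Fintype.ofFinite Γ
  exact sum_H N z (fun g => θ (g * x)) hz

/-- invariance of the operator -/
theorem kop_tw (hT : ∀ g ∈ G, ((g, 1) : Γ × Ex G) ∈ T) {J : Subgroup Γ} {z θ : Γ → F}
    (hz : z ∈ (VT T (G ⊓ J : Subgroup Γ) J : Submodule F (Γ → F))) {S S' : Set Γ}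
    (hS' : S' ⊆ G) (hSN : S ⊆ (G ⊓ J : Subgroup Γ))
    (hS : ∀ t ∈ T, t.1 ∈ J → ∀ x ∈ S, tw t x ∈ S)
    (hθ : θ ∈ (VT T S' J : Submodule F (Γ → F))) :
    Kop z S θ ∈ (VT T S J : Submodule F (Γ → F)) := by
  set N : Subgroup Γ := G ⊓ J with hN
  have hNG : N ≤ G := inf_le_left
  have hNJ : N ≤ J := inf_le_right
  have : Fintype N := Fintype.ofFinite N
  have : Fintype Γ := Fintype.ofFinite Γ
  have hval : ∀ y : Γ, Kop z S θ y = if y ∈ S then ∑ g : N, z g * θ (g * y) else 0 := by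
    intro y
    show Kfun z S θ y = _
    unfold Kfun
    split_ifs
    · exact Kfun_sum (fun x hx => hz.1 x hx) y
    · rfl
  refine ⟨fun x hx => by rw [hval, if_neg hx], fun t ht hj x hx => ?_⟩
  rw [hval, hval]
  by_cases hxS : x ∈ S
  · rw [if_pos hxS, if_pos (hS t ht hj x hxS)]
    have hxN : x ∈ N := hSN hxS
    have hconjN : ∀ y ∈ N, t.1 * y * t.1⁻¹ ∈ N := fun y hy =>
      ⟨hG.conj_mem y hy.1 _, J.mul_mem (J.mul_mem hj hy.2) (J.inv_mem hj)⟩
    have hcz : Cf (fun y : N => z y) := fun g y =>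
      VT_conj hT (fun _ h => hNG h) hz (hNG g.2) (hNJ g.2) y
    have hcθ : Cf (fun y : N => θ y) := fun g y =>
      VT_conj hT hS' hθ (hNG g.2) (hNJ g.2) y
    set k := (t.2 : ZMod (Nat.card G)).val with hk
    have hkN : k.Coprime (Nat.card N) :=
      Nat.Coprime.coprime_dvd_right (Subgroup.card_dvd_of_le hNG) (ex_cop t.2)
    have h1 := pm hcz hcθ hkN ⟨t.1 * x * t.1⁻¹, hconjN x hxN⟩
    have h2 : ∑ g : N, z g * θ (g * tw t x) =
        ∑ g : N, z (g ^ k : N) * θ ((g * ⟨t.1 * x * t.1⁻¹, hconjN x hxN⟩) ^ k : N) := h1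
    rw [h2]
    let e : N ≃ N :=
      { toFun := fun y => ⟨t.1 * y * t.1⁻¹, hconjN y y.2⟩
        invFun := fun y => ⟨t.1⁻¹ * y * t.1, by
          have h3 : t.1⁻¹ ∈ J := J.inv_mem hj
          refine ⟨?_, J.mul_mem (J.mul_mem h3 y.2.2) hj⟩
          have h4 := hG.conj_mem y y.2.1 t.1⁻¹
          rwa [inv_inv] at h4⟩
        left_inv := fun y => Subtype.ext (by
          show t.1⁻¹ * (t.1 * y * t.1⁻¹) * t.1 = y
          group)
        right_inv := fun y => Subtype.ext (by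
          show t.1 * (t.1⁻¹ * y * t.1) * t.1⁻¹ = y
          group) }
    rw [← Equiv.sum_comp e]
    refine Finset.sum_congr rfl fun h _ => ?_
    have e1 : ((e h ^ k : N) : Γ) = tw t h := rfl
    have e2 : (((e h * ⟨t.1 * x * t.1⁻¹, hconjN x hxN⟩) ^ k : N) : Γ) = tw t (h * x) := by
      show (t.1 * h * t.1⁻¹ * (t.1 * x * t.1⁻¹)) ^ k = (t.1 * (h * x) * t.1⁻¹) ^ k
      congr 1
      group
    rw [e1, e2, hz.2 t ht hj _ (hNG h.2), hθ.2 t ht hj _ (G.mul_mem (hNG h.2) (hNG hxN))]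
  · have hxS' : tw t x ∉ S := by
      intro h
      apply hxS
      have h1 := hS t⁻¹ (T.inv_mem ht) (J.inv_mem hj) _ h
      rwa [tw_inv_tw t hx] at h1
    rw [if_neg hxS, if_neg hxS']

end inv

end Pool.Agent.R663.GA
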